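import Pool.Agent.Work.MP_edf6ee_al.CP.Stmts

/-!
# ACE: compactness for families of endomorphisms
-/

set_option autoImplicit false

namespace Pool.Agent.Work.MP_edf6ee_al.CP

open scoped BigOperators

section ACE

variable {R : Type} [Ring R] {M : Type} [AddCommGroup M] [Module R M] {J : Type}

/-- unknowns -/
abbrev ACE_I (M J : Type) (k : ℕ) : Type := (J × M) ⊕ (J × Fin k)

/-- relations -/
abbrev ACE_W (R M : Type) [Ring R] [AddCommGroup M] [Module R M] : Type :=
  {w : M →₀ R // (w.sum fun m r => r • m) = 0}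

/-- equations -/
abbrev ACE_E (R M J : Type) [Ring R] [AddCommGroup M] [Module R M]
    (Γ : Set (J × M × J × M × M)) (m : ℕ) : Type :=
  (J × ACE_W R M) ⊕ (Γ ⊕ (J × Fin m))

open Classical in
/-- rows -/
noncomputable def ACE_row (θ : PP R 1) (b : M) (Γ : Set (J × M × J × M × M)) :
    ACE_E R M J Γ θ.m → (ACE_I M J θ.k →₀ R)
  | .inl (j, w) => w.1.mapDomain fun m => Sum.inl (j, m)
  | .inr (.inl γ) => Finsupp.single (Sum.inl (γ.1.1, γ.1.2.1)) 1
      - Finsupp.single (Sum.inl (γ.1.2.2.1, γ.1.2.2.2.1)) 1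
  | .inr (.inr (j, i)) => Finsupp.single (Sum.inl (j, b)) (θ.C i 0)
      + ∑ l, Finsupp.single (Sum.inr (j, l)) (θ.D i l)

/-- right hand sides -/
def ACE_rhs (θ : PP R 1) (b : M) (Γ : Set (J × M × J × M × M)) :
    ACE_E R M J Γ θ.m → M
  | .inl _ => 0
  | .inr (.inl γ) => γ.1.2.2.2.2
  | .inr (.inr (_, i)) => θ.C i 0 • b

/-- the equations of the first kind -/
theorem ACE_eq1 (θ : PP R 1) (b : M) (Γ : Set (J × M × J × M × M)) (x : ACE_I M J θ.k → M)
    (j : J) (w : ACE_W R M) :
    ((ACE_row θ b Γ (.inl (j, w))).sum fun i r => r • x i) =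
      w.1.sum fun m r => r • x (.inl (j, m)) := by
  show ((w.1.mapDomain fun m => (Sum.inl (j, m) : ACE_I M J θ.k)).sum fun i r => r • x i) = _
  rw [Finsupp.sum_mapDomain_index (h := fun i r => r • x i) (fun b => zero_smul R _)
    (fun b r s => add_smul r s _)]

theorem ACE_eq2 (θ : PP R 1) (b : M) (Γ : Set (J × M × J × M × M)) (x : ACE_I M J θ.k → M)
    (γ : Γ) :
    ((ACE_row θ b Γ (.inr (.inl γ))).sum fun i r => r • x i) =
      x (.inl (γ.1.1, γ.1.2.1)) - x (.inl (γ.1.2.2.1, γ.1.2.2.2.1)) := by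
  show Finsupp.linearCombination R x (ACE_row θ b Γ (.inr (.inl γ))) = _
  simp only [ACE_row, map_sub, Finsupp.linearCombination_single, one_smul]

theorem ACE_eq3 (θ : PP R 1) (b : M) (Γ : Set (J × M × J × M × M)) (x : ACE_I M J θ.k → M)
    (j : J) (i : Fin θ.m) :
    ((ACE_row θ b Γ (.inr (.inr (j, i)))).sum fun i r => r • x i) =
      θ.C i 0 • x (.inl (j, b)) + ∑ l, θ.D i l • x (.inr (j, l)) := by
  show Finsupp.linearCombination R x (ACE_row θ b Γ (.inr (.inr (j, i)))) = _
  simp only [ACE_row, map_add, map_sum, Finsupp.linearCombination_single]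

end ACE

theorem pr_ACE (_hCL1 : S_CL1) : S_ACE := by
  intro R _ M _ _ hAC J ψ hψ b Γ hfin
  classical
  obtain ⟨θ, hθ⟩ := hψ
  obtain ⟨x, hx⟩ := hAC (ACE_I M J θ.k) (ACE_E R M J Γ θ.m) (ACE_row θ b Γ) (ACE_rhs θ b Γ) (by
    intro s
    let s' : Finset (J × M × J × M × M) := s.biUnion fun e =>
      match e with
      | .inl _ => ∅
      | .inr (.inl γ) => {γ.1}
      | .inr (.inr _) => ∅
    let t' : Finset J := s.biUnion fun e =>
      match e with
      | .inl _ => ∅
      | .inr (.inl _) => ∅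
      | .inr (.inr (j, _)) => {j}
    obtain ⟨u, hu1, hu2⟩ := hfin s' t' (by
      intro γ hγ
      rw [Finset.mem_biUnion] at hγ
      obtain ⟨e, _, he⟩ := hγ
      rcases e with _ | γ' | _
      · exact absurd he (Finset.notMem_empty _)
      · rw [Finset.mem_singleton] at he
        rw [he]
        exact γ'.2
      · exact absurd he (Finset.notMem_empty _))
    have hy : ∀ j : J, ∃ y : Fin θ.k → M, j ∈ t' →
        ∀ i, θ.C i 0 • (u j b - b) + ∑ l, θ.D i l • y l = 0 := by
      intro j
      by_cases hj : j ∈ t'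
      · obtain ⟨y, hy⟩ := (hθ _).1 (hu2 j hj)
        refine ⟨y, fun _ i => ?_⟩
        have := hy i
        simpa using this
      · exact ⟨fun _ => 0, fun h => absurd h hj⟩
    choose y hy using hy
    refine ⟨fun i => match i with
      | .inl (j, m) => u j m
      | .inr (j, l) => y j l, ?_⟩
    intro e he
    rcases e with ⟨j, w⟩ | γ | ⟨j, i⟩
    · rw [ACE_eq1]
      show (w.1.sum fun m r => r • u j m) = 0
      have h := congrArg (u j) w.2
      rw [map_zero, map_finsuppSum] at h
      simpa only [map_smul] using h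
    · rw [ACE_eq2]
      show u γ.1.1 γ.1.2.1 - u γ.1.2.2.1 γ.1.2.2.2.1 = γ.1.2.2.2.2
      rw [hu1 γ.1 (Finset.mem_biUnion.2 ⟨_, he, Finset.mem_singleton_self _⟩)]
      abel
    · rw [ACE_eq3]
      show θ.C i 0 • u j b + ∑ l, θ.D i l • y j l = θ.C i 0 • b
      have h := hy j (Finset.mem_biUnion.2 ⟨_, he, Finset.mem_singleton_self _⟩) i
      rw [smul_sub] at h
      rw [← sub_eq_zero]
      rw [← h]
      abel)
  have hlin : ∀ (j : J) (w : M →₀ R), (w.sum fun m r => r • m) = 0 →
      Finsupp.linearCombination R (fun m => x (.inl (j, m))) w = 0 := by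
    intro j w hw
    have h := hx (.inl (j, ⟨w, hw⟩))
    rw [ACE_eq1] at h
    exact h
  have hid : ∀ w : M →₀ R, (w.sum fun m r => r • m) =
      Finsupp.linearCombination R (fun m : M => m) w := fun w => rfl
  let u : J → Module.End R M := fun j =>
    { toFun := fun m => x (.inl (j, m))
      map_add' := by
        intro m m'
        have h := hlin j (Finsupp.single (m + m') 1 - Finsupp.single m 1 - Finsupp.single m' 1)
          (by
            rw [hid]
            simp only [map_sub, Finsupp.linearCombination_single, one_smul]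
            abel)
        simp only [map_sub, Finsupp.linearCombination_single, one_smul] at h
        rw [sub_sub, sub_eq_zero] at h
        exact h
      map_smul' := by
        intro r m
        have h := hlin j (Finsupp.single (r • m) 1 - Finsupp.single m r)
          (by
            rw [hid]
            simp only [map_sub, Finsupp.linearCombination_single, one_smul]
            abel)
        simp only [map_sub, Finsupp.linearCombination_single, one_smul] at h
        rw [sub_eq_zero] at h
        exact h }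
  refine ⟨u, ?_, ?_⟩
  · intro γ hγ
    have h := hx (.inr (.inl ⟨γ, hγ⟩))
    rw [ACE_eq2] at h
    show x (.inl (γ.1, γ.2.1)) = x (.inl (γ.2.2.1, γ.2.2.2.1)) + γ.2.2.2.2
    rw [sub_eq_iff_eq_add] at h
    rw [h]
    show γ.2.2.2.2 + _ = _
    abel
  · intro j
    rw [hθ]
    refine ⟨fun l => x (.inr (j, l)), fun i => ?_⟩
    have h := hx (.inr (.inr (j, i)))
    rw [ACE_eq3] at h
    have h2 : θ.C i 0 • x (.inl (j, b)) + ∑ l, θ.D i l • x (.inr (j, l)) = θ.C i 0 • b := h
    show ∑ j0 : Fin 1, θ.C i j0 • (x (.inl (j, b)) - b) + ∑ l, θ.D i l • x (.inr (j, l)) = 0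
    rw [Fin.sum_univ_one, smul_sub]
    rw [← sub_eq_zero] at h2
    rw [← h2]
    abel

end Pool.Agent.Work.MP_edf6ee_al.CP
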