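import Pool.Agent.Work.MP_edf6ee_al.CP.Stmts

/-!
# MP_edf6ee_al, closed points, item ACP: pure-injective implies algebraically compact
-/

set_option autoImplicit false

namespace Pool.Agent.Work.MP_edf6ee_al.CP

open scoped BigOperators

theorem pr_ACP : S_ACP := by
  classical
  intro R _ M _ _ hP I E row rhs hfin
  let v : E → M × (I →₀ R) := fun e => (-rhs e, row e)
  let U : Submodule R (M × (I →₀ R)) := Submodule.span R (Set.range v)
  let g : (I → M) → (M × (I →₀ R)) →ₗ[R] M := fun x =>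
    LinearMap.coprod LinearMap.id (Finsupp.linearCombination R x)
  have hg : ∀ (x : I → M) (m : M) (w : I →₀ R), g x (m, w) = m + Finsupp.linearCombination R x w :=
    fun x m w => rfl
  have hv : ∀ (x : I → M) (e : E), ((row e).sum fun i r => r • x i) = rhs e → g x (v e) = 0 := by
    intro x e he
    have h1 : Finsupp.linearCombination R x (row e) = rhs e := he
    show g x (-rhs e, row e) = 0
    rw [hg, h1, neg_add_cancel]
  have kill : ∀ u ∈ U, ∃ s : Finset E, ∀ x : I → M,
      (∀ e ∈ s, ((row e).sum fun i r => r • x i) = rhs e) → g x u = 0 := by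
    intro u hu
    obtain ⟨c, hc⟩ := (Finsupp.mem_span_range_iff_exists_finsupp).mp hu
    refine ⟨c.support, fun x hx => ?_⟩
    rw [← hc, Finsupp.sum, map_sum]
    refine Finset.sum_eq_zero fun e he => ?_
    rw [map_smul, hv x e (hx e he), smul_zero]
  let f : M →ₗ[R] (M × (I →₀ R)) ⧸ U := U.mkQ.comp (LinearMap.inl R M (I →₀ R))
  have hf : ∀ m, f m = U.mkQ (m, 0) := fun _ => rfl
  obtain ⟨h, hh⟩ := hP ((M × (I →₀ R)) ⧸ U) f (by
    rw [injective_iff_map_eq_zero]
    intro m hm
    rw [hf, Submodule.mkQ_apply, Submodule.Quotient.mk_eq_zero] at hm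
    obtain ⟨s, hs⟩ := kill _ hm
    obtain ⟨x, hx⟩ := hfin s
    have h1 := hs x hx
    rw [hg, map_zero, add_zero] at h1
    exact h1) (by
    rintro k n H a ⟨y, hy⟩
    have hY : ∀ j, ∃ Y : M × (I →₀ R), U.mkQ Y = y j := fun j => U.mkQ_surjective (y j)
    choose Y hY using hY
    have hu : ∀ i, (∑ j, H i j • Y j) - (a i, 0) ∈ U := by
      intro i
      rw [← Submodule.Quotient.mk_eq_zero, ← Submodule.mkQ_apply, map_sub, map_sum, ← hf,
        ← hy i, sub_eq_zero]
      exact Finset.sum_congr rfl fun j _ => by rw [map_smul, hY]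
    choose s hs using fun i => kill _ (hu i)
    obtain ⟨x, hx⟩ := hfin (Finset.univ.biUnion s)
    refine ⟨fun j => g x (Y j), fun i => ?_⟩
    have h1 := hs i x fun e he => hx e (Finset.mem_biUnion.mpr ⟨i, Finset.mem_univ i, he⟩)
    rw [map_sub, map_sum, hg x (a i), map_zero, add_zero, sub_eq_zero] at h1
    rw [← h1]
    exact Finset.sum_congr rfl fun j _ => by rw [map_smul])
  refine ⟨fun i => h (U.mkQ (0, Finsupp.single i 1)), fun e => ?_⟩
  have h1 : U.mkQ (v e) = 0 := by
    rw [Submodule.mkQ_apply, Submodule.Quotient.mk_eq_zero]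
    exact Submodule.subset_span ⟨e, rfl⟩
  have h2 : v e = (0, row e) - (rhs e, 0) := by
    show (-rhs e, row e) = _
    simp
  rw [h2, map_sub, ← hf, sub_eq_zero] at h1
  have h3 : h (f (rhs e)) = rhs e := by
    have := congrArg (fun φ : M →ₗ[R] M => φ (rhs e)) hh
    simpa using this
  rw [← h3, ← h1]
  let q : (I →₀ R) →ₗ[R] M := h.comp (U.mkQ.comp (LinearMap.inr R M (I →₀ R)))
  have hq : ∀ w, q w = h (U.mkQ (0, w)) := fun _ => rfl
  rw [← hq]
  conv_rhs => rw [← Finsupp.sum_single (row e), Finsupp.sum, map_sum]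
  refine Finset.sum_congr rfl fun i _ => ?_
  show (row e) i • q (Finsupp.single i 1) = q (Finsupp.single i ((row e) i))
  rw [← map_smul, Finsupp.smul_single, smul_eq_mul, mul_one]

end Pool.Agent.Work.MP_edf6ee_al.CP
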