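import Pool.Agent.Work.MP_edf6ee_al.CP.Stmts

set_option autoImplicit false

namespace Pool.Agent.Work.MP_edf6ee_al.CP

open Cardinal in
theorem pr_ARITH : S_ARITH := by
  intro F hF hlt c hc hle
  have e1 : Cardinal.mk (ℕ → F) = Cardinal.mk F ^ Cardinal.aleph0 := by
    simp
  rw [e1] at hle
  have h2 : max ℵ₀ c ≤ max ℵ₀ (Cardinal.mk F) := max_le (le_max_left _ _) hc
  have h3 := hle.trans h2
  rcases le_total ℵ₀ (Cardinal.mk F) with h | h
  · rw [max_eq_right h] at h3
    exact absurd hlt (not_lt.mpr h3)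
  · rw [max_eq_left h] at h3
    have h4 : (2 : Cardinal) ≤ Cardinal.mk F := by
      rw [Cardinal.two_le_iff]
      exact exists_pair_ne F
    have h5 : (2 : Cardinal) ^ ℵ₀ ≤ Cardinal.mk F ^ ℵ₀ := Cardinal.power_le_power_right h4
    exact absurd (Cardinal.cantor ℵ₀) (not_lt.mpr (h5.trans h3))

end Pool.Agent.Work.MP_edf6ee_al.CP
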