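import Pool.Agent.Work.MP_edf6ee_al.CP.Stmts

/-!
# Item BAS: basic facts
-/

set_option autoImplicit false

namespace Pool.Agent.Work.MP_edf6ee_al.CP

open scoped BigOperators

theorem pr_BAS : S_BAS := by
  intro R _ n φ M _ _
  refine ⟨⟨fun _ => 0, fun i => ?_⟩, ?_, ?_, ?_⟩
  · simp only [smul_zero, Finset.sum_const_zero, add_zero]
  · rintro x y ⟨a, ha⟩ ⟨b, hb⟩
    refine ⟨fun l => a l + b l, fun i => ?_⟩
    simp only [smul_add, Finset.sum_add_distrib]
    have h1 := ha i
    have h2 := hb i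
    calc _ = (∑ j, φ.C i j • x j + ∑ l, φ.D i l • a l) +
        (∑ j, φ.C i j • y j + ∑ l, φ.D i l • b l) := by abel
      _ = 0 := by rw [h1, h2, add_zero]
  · rintro x ⟨a, ha⟩
    refine ⟨fun l => - a l, fun i => ?_⟩
    simp only [smul_neg, Finset.sum_neg_distrib]
    rw [← neg_add, ha i, neg_zero]
  · rintro M' _ _ f x ⟨a, ha⟩
    refine ⟨fun l => f (a l), fun i => ?_⟩
    have h := congrArg f (ha i)
    rw [map_add, map_sum, map_sum, map_zero] at h
    simp only [map_smul] at h
    exact h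

end Pool.Agent.Work.MP_edf6ee_al.CP
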