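import Pool.Agent.Work.MP_edf6ee_al.CP.Stmts

set_option autoImplicit false

namespace Pool.Agent.Work.MP_edf6ee_al.CP

/-- multiplication by a central element -/
def BR_cen {R : Type} [Ring R] (N : Type) [AddCommGroup N] [Module R N] (r : R)
    (hr : ∀ s, r * s = s * r) : Module.End R N where
  toFun x := r • x
  map_add' := smul_add r
  map_smul' s x := by
    simp only [RingHom.id_apply]
    rw [← mul_smul, ← mul_smul, hr]

theorem pr_BR (hNU : S_NU) (hMR : S_MR) (hCL1 : S_CL1) (hCL2 : S_CL2) : S_BR := by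
  intro R _ N _ _ hG hNM Λ ρ hcen hreg φ hφ hφ0
  obtain ⟨α, hα, β, hβ, hα0, hβ0, hαφ, hβφ, hαβ⟩ := hNU R N hG hNM φ hφ hφ0
  obtain ⟨hbot, htop, hinf, hsup, hst⟩ := hCL1 R N
  obtain ⟨b0, hb0, hb0', P0⟩ := hMR R N hG ⊥ hbot α hα (fun h => hα0 (le_bot_iff.1 h))
  obtain ⟨b1, hb1, hb1', P1⟩ := hMR R N hG ⊥ hbot β hβ (fun h => hβ0 (le_bot_iff.1 h))
  obtain ⟨B0, hB0, h1, h2⟩ := hG.link b0 (fun h => hb0' (AddSubgroup.mem_bot.2 h)) ⊥ hbot b1 hb1'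
  have h20 : (b0, (0 : N)) ∉ B0 := h2 0 (AddSubgroup.zero_mem _)
  obtain ⟨Kc, hKc, hcoker⟩ := (hCL2 R N B0 hB0).coker
  obtain ⟨Kk, hKk, hker⟩ := (hCL2 R N B0 hB0).ker
  have hb1K : b1 ∉ Kc := by
    intro h
    have h3 := B0.sub_mem h1 ((hcoker _).1 h)
    exact h20 (by simpa using h3)
  obtain ⟨C1, hC1, hb1C1, hC1K⟩ := P1 Kc hKc hb1K
  obtain ⟨C0, hC0, hb0C0, hC0K⟩ := P0 Kk hKk (fun h => h20 ((hker _).1 h))
  obtain ⟨B, hB, hcut⟩ := (hCL2 R N B0 hB0).cut (C0 ⊓ α) (hinf _ hC0 _ hα) (C1 ⊓ β)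
    (hinf _ hC1 _ hβ)
  have hbb : (b0, b1) ∈ B := (hcut _ _).2 ⟨h1, ⟨hb0C0, hb0⟩, ⟨hb1C1, hb1⟩⟩
  have hx0 : ∀ x, (x, (0 : N)) ∈ B → x = 0 := by
    intro x hx
    have h3 := (hcut _ _).1 hx
    have h4 : x ∈ C0 ⊓ Kk := ⟨h3.2.1.1, (hker _).2 h3.1⟩
    exact AddSubgroup.mem_bot.1 (hC0K h4)
  have h0y : ∀ y, ((0 : N), y) ∈ B → y = 0 := by
    intro y hy
    have h3 := (hcut _ _).1 hy
    have h4 : y ∈ C1 ⊓ Kc := ⟨h3.2.2.1, (hcoker _).2 h3.1⟩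
    exact AddSubgroup.mem_bot.1 (hC1K h4)
  have hst' : ∀ l, ∀ y ∈ β, ρ l • y ∈ β := fun l y hy => hst β hβ (BR_cen N (ρ l) (hcen l)) y hy
  have hV : ∀ l, ∃ A ∈ D1 R N, ∀ z, z ∈ A ↔ ∃ x y, (x, y) ∈ B ∧ z = x + ρ l • y :=
    fun l => (hCL2 R N B hB).graph (ρ l)
  choose V hVD hVm using hV
  refine ⟨V, fun l => ⟨hVD l, ?_, ?_⟩, ?_⟩
  · intro hbotV
    have h3 : b0 + ρ l • b1 ∈ V l := (hVm l _).2 ⟨b0, b1, hbb, rfl⟩
    rw [hbotV, AddSubgroup.mem_bot] at h3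
    have h4 : b0 = - (ρ l • b1) := eq_neg_of_add_eq_zero_left h3
    have h5 : b0 ∈ β := by
      rw [h4]
      exact β.neg_mem (hst' l b1 hb1)
    have h6 : b0 ∈ α ⊓ β := ⟨hb0, h5⟩
    rw [hαβ] at h6
    exact hb0' h6
  · intro z hz
    obtain ⟨x, y, hxy, rfl⟩ := (hVm l z).1 hz
    have h3 := (hcut _ _).1 hxy
    exact φ.add_mem (hαφ h3.2.1.2) (hβφ (hst' l y h3.2.2.2))
  · intro l m hlm
    rw [eq_bot_iff]
    intro z hz
    obtain ⟨x, y, hxy, hz1⟩ := (hVm l z).1 hz.1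
    obtain ⟨x', y', hxy', hz2⟩ := (hVm m z).1 hz.2
    have h3 := (hcut _ _).1 hxy
    have h4 := (hcut _ _).1 hxy'
    have h5 : x - x' = ρ m • y' - ρ l • y := by
      have h6 : x + ρ l • y = x' + ρ m • y' := hz1.symm.trans hz2
      have h7 : x - x' = (x + ρ l • y) - ρ l • y - x' := by abel
      rw [h7, h6]
      abel
    have h6 : x - x' ∈ α ⊓ β := by
      refine ⟨α.sub_mem h3.2.1.2 h4.2.1.2, ?_⟩
      have : x - x' ∈ β := by
        rw [h5]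
        exact β.sub_mem (hst' m y' h4.2.2.2) (hst' l y h3.2.2.2)
      exact this
    rw [hαβ, AddSubgroup.mem_bot, sub_eq_zero] at h6
    subst h6
    have h7 : ((0 : N), y - y') ∈ B := by
      have h8 := B.sub_mem hxy hxy'
      simpa using h8
    have h8 : y = y' := sub_eq_zero.1 (h0y _ h7)
    subst h8
    have h9 : (ρ l - ρ m) • y = 0 := by
      rw [sub_smul]
      have : x + ρ l • y = x + ρ m • y := hz1.symm.trans hz2
      exact sub_eq_zero.2 (add_left_cancel this)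
    have h10 : y = 0 := hreg l m hlm y h9
    subst h10
    have h11 : x = 0 := hx0 x hxy
    rw [hz1, h11, smul_zero, add_zero]
    exact AddSubgroup.zero_mem _

end Pool.Agent.Work.MP_edf6ee_al.CP
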