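import Pool.Agent.Work.MP_edf6ee_al.CP.Stmts

set_option autoImplicit false

namespace Pool.Agent.Work.MP_edf6ee_al.CP

open scoped BigOperators
open Cardinal

/-- codes -/
abbrev CARD_Code (N : Type) (T : Set (N → N)) : Type :=
  Σ m : ℕ, Σ k : ℕ, (Fin m → Fin 2 → T) × (Fin m → Fin k → T)

/-- truth of a code -/
def CARD_Sat (N : Type) [AddCommGroup N] (T : Set (N → N)) (c : CARD_Code N T) (x y : N) : Prop :=
  ∃ z : Fin c.2.1 → N, ∀ i, ∑ j, (c.2.2.1 i j).1 (![x, y] j) + ∑ l, (c.2.2.2 i l).1 (z l) = 0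

theorem CARD_code_le (N : Type) (T : Set (N → N)) :
    Cardinal.mk (CARD_Code N T) ≤ max ℵ₀ (Cardinal.mk T) := by
  set c : Cardinal := max ℵ₀ (Cardinal.mk T) with hc
  have hc0 : ℵ₀ ≤ c := le_max_left _ _
  have hpow : ∀ (X : Type) (n : ℕ), Cardinal.mk X ≤ c → Cardinal.mk (Fin n → X) ≤ c := by
    intro X n hX
    have e1 : Cardinal.mk (Fin n → X) = Cardinal.mk X ^ (n : Cardinal) := by simp
    rw [e1]
    calc Cardinal.mk X ^ (n : Cardinal) ≤ c ^ (n : Cardinal) := Cardinal.power_le_power_right hX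
      _ ≤ c := Cardinal.power_nat_le hc0
  have hT : Cardinal.mk T ≤ c := le_max_right _ _
  have hsig : ∀ (f : ℕ → Type), (∀ n, Cardinal.mk (f n) ≤ c) → Cardinal.mk (Σ n, f n) ≤ c := by
    intro f hf
    rw [Cardinal.mk_sigma]
    calc Cardinal.sum (fun i => Cardinal.mk (f i)) ≤ Cardinal.sum (fun _ : ℕ => c) :=
          Cardinal.sum_le_sum _ _ hf
      _ = Cardinal.mk ℕ * c := by rw [Cardinal.sum_const']
      _ ≤ c * c := by
          rw [Cardinal.mk_nat]
          exact mul_le_mul' hc0 le_rfl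
      _ = c := Cardinal.mul_eq_self hc0
  apply hsig
  intro m
  apply hsig
  intro k
  rw [Cardinal.mk_prod, Cardinal.lift_id, Cardinal.lift_id]
  calc Cardinal.mk (Fin m → Fin 2 → T) * Cardinal.mk (Fin m → Fin k → T) ≤ c * c :=
        mul_le_mul' (hpow _ _ (hpow _ _ hT)) (hpow _ _ (hpow _ _ hT))
    _ = c := Cardinal.mul_eq_self hc0

theorem pr_CARD : S_CARD := by
  intro R _ N _ _
  set T : Set (N → N) := Set.range fun (r : R) (x : N) => r • x with hT
  refine le_trans ?_ (CARD_code_le N T)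
  have key : ∀ B : D2 R N, ∃ c : CARD_Code N T, ∀ x y, (x, y) ∈ B.1 ↔ CARD_Sat N T c x y := by
    intro B
    obtain ⟨φ, hφ⟩ := B.2
    refine ⟨⟨φ.m, φ.k, fun i j => ⟨fun x => φ.C i j • x, φ.C i j, rfl⟩,
      fun i l => ⟨fun x => φ.D i l • x, φ.D i l, rfl⟩⟩, ?_⟩
    intro x y
    rw [hφ]
    rfl
  choose f hf using key
  refine Cardinal.mk_le_of_injective (f := f) ?_
  intro B B' h
  apply Subtype.ext
  ext ⟨x, y⟩
  rw [hf B, hf B', h]

end Pool.Agent.Work.MP_edf6ee_al.CP
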