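import Pool.Agent.Work.MP_edf6ee_al.CP.Stmts

/-!
# Item CL1: closure properties of `D1`
-/

set_option autoImplicit false

namespace Pool.Agent.Work.MP_edf6ee_al.CP

theorem pr_CL1 (hBAS : S_BAS) (hFRM : S_FRM) (_hSUB : S_SUB) : S_CL1 := by
  intro R _ M _ _
  refine ⟨⟨⟨1, 0, fun _ _ => 1, fun _ i => Fin.elim0 i⟩, fun x => ?_⟩,
    ⟨⟨0, 0, fun i _ => Fin.elim0 i, fun i _ => Fin.elim0 i⟩, fun x => ?_⟩, ?_, ?_, ?_⟩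
  · rw [AddSubgroup.mem_bot]
    constructor
    · intro hx
      refine ⟨fun i => Fin.elim0 i, fun i => ?_⟩
      simp [hx]
    · rintro ⟨y, hy⟩
      have := hy 0
      simpa using this
  · refine ⟨fun _ => ⟨fun i => Fin.elim0 i, fun i => Fin.elim0 i⟩, fun _ => AddSubgroup.mem_top _⟩
  · rintro A ⟨φ, hφ⟩ B ⟨ψ, hψ⟩
    obtain ⟨⟨σ, hσ⟩, -⟩ := hFRM R φ ψ
    refine ⟨σ, fun x => ?_⟩
    rw [AddSubgroup.mem_inf, hφ, hψ, hσ]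
  · rintro A ⟨φ, hφ⟩ B ⟨ψ, hψ⟩
    obtain ⟨-, ⟨σ, hσ⟩⟩ := hFRM R φ ψ
    refine ⟨σ, fun x => ?_⟩
    rw [AddSubgroup.mem_sup, hσ]
    constructor
    · rintro ⟨y, hy, z, hz, h⟩
      exact ⟨y, z, h.symm, (hφ y).mp hy, (hψ z).mp hz⟩
    · rintro ⟨y, z, h, hy, hz⟩
      exact ⟨y, (hφ y).mpr hy, z, (hψ z).mpr hz, h.symm⟩
  · rintro A ⟨φ, hφ⟩ f x hx
    rw [hφ] at hx ⊢
    exact (hBAS R 1 φ M).2.2.2 M f (fun _ => x) hx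

end Pool.Agent.Work.MP_edf6ee_al.CP
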