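import Pool.Agent.Work.MP_edf6ee_al.CP.Stmts

set_option autoImplicit false

namespace Pool.Agent.Work.MP_edf6ee_al.CP

open scoped BigOperators

/-- linear substitution and projection for one formula -/
theorem CL2_sub (hNF : S_NF) (R : Type) [Ring R] (n k d : ℕ) (φ : PP R d)
    (A : Fin d → Fin n → R) (B : Fin d → Fin k → R) :
    ∃ ψ : PP R n, ∀ (M : Type) [AddCommGroup M] [Module R M] (x : Fin n → M),
      ψ.Sat M x ↔ ∃ y : Fin k → M,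
        φ.Sat M (fun j => ∑ i, A j i • x i + ∑ l, B j l • y l) := by
  obtain ⟨ψ, hψ⟩ := hNF R n k 1 (fun _ => d) (fun _ => φ) (fun _ => A) (fun _ => B)
  refine ⟨ψ, fun M _ _ x => ?_⟩
  rw [hψ M x]
  constructor
  · rintro ⟨y, hy⟩
    exact ⟨y, hy 0⟩
  · rintro ⟨y, hy⟩
    exact ⟨y, fun _ => hy⟩

/-- conjunction in `n` variables -/
theorem CL2_and (hNF : S_NF) (R : Type) [Ring R] (n : ℕ) (φ ψ : PP R n) :
    ∃ σ : PP R n, ∀ (M : Type) [AddCommGroup M] [Module R M] (x : Fin n → M),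
      σ.Sat M x ↔ φ.Sat M x ∧ ψ.Sat M x := by
  classical
  obtain ⟨σ, hσ⟩ := hNF R n 0 2 (fun _ => n) ![φ, ψ] (fun _ j i => if j = i then 1 else 0)
    (fun _ _ _ => 0)
  refine ⟨σ, fun M _ _ x => ?_⟩
  rw [hσ M x]
  have e1 : ∀ y : Fin 0 → M, (fun j => ∑ i, (if j = i then (1 : R) else 0) • x i
      + ∑ l, (0 : R) • y l) = x := by
    intro y
    funext j
    simp
  constructor
  · rintro ⟨y, hy⟩
    have h0 : φ.Sat M (fun j => ∑ i, (if j = i then (1 : R) else 0) • x i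
      + ∑ l, (0 : R) • y l) := hy 0
    have h1 : ψ.Sat M (fun j => ∑ i, (if j = i then (1 : R) else 0) • x i
      + ∑ l, (0 : R) • y l) := hy 1
    rw [e1] at h0 h1
    exact ⟨h0, h1⟩
  · rintro ⟨h0, h1⟩
    refine ⟨fun _ => 0, fun e => ?_⟩
    fin_cases e
    · show φ.Sat M (fun j => ∑ i, (if j = i then (1 : R) else 0) • x i
        + ∑ l : Fin 0, (0 : R) • (fun _ : Fin 0 => (0 : M)) l)
      rw [e1]
      exact h0
    · show ψ.Sat M (fun j => ∑ i, (if j = i then (1 : R) else 0) • x i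
        + ∑ l : Fin 0, (0 : R) • (fun _ : Fin 0 => (0 : M)) l)
      rw [e1]
      exact h1

theorem pr_CL2 (hNF : S_NF) (hSUB : S_SUB) (hCL1 : S_CL1) : S_CL2 := by
  intro R _ M _ _
  obtain ⟨hS1, hS2⟩ := hSUB R M
  -- the operations on formulas
  have dom : ∀ B ∈ D2 R M, ∃ A ∈ D1 R M, ∀ x, x ∈ A ↔ ∃ y, (x, y) ∈ B := by
    rintro B ⟨φ, hφ⟩
    obtain ⟨ψ, hψ⟩ := CL2_sub hNF R 1 1 2 φ ![![1], ![0]] ![![0], ![1]]
    obtain ⟨A, hA, hA'⟩ := hS1 ψ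
    refine ⟨A, hA, fun x => ?_⟩
    rw [hA', hψ]
    constructor
    · rintro ⟨y, hy⟩
      refine ⟨y 0, (hφ _ _).2 ?_⟩
      convert hy using 1
      funext j
      fin_cases j <;> simp
    · rintro ⟨y, hy⟩
      refine ⟨fun _ => y, ?_⟩
      convert (hφ _ _).1 hy using 1
      funext j
      fin_cases j <;> simp
  have swap : ∀ B ∈ D2 R M, ∃ B' ∈ D2 R M, ∀ x y, (x, y) ∈ B' ↔ (y, x) ∈ B := by
    rintro B ⟨φ, hφ⟩
    obtain ⟨ψ, hψ⟩ := CL2_sub hNF R 2 0 2 φ ![![0, 1], ![1, 0]] ![![], ![]]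
    obtain ⟨B', hB, hB'⟩ := hS2 ψ
    refine ⟨B', hB, fun x y => ?_⟩
    rw [hB', hψ, hφ]
    constructor
    · rintro ⟨z, hz⟩
      convert hz using 1
      funext j
      fin_cases j <;> simp [Fin.sum_univ_two]
    · intro hy
      refine ⟨fun _ => 0, ?_⟩
      convert hy using 1
      funext j
      fin_cases j <;> simp [Fin.sum_univ_two]
  have ker : ∀ B ∈ D2 R M, ∃ A ∈ D1 R M, ∀ x, x ∈ A ↔ (x, 0) ∈ B := by
    rintro B ⟨φ, hφ⟩
    obtain ⟨ψ, hψ⟩ := CL2_sub hNF R 1 0 2 φ ![![1], ![0]] ![![], ![]]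
    obtain ⟨A, hA, hA'⟩ := hS1 ψ
    refine ⟨A, hA, fun x => ?_⟩
    rw [hA', hψ, hφ]
    constructor
    · rintro ⟨z, hz⟩
      convert hz using 1
      funext j
      fin_cases j <;> simp
    · intro hy
      refine ⟨fun _ => 0, ?_⟩
      convert hy using 1
      funext j
      fin_cases j <;> simp
  have cut : ∀ B ∈ D2 R M, ∀ A ∈ D1 R M, ∀ A' ∈ D1 R M, ∃ B' ∈ D2 R M, ∀ x y,
      (x, y) ∈ B' ↔ (x, y) ∈ B ∧ x ∈ A ∧ y ∈ A' := by
    rintro B ⟨φ, hφ⟩ A ⟨α, hα⟩ A' ⟨β, hβ⟩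
    obtain ⟨α', hα'⟩ := CL2_sub hNF R 2 0 1 α ![![1, 0]] ![![]]
    obtain ⟨β', hβ'⟩ := CL2_sub hNF R 2 0 1 β ![![0, 1]] ![![]]
    obtain ⟨σ, hσ⟩ := CL2_and hNF R 2 α' β'
    obtain ⟨τ, hτ⟩ := CL2_and hNF R 2 φ σ
    obtain ⟨B', hB, hB'⟩ := hS2 τ
    refine ⟨B', hB, fun x y => ?_⟩
    have h1 : α'.Sat M ![x, y] ↔ x ∈ A := by
      rw [hα', hα]
      constructor
      · rintro ⟨z, hz⟩
        convert hz using 1
        funext j
        fin_cases j; simp [Fin.sum_univ_two]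
      · intro hy
        refine ⟨fun _ => 0, ?_⟩
        convert hy using 1
        funext j
        fin_cases j; simp [Fin.sum_univ_two]
    have h2 : β'.Sat M ![x, y] ↔ y ∈ A' := by
      rw [hβ', hβ]
      constructor
      · rintro ⟨z, hz⟩
        convert hz using 1
        funext j
        fin_cases j; simp [Fin.sum_univ_two]
      · intro hy
        refine ⟨fun _ => 0, ?_⟩
        convert hy using 1
        funext j
        fin_cases j; simp [Fin.sum_univ_two]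
    rw [hB', hτ, hσ, h1, h2, hφ]
  have gr : ∀ B ∈ D2 R M, ∀ r : R, ∃ A ∈ D1 R M, ∀ z, z ∈ A ↔ ∃ x y, (x, y) ∈ B ∧ z = x + r • y := by
    rintro B ⟨φ, hφ⟩ r
    obtain ⟨ψ, hψ⟩ := CL2_sub hNF R 1 1 2 φ ![![1], ![0]] ![![-r], ![1]]
    obtain ⟨A, hA, hA'⟩ := hS1 ψ
    refine ⟨A, hA, fun z => ?_⟩
    rw [hA', hψ]
    constructor
    · rintro ⟨y, hy⟩
      refine ⟨z - r • y 0, y 0, (hφ _ _).2 ?_, by abel⟩
      convert hy using 1
      funext j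
      fin_cases j <;> simp [sub_eq_add_neg]
    · rintro ⟨x, y, hy, rfl⟩
      refine ⟨fun _ => y, ?_⟩
      convert (hφ _ _).1 hy using 1
      funext j
      fin_cases j <;> simp
  obtain ⟨_, htop, -, -, -⟩ := hCL1 R M
  have rng : ∀ B ∈ D2 R M, ∃ A ∈ D1 R M, ∀ y, y ∈ A ↔ ∃ x, (x, y) ∈ B := by
    intro B hB
    obtain ⟨B', hB', h1⟩ := swap B hB
    obtain ⟨A, hA, h2⟩ := dom B' hB'
    refine ⟨A, hA, fun y => ?_⟩
    rw [h2]
    simp only [h1]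
  intro B hB
  refine ⟨dom B hB, rng B hB, ker B hB, ?_, swap B hB, cut B hB, ?_, ?_, gr B hB⟩
  · obtain ⟨B', hB', h1⟩ := swap B hB
    obtain ⟨A, hA, h2⟩ := ker B' hB'
    refine ⟨A, hA, fun y => ?_⟩
    rw [h2, h1]
  · intro A hA
    obtain ⟨B', hB', h1⟩ := cut B hB A hA ⊤ htop
    obtain ⟨A', hA', h2⟩ := rng B' hB'
    refine ⟨A', hA', fun y => ?_⟩
    rw [h2]
    constructor
    · rintro ⟨x, hx⟩
      have := (h1 _ _).1 hx
      exact ⟨x, this.2.1, this.1⟩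
    · rintro ⟨x, hx, hxy⟩
      exact ⟨x, (h1 _ _).2 ⟨hxy, hx, trivial⟩⟩
  · intro A hA
    obtain ⟨B', hB', h1⟩ := cut B hB ⊤ htop A hA
    obtain ⟨A', hA', h2⟩ := dom B' hB'
    refine ⟨A', hA', fun y => ?_⟩
    rw [h2]
    constructor
    · rintro ⟨x, hx⟩
      have := (h1 _ _).1 hx
      exact ⟨x, this.2.2, this.1⟩
    · rintro ⟨x, hx, hxy⟩
      exact ⟨x, (h1 _ _).2 ⟨hxy, trivial, hx⟩⟩

end Pool.Agent.Work.MP_edf6ee_al.CP
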