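import Pool.Agent.Work.MP_edf6ee_al.CP.Stmts

set_option autoImplicit false

namespace Pool.Agent.Work.MP_edf6ee_al.CP

open scoped BigOperators

/-- the inclusion of the rational circle into the real circle -/
noncomputable def DD_incl : AddCircle (1 : ℚ) →+ Circ :=
  QuotientAddGroup.map (AddSubgroup.zmultiples (1 : ℚ)) (AddSubgroup.zmultiples (1 : ℝ))
    (algebraMap ℚ ℝ).toAddMonoidHom (by
      intro r hr
      obtain ⟨k, rfl⟩ := AddSubgroup.mem_zmultiples_iff.1 hr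
      rw [AddSubgroup.mem_comap, AddSubgroup.mem_zmultiples_iff]
      exact ⟨k, by simp⟩)

theorem DD_incl_inj (x : AddCircle (1 : ℚ)) (h : DD_incl x = 0) : x = 0 := by
  obtain ⟨r, rfl⟩ := QuotientAddGroup.mk_surjective x
  have h1 : (QuotientAddGroup.mk ((r : ℚ) : ℝ) : ℝ ⧸ AddSubgroup.zmultiples (1 : ℝ)) = 0 := h
  rw [QuotientAddGroup.eq_zero_iff] at h1 ⊢
  obtain ⟨k, hk⟩ := AddSubgroup.mem_zmultiples_iff.1 h1
  refine AddSubgroup.mem_zmultiples_iff.2 ⟨k, ?_⟩
  have h2 : ((k : ℚ) : ℝ) = (r : ℝ) := by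
    rw [← hk]; simp
  have h3 : (k : ℚ) = r := by exact_mod_cast h2
  rw [← h3]; simp

/-- a character separating an element from zero -/
theorem DD_char (A : Type) [AddCommGroup A] (a : A) (ha : a ≠ 0) :
    ∃ c : A →+ Circ, c a ≠ 0 := by
  obtain ⟨c, hc⟩ := CharacterModule.exists_character_apply_ne_zero_of_ne_zero ha
  exact ⟨DD_incl.comp c, fun h => hc (DD_incl_inj _ h)⟩

theorem DD_sep {n : ℕ} (M : Type) [AddCommGroup M] (S : AddSubgroup (Fin n → M)) (x : Fin n → M)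
    (hx : x ∉ S) : ∃ χ : Fin n → (M →+ Circ), (∀ y ∈ S, ∑ i, χ i (y i) = 0) ∧
      ∑ i, χ i (x i) ≠ 0 := by
  classical
  obtain ⟨c, hc⟩ := DD_char ((Fin n → M) ⧸ S) (QuotientAddGroup.mk x) (by
    intro h
    exact hx ((QuotientAddGroup.eq_zero_iff x).1 h))
  have key : ∀ y : Fin n → M, ∑ i, (c.comp ((QuotientAddGroup.mk' S).comp
      (AddMonoidHom.single (fun _ : Fin n => M) i))) (y i) = c (QuotientAddGroup.mk y) := by
    intro y
    have h1 : y = ∑ i, Pi.single i (y i) := (Finset.univ_sum_single y).symm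
    conv_rhs => rw [h1]
    have h2 : (QuotientAddGroup.mk (∑ i, Pi.single i (y i)) : (Fin n → M) ⧸ S) =
        (QuotientAddGroup.mk' S) (∑ i, Pi.single i (y i)) := rfl
    rw [h2, map_sum, map_sum]
    rfl
  refine ⟨fun i => c.comp ((QuotientAddGroup.mk' S).comp
      (AddMonoidHom.single (fun _ : Fin n => M) i)), ?_, ?_⟩
  · intro y hy
    rw [key y, (QuotientAddGroup.eq_zero_iff y).2 hy, map_zero]
  · rw [key x]
    exact hc

theorem pr_DD (hDDSAT : S_DDSAT) (hBAS : S_BAS) : S_DD := by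
  intro R _ M _ _
  refine ⟨?_, ?_⟩
  · intro n φ ψ h z hz
    rw [hDDSAT] at hz ⊢
    intro χ hχ
    exact hz χ fun x hx => hχ x (h x hx)
  · intro n φ x hx
    by_contra hcon
    obtain ⟨h0, hadd, hneg, -⟩ := hBAS R n φ M
    let S : AddSubgroup (Fin n → M) :=
      { carrier := {y | φ.Sat M y}
        zero_mem' := h0
        add_mem' := fun {a b} ha hb => hadd a b ha hb
        neg_mem' := fun {a} ha => hneg a ha }
    obtain ⟨χ, hχ1, hχ2⟩ := DD_sep M S x hcon
    rw [hDDSAT] at hx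
    exact hχ2 (hx χ fun y hy => hχ1 y hy)

end Pool.Agent.Work.MP_edf6ee_al.CP
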