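import Pool.Agent.Work.MP_edf6ee_al.CP.Stmts

/-!
# DDAC: the double character module is algebraically compact
-/

set_option autoImplicit false

namespace Pool.Agent.Work.MP_edf6ee_al.CP

open scoped BigOperators

/-- evaluation at a character -/
noncomputable def DDAC_ev {M : Type} [AddCommGroup M] (χ : M →+ Circ) : DD M →+ Circ where
  toFun z := z.ev χ
  map_zero' := rfl
  map_add' _ _ := rfl

theorem DDAC_ext {M : Type} [AddCommGroup M] (z w : DD M) (h : ∀ χ, z.ev χ = w.ev χ) : z = w :=
  DFunLike.ext (F := (M →+ Circ) →+ Circ) _ _ h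

theorem DDAC_sum {R : Type} [Ring R] {M : Type} [AddCommGroup M] [Module R M] {I : Type}
    (row : I →₀ R) (x : I → DD M) (χ : M →+ Circ) :
    (row.sum fun i r => r • x i).ev χ = row.sum fun i r => (x i).ev (preMul R M r χ) := by
  show DDAC_ev χ (row.sum fun i r => r • x i) = _
  rw [map_finsuppSum]
  rfl

theorem pr_DDAC : S_DDAC := by
  intro R _ M _ _ I E row rhs hfin
  classical
  let s : Set (I × (M →+ Circ) → Circ) :=
    {t | ∀ i χ χ', t (i, χ + χ') = t (i, χ) + t (i, χ')}
  let C : E → Set (I × (M →+ Circ) → Circ) := fun e =>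
    {t | ∀ χ, ((row e).sum fun i r => t (i, preMul R M r χ)) = (rhs e).ev χ}
  have hs : IsClosed s := by
    simp only [s, Set.ofPred_forall]
    refine isClosed_iInter fun i => isClosed_iInter fun χ => isClosed_iInter fun χ' => ?_
    exact isClosed_eq (continuous_apply (i, χ + χ'))
      (Continuous.add (continuous_apply (i, χ)) (continuous_apply (i, χ')))
  have hC : ∀ e, IsClosed (C e) := by
    intro e
    simp only [C, Set.ofPred_forall]
    refine isClosed_iInter fun χ => ?_
    refine isClosed_eq ?_ continuous_const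
    unfold Finsupp.sum
    exact continuous_finsetSum _ fun i _ => continuous_apply _
  have hne : (s ∩ ⋂ e, C e).Nonempty := by
    refine (hs.isCompact).inter_iInter_nonempty C hC ?_
    intro u
    obtain ⟨x, hx⟩ := hfin u
    refine ⟨fun p => (x p.1).ev p.2, ?_, ?_⟩
    · intro i χ χ'
      exact map_add (show (M →+ Circ) →+ Circ from x i) χ χ'
    · simp only [Set.mem_iInter]
      intro e he χ
      show ((row e).sum fun i r => (x i).ev (preMul R M r χ)) = (rhs e).ev χ
      rw [← DDAC_sum, hx e he]
  obtain ⟨t, ht1, ht2⟩ := hne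
  have ht3 : ∀ e, t ∈ C e := Set.mem_iInter.1 ht2
  let x : I → DD M := fun i =>
    (show (M →+ Circ) →+ Circ from AddMonoidHom.mk' (fun χ => t (i, χ)) (fun χ χ' => ht1 i χ χ'))
  refine ⟨x, fun e => DDAC_ext _ _ fun χ => ?_⟩
  rw [DDAC_sum]
  exact ht3 e χ

end Pool.Agent.Work.MP_edf6ee_al.CP
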