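import Pool.Agent.Work.MP_edf6ee_al.CP.Stmts

/-!
# Item DDSAT: elementary duality for the double character module
-/

set_option autoImplicit false

namespace Pool.Agent.Work.MP_edf6ee_al.CP

open scoped BigOperators

/-- extension of additive maps into the circle -/
theorem DDSAT_ext {G H : Type} [AddCommGroup G] [AddCommGroup H] (α : G →+ H) (β : G →+ Circ)
    (h : ∀ g, α g = 0 → β g = 0) : ∃ γ : H →+ Circ, ∀ g, γ (α g) = β g := by
  have hle : α.ker ≤ β.ker := fun g hg => AddMonoidHom.mem_ker.2 (h g (AddMonoidHom.mem_ker.1 hg))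
  obtain ⟨γ, hγ⟩ := (Module.Baer.of_divisible Circ).extension_property_addMonoidHom
    (QuotientAddGroup.kerLift α) (QuotientAddGroup.kerLift_injective α)
    (QuotientAddGroup.lift α.ker β hle)
  refine ⟨γ, fun g => ?_⟩
  have h1 := DFunLike.congr_fun hγ (QuotientAddGroup.mk g)
  exact h1

section

variable {R : Type} [Ring R] {M : Type} [AddCommGroup M] [Module R M]

/-- an element of the double character group as an additive map -/
def DDSAT_hom (z : DD M) : (M →+ Circ) →+ Circ := z

/-- evaluation at a character, as an additive map -/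
def DDSAT_evH (χ : M →+ Circ) : DD M →+ Circ where
  toFun z := z.ev χ
  map_zero' := rfl
  map_add' _ _ := rfl

theorem DDSAT_sum_ev {ι : Type} (s : Finset ι) (z : ι → DD M) (χ : M →+ Circ) :
    (∑ i ∈ s, z i).ev χ = ∑ i ∈ s, (z i).ev χ := map_sum (DDSAT_evH χ) z s

theorem DDSAT_ev_sum {ι : Type} (s : Finset ι) (z : DD M) (χ : ι → (M →+ Circ)) :
    z.ev (∑ i ∈ s, χ i) = ∑ i ∈ s, z.ev (χ i) := map_sum (DDSAT_hom z) χ s

theorem DDSAT_ev_zero (z : DD M) : z.ev 0 = 0 := map_zero (DDSAT_hom z)

theorem DDSAT_ev_smul (r : R) (z : DD M) (χ : M →+ Circ) :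
    (r • z).ev χ = z.ev (preMul R M r χ) := rfl

theorem DDSAT_ev_add (z w : DD M) (χ : M →+ Circ) : (z + w).ev χ = z.ev χ + w.ev χ := rfl

theorem DDSAT_pre (r : R) (χ : M →+ Circ) (x : M) : preMul R M r χ x = χ (r • x) := rfl

theorem DDSAT_ev_ext (z w : DD M) (h : ∀ χ, z.ev χ = w.ev χ) : z = w :=
  DFunLike.ext (F := (M →+ Circ) →+ Circ) _ _ h

/-- the first direction -/
theorem DDSAT_mp {n : ℕ} (φ : PP R n) (z : Fin n → DD M) (h : φ.Sat (DD M) z)
    (χ : Fin n → (M →+ Circ)) (hχ : ∀ x : Fin n → M, φ.Sat M x → ∑ i, χ i (x i) = 0) :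
    ∑ i, (z i).ev (χ i) = 0 := by
  obtain ⟨y, hy⟩ := h
  let α : ((Fin n → M) × (Fin φ.k → M)) →+ (Fin φ.m → M) :=
    { toFun := fun p i => ∑ j, φ.C i j • p.1 j + ∑ l, φ.D i l • p.2 l
      map_zero' := by
        funext i
        simp
      map_add' := by
        intro p q
        funext i
        simp only [Prod.fst_add, Prod.snd_add, Pi.add_apply, smul_add, Finset.sum_add_distrib]
        abel }
  let β : ((Fin n → M) × (Fin φ.k → M)) →+ Circ :=
    { toFun := fun p => ∑ i, χ i (p.1 i)
      map_zero' := by simp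
      map_add' := by
        intro p q
        simp only [Prod.fst_add, Pi.add_apply, map_add, Finset.sum_add_distrib] }
  obtain ⟨γ, hγ⟩ := DDSAT_ext α β (by
    intro p hp
    exact hχ p.1 ⟨p.2, fun i => congrFun hp i⟩)
  let η : Fin φ.m → (M →+ Circ) := fun i => γ.comp (AddMonoidHom.single (fun _ => M) i)
  have hη : ∀ v : Fin φ.m → M, γ v = ∑ i, η i (v i) := by
    intro v
    conv_lhs => rw [← Finset.univ_sum_single v]
    rw [map_sum]
    rfl
  have hC : ∀ j, χ j = ∑ i, preMul R M (φ.C i j) (η i) := by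
    intro j
    ext x
    have h1 := hγ (Pi.single j x, 0)
    have h2 : β (Pi.single j x, 0) = χ j x := by
      show ∑ i, χ i ((Pi.single j x : Fin n → M) i) = χ j x
      rw [Finset.sum_eq_single j]
      · rw [Pi.single_eq_same]
      · intro i _ hi
        rw [Pi.single_eq_of_ne hi, map_zero]
      · intro h
        exact absurd (Finset.mem_univ _) h
    have h3 : α (Pi.single j x, 0) = fun i => φ.C i j • x := by
      funext i
      show ∑ j', φ.C i j' • (Pi.single j x : Fin n → M) j' + ∑ l, φ.D i l • (0 : M) = _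
      rw [Finset.sum_eq_single j]
      · rw [Pi.single_eq_same]
        simp
      · intro i _ hi
        rw [Pi.single_eq_of_ne hi, smul_zero]
      · intro h
        exact absurd (Finset.mem_univ _) h
    rw [h2, h3, hη] at h1
    rw [← h1, AddMonoidHom.finsetSum_apply]
    rfl
  have hD : ∀ l, ∑ i, preMul R M (φ.D i l) (η i) = 0 := by
    intro l
    ext x
    have h1 := hγ (0, Pi.single l x)
    have h2 : β (0, Pi.single l x) = 0 := by
      show ∑ i, χ i (0 : M) = 0
      simp
    have h3 : α (0, Pi.single l x) = fun i => φ.D i l • x := by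
      funext i
      show ∑ j', φ.C i j' • (0 : M) + ∑ l', φ.D i l' • (Pi.single l x : Fin φ.k → M) l' = _
      rw [Finset.sum_eq_single (M := M) (f := fun l' => φ.D i l' •
        (Pi.single l x : Fin φ.k → M) l') l]
      · rw [Pi.single_eq_same]
        simp
      · intro i _ hi
        rw [Pi.single_eq_of_ne hi, smul_zero]
      · intro h
        exact absurd (Finset.mem_univ _) h
    rw [h2, h3, hη] at h1
    rw [AddMonoidHom.finsetSum_apply]
    exact h1
  calc ∑ j, (z j).ev (χ j) = ∑ j, ∑ i, (z j).ev (preMul R M (φ.C i j) (η i)) := by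
        refine Finset.sum_congr rfl fun j _ => ?_
        rw [hC j, DDSAT_ev_sum]
    _ = ∑ i, (∑ j, φ.C i j • z j).ev (η i) := by
        rw [Finset.sum_comm]
        refine Finset.sum_congr rfl fun i _ => ?_
        rw [DDSAT_sum_ev]
        rfl
    _ = ∑ i, ((∑ j, φ.C i j • z j + ∑ l, φ.D i l • y l).ev (η i) -
          (∑ l, φ.D i l • y l).ev (η i)) := by
        refine Finset.sum_congr rfl fun i _ => ?_
        rw [DDSAT_ev_add, add_sub_cancel_right]
    _ = - ∑ i, (∑ l, φ.D i l • y l).ev (η i) := by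
        rw [← Finset.sum_neg_distrib]
        refine Finset.sum_congr rfl fun i _ => ?_
        rw [hy i]
        show (0 : Circ) - _ = _
        rw [zero_sub]
    _ = - ∑ l, (y l).ev (∑ i, preMul R M (φ.D i l) (η i)) := by
        congr 1
        simp only [DDSAT_sum_ev, DDSAT_ev_sum]
        rw [Finset.sum_comm]
        rfl
    _ = 0 := by
        rw [neg_eq_zero]
        refine Finset.sum_eq_zero fun l _ => ?_
        rw [hD l, DDSAT_ev_zero]

/-- the second direction -/
theorem DDSAT_mpr {n : ℕ} (φ : PP R n) (z : Fin n → DD M)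
    (h : ∀ χ : Fin n → (M →+ Circ), (∀ x : Fin n → M, φ.Sat M x → ∑ i, χ i (x i) = 0) →
      ∑ i, (z i).ev (χ i) = 0) : φ.Sat (DD M) z := by
  let δ : (Fin φ.m → (M →+ Circ)) →+ (Fin φ.k → (M →+ Circ)) :=
    { toFun := fun η l => ∑ i, preMul R M (φ.D i l) (η i)
      map_zero' := by
        funext l
        simp
      map_add' := by
        intro p q
        funext l
        simp only [Pi.add_apply, map_add, Finset.sum_add_distrib] }
  let w : (Fin φ.m → (M →+ Circ)) →+ Circ :=
    { toFun := fun η => ∑ j, DDSAT_hom (z j) (∑ i, preMul R M (φ.C i j) (η i))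
      map_zero' := by simp
      map_add' := by
        intro p q
        simp only [Pi.add_apply, map_add, Finset.sum_add_distrib] }
  obtain ⟨Y, hY⟩ := DDSAT_ext δ w (by
    intro η hη
    refine h (fun j => ∑ i, preMul R M (φ.C i j) (η i)) ?_
    rintro x ⟨y, hy⟩
    have hδ : ∀ l, ∑ i, preMul R M (φ.D i l) (η i) = 0 := fun l => congrFun hη l
    calc ∑ j, (∑ i, preMul R M (φ.C i j) (η i)) (x j)
        = ∑ j, ∑ i, η i (φ.C i j • x j) := by
          refine Finset.sum_congr rfl fun j _ => ?_
          rw [AddMonoidHom.finsetSum_apply]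
          rfl
      _ = ∑ i, η i (∑ j, φ.C i j • x j) := by
          rw [Finset.sum_comm]
          refine Finset.sum_congr rfl fun i _ => ?_
          rw [map_sum]
      _ = ∑ i, - η i (∑ l, φ.D i l • y l) := by
          refine Finset.sum_congr rfl fun i _ => ?_
          rw [← map_neg]
          congr 1
          exact eq_neg_of_add_eq_zero_left (hy i)
      _ = - ∑ l, (∑ i, preMul R M (φ.D i l) (η i)) (y l) := by
          rw [Finset.sum_neg_distrib]
          congr 1
          simp only [AddMonoidHom.finsetSum_apply, map_sum]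
          rw [Finset.sum_comm]
          rfl
      _ = 0 := by
          rw [neg_eq_zero]
          refine Finset.sum_eq_zero fun l _ => ?_
          rw [hδ l]
          rfl)
  let y : Fin φ.k → DD M := fun l =>
    (show (M →+ Circ) →+ Circ from -(Y.comp (AddMonoidHom.single (fun _ => M →+ Circ) l)))
  have hy : ∀ l (χ : M →+ Circ), (y l).ev χ = - Y (Pi.single l χ) := fun l χ => rfl
  refine ⟨y, fun i => DDSAT_ev_ext _ _ fun χ => ?_⟩
  have h1 := hY (Pi.single i χ)
  have h2 : δ (Pi.single i χ) = fun l => preMul R M (φ.D i l) χ := by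
    funext l
    show ∑ i', preMul R M (φ.D i' l) ((Pi.single i χ : Fin φ.m → (M →+ Circ)) i') = _
    rw [Finset.sum_eq_single i]
    · rw [Pi.single_eq_same]
    · intro i' _ hi
      rw [Pi.single_eq_of_ne hi, map_zero]
    · intro h
      exact absurd (Finset.mem_univ _) h
  have h3 : w (Pi.single i χ) = ∑ j, (z j).ev (preMul R M (φ.C i j) χ) := by
    show ∑ j, DDSAT_hom (z j) (∑ i', preMul R M (φ.C i' j)
      ((Pi.single i χ : Fin φ.m → (M →+ Circ)) i')) = _
    refine Finset.sum_congr rfl fun j _ => ?_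
    rw [Finset.sum_eq_single i]
    · rw [Pi.single_eq_same]
      rfl
    · intro i' _ hi
      rw [Pi.single_eq_of_ne hi, map_zero]
    · intro h
      exact absurd (Finset.mem_univ _) h
  have h4 : Y (fun l => preMul R M (φ.D i l) χ) =
      ∑ l, Y (Pi.single l (preMul R M (φ.D i l) χ)) := by
    conv_lhs => rw [← Finset.univ_sum_single (fun l => preMul R M (φ.D i l) χ)]
    rw [map_sum]
  rw [h2, h3, h4] at h1
  rw [DDSAT_ev_add, DDSAT_sum_ev, DDSAT_sum_ev]
  simp only [DDSAT_ev_smul, hy, Finset.sum_neg_distrib]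
  rw [← h1, add_neg_cancel]
  rfl

end

theorem pr_DDSAT : S_DDSAT := fun _ _ _ _ _ _ φ z =>
  ⟨fun h χ hχ => DDSAT_mp φ z h χ hχ, fun h => DDSAT_mpr φ z h⟩

end Pool.Agent.Work.MP_edf6ee_al.CP
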