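import Pool.Agent.Work.MP_edf6ee_al.CP.Stmts

/-!
# MP_edf6ee_al, item F0: a minimal pair forces finite length
-/

set_option autoImplicit false

namespace Pool.Agent.Work.MP_edf6ee_al.CP

theorem pr_F0 (hMAX : S_MAX) (hSL : S_SL) (hFD : S_FD) (hFU : S_FU) (hCL1 : S_CL1) : S_F0 := by
  intro R _ N _ _ hg η hη ξ hξ hmin
  by_contra hfin
  obtain ⟨hbot, htop, hinf, hsup, -⟩ := hCL1 R N
  have hp0 : TS R N {⊤} := by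
    refine ⟨?_, rfl, ?_, ?_⟩
    · rintro A rfl; exact htop
    · rintro A rfl B _ hAB; exact top_le_iff.mp hAB
    · rintro A rfl B rfl; exact inf_top_eq _
  obtain ⟨p, hTS, hIrr, -, hΩ, hmax⟩ := hMAX R N {⊤} {A | A ∈ D1 R N ∧ FinL R N A} hp0
    (fun A hA => hA.1) ⟨⊥, hbot, FinL.bot⟩
    (fun α hα β hβ => ⟨α ⊔ β, ⟨hsup α hα.1 β hβ.1, hFU R N α hα.2 β hβ.2⟩, le_rfl⟩)
    (by
      rintro ω ⟨-, hω⟩ hω0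
      have h1 : ω = ⊤ := hω0
      rw [h1] at hω
      exact hfin hω)
  have hbp : ⊥ ∉ p := hΩ ⊥ ⟨hbot, FinL.bot⟩
  obtain ⟨a, ha⟩ := hg.real p hTS hIrr hbp
  have ha0 : a ≠ 0 := by
    rintro rfl
    exact hbp ((ha ⊥ hbot).mpr (zero_mem _))
  obtain ⟨ψ, hψ, φ1, hφ1, haψ, haφ, hlt, hMP⟩ := hSL R N hg η hη ξ hξ hmin a ha0
  obtain ⟨φ2, hφ2, ω, hω, hle⟩ := hmax ψ hψ (fun h => haψ ((ha ψ hψ).mp h))
  have hφ2D := hTS.sub hφ2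
  have hF2 : FinL R N (φ2 ⊓ ψ) := hFD R N ω hω.2 _ (hinf φ2 hφ2D ψ hψ) hle
  have hφp : φ1 ⊓ φ2 ∈ p := hTS.inf φ1 ((ha φ1 hφ1).mpr haφ) φ2 hφ2
  have hφD : φ1 ⊓ φ2 ∈ D1 R N := hTS.sub hφp
  have haφ' : a ∈ φ1 ⊓ φ2 := (ha _ hφD).mp hφp
  have hφψD : (φ1 ⊓ φ2) ⊓ ψ ∈ D1 R N := hinf _ hφD ψ hψ
  have hF3 : FinL R N ((φ1 ⊓ φ2) ⊓ ψ) :=
    hFD R N _ hF2 _ hφψD (inf_le_inf_right _ inf_le_right)
  refine hΩ (φ1 ⊓ φ2) ⟨hφD, FinL.step _ _ hφψD hφD hF3 (Or.inr ⟨?_, ?_⟩)⟩ hφp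
  · refine lt_of_le_of_ne inf_le_left fun h => haψ ?_
    have h1 : φ1 ⊓ φ2 ≤ ψ := inf_eq_left.mp h
    exact h1 haφ'
  · intro ζ hζ h1 h2
    have h3 : ζ ≤ φ1 := h2.trans inf_le_left
    rcases hMP (ζ ⊔ ψ) (hsup ζ hζ ψ hψ) le_sup_right (sup_le h3 hlt.le) with h4 | h4
    · left
      exact le_antisymm (le_inf h2 (le_sup_left.trans h4.le)) h1
    · right
      have h5 : φ1 ⊓ φ2 = (ζ ⊔ ψ) ⊓ (φ1 ⊓ φ2) := by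
        rw [h4]
        exact (inf_eq_right.mpr inf_le_left).symm
      rw [sup_inf_assoc_of_le ψ h2, inf_comm ψ] at h5
      rw [h5]
      exact (sup_eq_left.mpr h1).symm

end Pool.Agent.Work.MP_edf6ee_al.CP
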