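import Pool.Agent.Work.MP_edf6ee_al.CP.Stmts

/-!
# `FinL` is downward closed
-/

set_option autoImplicit false

namespace Pool.Agent.Work.MP_edf6ee_al.CP

theorem pr_FD (hCL1 : S_CL1) : S_FD := by
  intro R _ N _ _ φ hφ
  obtain ⟨hbot, htop, hinf, hsup, -⟩ := hCL1 R N
  induction hφ with
  | bot =>
    intro ψ _ hle
    rw [le_bot_iff.1 hle]
    exact FinL.bot
  | step ψ0 φ h0 h1 hF hm ih =>
    intro χ hχ hle
    have hF' : FinL R N (χ ⊓ ψ0) := ih _ (hinf _ hχ _ h0) inf_le_right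
    refine FinL.step (χ ⊓ ψ0) χ (hinf _ hχ _ h0) hχ hF' ?_
    by_cases h : χ ⊓ ψ0 = χ
    · exact Or.inl h
    right
    have hn : ¬ χ ≤ ψ0 := fun hh => h (inf_eq_left.2 hh)
    rcases hm with hm | hm
    · exact absurd (hm ▸ hle) hn
    refine ⟨lt_of_le_of_ne inf_le_left h, fun ξ hξ h2 h3 => ?_⟩
    rcases hm.2 (ξ ⊔ ψ0) (hsup _ hξ _ h0) le_sup_right (sup_le (h3.trans hle) hm.1.le) with
      h4 | h4
    · left
      exact le_antisymm (le_inf h3 (h4 ▸ le_sup_left)) h2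
    · right
      refine le_antisymm h3 ?_
      have h5 : (ξ ⊔ ψ0) ⊓ χ = ξ ⊔ ψ0 ⊓ χ := sup_inf_assoc_of_le ψ0 h3
      rw [h4, inf_eq_right.2 hle] at h5
      rw [h5]
      refine sup_le le_rfl ?_
      rw [inf_comm]
      exact h2

end Pool.Agent.Work.MP_edf6ee_al.CP
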