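import Pool.Agent.Work.MP_edf6ee_al.CP.Stmts

/-!
# MP_edf6ee_al, item FL (helper31)
-/

set_option autoImplicit false

namespace Pool.Agent.Work.MP_edf6ee_al.CP

/-- an endo-stable subgroup as a submodule over the endomorphism ring -/
def FL_sub {R N : Type} [Ring R] [AddCommGroup N] [Module R N] (φ : AddSubgroup N)
    (h : ∀ f : Module.End R N, ∀ x ∈ φ, f x ∈ φ) : Submodule (Module.End R N) N :=
  { carrier := φ
    add_mem' := fun {_ _} ha hb => φ.add_mem ha hb
    zero_mem' := φ.zero_mem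
    smul_mem' := fun f x hx => h f x hx }

theorem FL_mem {R N : Type} [Ring R] [AddCommGroup N] [Module R N] (φ : AddSubgroup N)
    (h : ∀ f : Module.End R N, ∀ x ∈ φ, f x ∈ φ) (x : N) : x ∈ FL_sub φ h ↔ x ∈ φ := Iff.rfl

theorem FL_move (hGEXT : S_GEXT) (hCL1 : S_CL1) (hNF : S_NF) (hSUB : S_SUB)
    (R N : Type) [Ring R] [AddCommGroup N] [Module R N] (hAC : AC R N)
    (ψ φ : AddSubgroup N) (hψ : ψ ∈ D1 R N) (hφ : φ ∈ D1 R N) (hmin : MinPair R N ψ φ)
    (a c : N) (ha : a ∈ φ) (haψ : a ∉ ψ) (hc : c ∈ φ) :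
    ∃ f : Module.End R N, f a - c ∈ ψ := by
  obtain ⟨-, -, hinf, hsup, -⟩ := hCL1 R N
  obtain ⟨θ, hθ⟩ := hψ
  obtain ⟨Ψ, hΨ⟩ := hNF R (1 + 1) 0 1 (fun _ => 1) (fun _ => θ)
    (fun _ _ i => if i = 0 then 1 else -1) (fun _ _ l => l.elim0)
  have hΨ' : ∀ x y : N, Ψ.Sat N (Fin.append (fun _ : Fin 1 => x) (fun _ : Fin 1 => y))
      ↔ x - y ∈ ψ := by
    intro x y
    rw [hΨ, hθ]
    have h2 : (Fin.append (fun _ : Fin 1 => x) (fun _ : Fin 1 => y) (0 : Fin (1 + 1))) = x := rfl
    have h3 : (Fin.append (fun _ : Fin 1 => x) (fun _ : Fin 1 => y) (1 : Fin (1 + 1))) = y := rfl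
    have key : ∀ z : Fin 0 → N, (fun _ : Fin 1 => ∑ i : Fin (1 + 1),
        (if i = 0 then (1 : R) else -1) • Fin.append (fun _ : Fin 1 => x) (fun _ : Fin 1 => y) i
        + ∑ l : Fin 0, (l.elim0 : R) • z l) = fun _ => x - y := by
      intro z
      funext _
      rw [Fin.sum_univ_two, Finset.univ_eq_empty, Finset.sum_empty, add_zero, h2, h3, if_pos rfl,
        if_neg (by decide), one_smul, neg_one_smul, ← sub_eq_add_neg]
    constructor
    · rintro ⟨z, hz⟩
      have := hz 0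
      rw [key z] at this
      exact this
    · intro h
      refine ⟨fun l => l.elim0, fun _ => ?_⟩
      rw [key]
      exact h
  obtain ⟨f, hf⟩ := hGEXT R N N hAC 1 1 (fun _ => a) Ψ (fun _ => c) (by
    intro φ' hφ'
    obtain ⟨A', hA', hA'x⟩ := (hSUB R N).1 φ'
    have h1 : ψ ⊔ (A' ⊓ φ) ∈ D1 R N := hsup ψ ⟨θ, hθ⟩ _ (hinf _ hA' _ hφ)
    have haA : a ∈ A' := (hA'x a).2 hφ'
    have haS : a ∈ ψ ⊔ (A' ⊓ φ) := (le_sup_right : A' ⊓ φ ≤ ψ ⊔ (A' ⊓ φ)) ⟨haA, ha⟩
    rcases hmin.2 _ h1 le_sup_left (sup_le hmin.1.le inf_le_right) with h2 | h2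
    · rw [h2] at haS
      exact absurd haS haψ
    · rw [← h2] at hc
      obtain ⟨s, hs, a', ha', hsum⟩ := AddSubgroup.mem_sup.1 hc
      refine ⟨fun _ => a', (hA'x a').1 ha'.1, (hΨ' a' c).2 ?_⟩
      have h3 : a' - c = -s := by rw [← hsum]; abel
      rw [h3]
      exact ψ.neg_mem hs)
  exact ⟨f, (hΨ' (f a) c).1 hf⟩

theorem pr_FL (hGEXT : S_GEXT) (hCL1 : S_CL1) (hNF : S_NF) (hSUB : S_SUB) : S_FL := by
  intro R _ N _ _ hAC hfin
  obtain ⟨-, htop, -, -, hend⟩ := hCL1 R N
  have key : ∀ φ : AddSubgroup N, FinL R N φ → ∀ h : φ ∈ D1 R N,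
      IsFiniteLength (Module.End R N) (FL_sub φ (hend φ h)) := by
    intro φ hφ
    induction hφ with
    | bot =>
      intro h
      have : Subsingleton (FL_sub (⊥ : AddSubgroup N) (hend ⊥ h)) :=
        ⟨fun x y => Subtype.ext (by
          have hx : (x : N) = 0 := (AddSubgroup.mem_bot).1 x.2
          have hy : (y : N) = 0 := (AddSubgroup.mem_bot).1 y.2
          rw [hx, hy])⟩
      exact IsFiniteLength.of_subsingleton
    | step ψ φ hψ hφ _ hstep ih =>
      intro h
      rcases hstep with rfl | hmin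
      · exact ih h
      · have hle : FL_sub ψ (hend ψ hψ) ≤ FL_sub φ (hend φ h) := fun x hx => hmin.1.le hx
        have h1 : IsFiniteLength (Module.End R N)
            ((FL_sub ψ (hend ψ hψ)).submoduleOf (FL_sub φ (hend φ h))) :=
          LinearEquiv.isFiniteLength (R := Module.End R N) (M := FL_sub ψ (hend ψ hψ))
            (N := (FL_sub ψ (hend ψ hψ)).submoduleOf (FL_sub φ (hend φ h)))
            (Submodule.submoduleOfEquivOfLe hle).symm (ih hψ)
        have hsimple : IsSimpleModule (Module.End R N) ((FL_sub φ (hend φ h)) ⧸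
            (FL_sub ψ (hend ψ hψ)).submoduleOf (FL_sub φ (hend φ h))) := by
          rw [isSimpleModule_iff_isCoatom]
          constructor
          · intro htop'
            obtain ⟨x, hxφ, hxψ⟩ := SetLike.exists_of_lt hmin.1
            have h2 : (⟨x, hxφ⟩ : FL_sub φ (hend φ h)) ∈
                (FL_sub ψ (hend ψ hψ)).submoduleOf (FL_sub φ (hend φ h)) := by
              rw [htop']; exact Submodule.mem_top
            exact hxψ h2
          · intro T hT
            obtain ⟨a, haT, haψ⟩ := SetLike.exists_of_lt hT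
            rw [eq_top_iff]
            intro c _
            obtain ⟨f, hf⟩ := FL_move hGEXT hCL1 hNF hSUB R N hAC ψ φ hψ hφ hmin a c a.2
              (fun h' => haψ h') c.2
            have h3 : f • a - c ∈ T := hT.le hf
            have h4 : c = f • a - (f • a - c) := by abel
            rw [h4]
            exact T.sub_mem (T.smul_mem f haT) h3
        exact IsFiniteLength.of_simple_quotient h1
  have h1 := key ⊤ hfin htop
  have h2 : FL_sub (⊤ : AddSubgroup N) (hend ⊤ htop) = ⊤ := by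
    rw [eq_top_iff]
    intro x _
    exact AddSubgroup.mem_top x
  exact ((LinearEquiv.ofEq _ _ h2).trans Submodule.topEquiv).isFiniteLength h1

end Pool.Agent.Work.MP_edf6ee_al.CP
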