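import Pool.Agent.Work.MP_edf6ee_al.CP.Stmts

set_option autoImplicit false

namespace Pool.Agent.Work.MP_edf6ee_al.CP

open scoped BigOperators

theorem pr_FRM (hNF : S_NF) : S_FRM := by
  intro R _ φ ψ
  constructor
  · obtain ⟨σ, hσ⟩ := hNF R 1 0 2 (fun _ => 1) ![φ, ψ] (fun _ _ _ => 1) (fun _ _ _ => 0)
    refine ⟨σ, fun M _ _ x => ?_⟩
    rw [hσ M (fun _ => x)]
    constructor
    · rintro ⟨y, hy⟩
      have h0 := hy 0
      have h1 := hy 1
      simp only [Matrix.cons_val_zero, Matrix.cons_val_one, Finset.univ_unique, one_smul,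
        Finset.sum_const, Finset.card_singleton, Finset.univ_eq_empty, Finset.sum_empty,
        add_zero] at h0 h1
      exact ⟨h0, h1⟩
    · rintro ⟨h0, h1⟩
      refine ⟨fun _ => 0, fun e => ?_⟩
      have e1 : (fun _ : Fin 1 => ∑ _i : Fin 1, (1 : R) • x + ∑ _l : Fin 0, (0 : R) • (0 : M))
          = fun _ => x := by
        funext j
        simp
      fin_cases e
      · show φ.Sat M (fun _ : Fin 1 => ∑ _i : Fin 1, (1 : R) • x + ∑ _l : Fin 0, (0 : R) • (0 : M))
        rw [e1]
        exact h0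
      · show ψ.Sat M (fun _ : Fin 1 => ∑ _i : Fin 1, (1 : R) • x + ∑ _l : Fin 0, (0 : R) • (0 : M))
        rw [e1]
        exact h1
  · let Z : PP R 1 := ⟨1, 0, fun _ _ => 1, fun _ l => Fin.elim0 l⟩
    have hZ : ∀ (M : Type) [AddCommGroup M] [Module R M] (x : M),
        Z.Sat M (fun _ => x) ↔ x = 0 := by
      intro M _ _ x
      constructor
      · rintro ⟨y, hy⟩
        have h := hy 0
        simpa [Z] using h
      · rintro rfl
        exact ⟨fun _ => 0, fun i => by simp [Z]⟩
    obtain ⟨σ, hσ⟩ := hNF R 1 2 3 (fun _ => 1) ![φ, ψ, Z] (fun e _ _ => ![0, 0, 1] e)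
      (fun e _ l => (![![1, 0], ![0, 1], ![-1, -1]] e : Fin 2 → R) l)
    refine ⟨σ, fun M _ _ x => ?_⟩
    rw [hσ M (fun _ => x)]
    constructor
    · rintro ⟨y, hy⟩
      have h0 : φ.Sat M (fun _ => y 0) := by
        have := hy 0
        simpa [Fin.sum_univ_two] using this
      have h1 : ψ.Sat M (fun _ => y 1) := by
        have := hy 1
        simpa [Fin.sum_univ_two] using this
      have h2 : Z.Sat M (fun _ => x - y 0 - y 1) := by
        have := hy 2
        have e1 : (fun _ : Fin 1 => ∑ _i : Fin 1, (1 : R) • x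
            + ∑ l : Fin 2, (![-1, -1] : Fin 2 → R) l • y l) = fun _ => x - y 0 - y 1 := by
          funext j
          simp [Fin.sum_univ_two, sub_eq_add_neg, add_assoc]
        rw [← e1]
        exact this
      rw [hZ] at h2
      refine ⟨y 0, y 1, ?_, h0, h1⟩
      rw [sub_sub, sub_eq_zero] at h2
      exact h2
    · rintro ⟨x₁, x₂, rfl, h1, h2⟩
      refine ⟨![x₁, x₂], fun e => ?_⟩
      fin_cases e
      · simpa [Fin.sum_univ_two] using h1
      · simpa [Fin.sum_univ_two] using h2
      · have e1 : (fun _ : Fin 1 => ∑ _i : Fin 1, (1 : R) • (x₁ + x₂)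
            + ∑ l : Fin 2, (![-1, -1] : Fin 2 → R) l • (![x₁, x₂] : Fin 2 → M) l)
              = fun _ => (0 : M) := by
          funext j
          simp only [Finset.univ_unique, one_smul, Finset.sum_const, Finset.card_singleton,
            Fin.sum_univ_two, Matrix.cons_val_zero, Matrix.cons_val_one, neg_smul]
          abel
        show Z.Sat M (fun _ : Fin 1 => ∑ _i : Fin 1, (1 : R) • (x₁ + x₂)
            + ∑ l : Fin 2, (![-1, -1] : Fin 2 → R) l • (![x₁, x₂] : Fin 2 → M) l)
        rw [e1]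
        exact (hZ M 0).2 rfl

end Pool.Agent.Work.MP_edf6ee_al.CP
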