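import Pool.Agent.Work.MP_edf6ee_al.CP.Stmts

/-!
# Item FS: finitely many linear relations give a pp formula
-/

set_option autoImplicit false

namespace Pool.Agent.Work.MP_edf6ee_al.CP

open scoped BigOperators

theorem FS_sum {R M M' : Type} [Ring R] [AddCommGroup M'] [Module R M']
    (c : Finset M) (w : M →₀ R) (hw : w.support ⊆ c) (x : M → M') :
    (w.sum fun m r => r • x m) = ∑ l : {m // m ∈ c}, w l.1 • x l.1 := by
  rw [Finsupp.sum, Finset.sum_subset hw (f := fun m => w m • x m) fun m _ hm => by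
    rw [Finsupp.notMem_support_iff.mp hm, zero_smul]]
  exact (Finset.sum_coe_sort c fun m => w m • x m).symm

theorem pr_FS (hFT : S_FT) : S_FS := by
  classical
  intro R _ M _ _ n a S hS
  obtain ⟨c, hc⟩ : ∃ c : Finset M, c = (S.biUnion fun w => w.support) ∪ Finset.univ.image a :=
    ⟨_, rfl⟩
  have hca : ∀ i, a i ∈ c := fun i => by
    rw [hc]
    exact Finset.mem_union_right _ (Finset.mem_image_of_mem a (Finset.mem_univ i))
  have hcw : ∀ w ∈ S, w.support ⊆ c := fun w hw => by
    rw [hc]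
    exact (Finset.subset_biUnion_of_mem (fun w : M →₀ R => w.support) hw).trans
      Finset.subset_union_left
  obtain ⟨φ, hφ⟩ := hFT R n ({w // w ∈ S} ⊕ Fin n) {m // m ∈ c}
    (Sum.elim (fun _ _ => 0) fun i j => if j = i then 1 else 0)
    (Sum.elim (fun w m => w.1 m.1) fun i m => if m.1 = a i then -1 else 0)
  have key : ∀ (M' : Type) [AddCommGroup M'] [Module R M'] (x : Fin n → M')
      (y : {m // m ∈ c} → M') (i : Fin n),
      (∑ j, (Sum.elim (fun _ _ => 0) fun i j => if j = i then 1 else 0 :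
        {w // w ∈ S} ⊕ Fin n → Fin n → R) (Sum.inr i) j • x j +
      ∑ l : {m // m ∈ c}, (Sum.elim (fun w m => w.1 m.1) fun i m => if m.1 = a i then -1 else 0 :
        {w // w ∈ S} ⊕ Fin n → {m // m ∈ c} → R) (Sum.inr i) l • y l) =
        x i - y ⟨a i, hca i⟩ := by
    intro M' _ _ x y i
    simp only [Sum.elim_inr, ite_smul, one_smul, zero_smul, Finset.sum_ite_eq',
      Finset.mem_univ, if_true, neg_smul]
    rw [Finset.sum_eq_single ⟨a i, hca i⟩]
    · simp [sub_eq_add_neg]
    · rintro ⟨m, hm⟩ _ hne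
      rw [if_neg]
      rintro rfl
      exact hne rfl
    · intro h
      exact absurd (Finset.mem_univ _) h
  refine ⟨φ, ?_, ?_⟩
  · rw [hφ]
    refine ⟨fun m => m.1, ?_⟩
    rintro (w | i)
    · simp only [Sum.elim_inl, zero_smul, Finset.sum_const_zero, zero_add]
      rw [← FS_sum c w.1 (hcw w.1 w.2) fun m => m]
      exact hS w.1 w.2
    · rw [key M a (fun m => m.1) i]
      exact sub_self _
  · intro M' _ _ a' h
    rw [hφ] at h
    obtain ⟨y, hy⟩ := h
    refine ⟨fun m => if h : m ∈ c then y ⟨m, h⟩ else 0, fun i => ?_, fun w hw => ?_⟩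
    · have h2 := hy (Sum.inr i)
      rw [key M' a' y i] at h2
      simp only [dif_pos (hca i)]
      exact (sub_eq_zero.mp h2).symm
    · have h2 := hy (Sum.inl ⟨w, hw⟩)
      simp only [Sum.elim_inl, zero_smul, Finset.sum_const_zero, zero_add] at h2
      rw [FS_sum c w (hcw w hw)]
      rw [← h2]
      refine Finset.sum_congr rfl fun l _ => ?_
      rw [dif_pos l.2]

end Pool.Agent.Work.MP_edf6ee_al.CP
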