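import Pool.Agent.Work.MP_edf6ee_al.CP.Stmts

set_option autoImplicit false

namespace Pool.Agent.Work.MP_edf6ee_al.CP

open scoped BigOperators

theorem pr_FT : S_FT := by
  intro R _ n ι κ _ _ C D
  let i : ι ≃ Fin (Fintype.card ι) := Fintype.equivFin ι
  let k : κ ≃ Fin (Fintype.card κ) := Fintype.equivFin κ
  refine ⟨⟨Fintype.card ι, Fintype.card κ, fun a => C (i.symm a),
    fun a b => D (i.symm a) (k.symm b)⟩, ?_⟩
  intro M _ _ x
  constructor
  · rintro ⟨y, hy⟩
    refine ⟨fun l => y (k l), fun a => ?_⟩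
    have h := hy (i a)
    simp only [Equiv.symm_apply_apply] at h
    rw [← h]
    congr 1
    refine Fintype.sum_equiv k _ _ fun l => ?_
    simp
  · rintro ⟨y, hy⟩
    refine ⟨fun l => y (k.symm l), fun a => ?_⟩
    have h := hy (i.symm a)
    show ∑ j, C (i.symm a) j • x j + ∑ l, D (i.symm a) (k.symm l) • y (k.symm l) = 0
    rw [← h]
    congr 1
    refine Fintype.sum_equiv k.symm _ _ fun l => ?_
    rfl

end Pool.Agent.Work.MP_edf6ee_al.CP
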