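import Pool.Agent.Work.MP_edf6ee_al.CP.Stmts

/-!
# Item GEXT: homomorphisms into algebraically compact modules with a pp condition
-/

set_option autoImplicit false

namespace Pool.Agent.Work.MP_edf6ee_al.CP

open scoped BigOperators

/-- the rows of the system -/
noncomputable def GEXT_row {R : Type} [Ring R] {M : Type} [AddCommGroup M] [Module R M] {n l : ℕ}
    (a : Fin n → M) (ψ : PP R (n + l)) :
    ({w : M →₀ R // (w.sum fun m r => r • m) = 0} ⊕ Fin ψ.m) → ((M ⊕ Fin ψ.k) →₀ R)
  | Sum.inl w => w.1.mapDomain Sum.inl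
  | Sum.inr i => ∑ j : Fin n, Finsupp.single (Sum.inl (a j)) (ψ.C i (Fin.castAdd l j)) +
      ∑ l', Finsupp.single (Sum.inr l') (ψ.D i l')

/-- the right hand sides of the system -/
noncomputable def GEXT_rhs {R : Type} [Ring R] {M M' : Type} [AddCommGroup M] [Module R M]
    [AddCommGroup M'] [Module R M'] {n l : ℕ} (ψ : PP R (n + l)) (c : Fin l → M') :
    ({w : M →₀ R // (w.sum fun m r => r • m) = 0} ⊕ Fin ψ.m) → M'
  | Sum.inl _ => 0
  | Sum.inr i => - ∑ j : Fin l, ψ.C i (Fin.natAdd n j) • c j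

theorem GEXT_ev_inl {R : Type} [Ring R] {M M' : Type} [AddCommGroup M] [Module R M]
    [AddCommGroup M'] [Module R M'] {n l : ℕ} (a : Fin n → M) (ψ : PP R (n + l))
    (x : M ⊕ Fin ψ.k → M') (w : {w : M →₀ R // (w.sum fun m r => r • m) = 0}) :
    ((GEXT_row a ψ (Sum.inl w)).sum fun i r => r • x i) =
      w.1.sum fun m r => r • x (Sum.inl m) := by
  have h1 := Finsupp.linearCombination_mapDomain (v' := x) R (Sum.inl : M → M ⊕ Fin ψ.k) w.1
  rw [Finsupp.linearCombination_apply, Finsupp.linearCombination_apply] at h1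
  exact h1

theorem GEXT_ev_inr {R : Type} [Ring R] {M M' : Type} [AddCommGroup M] [Module R M]
    [AddCommGroup M'] [Module R M'] {n l : ℕ} (a : Fin n → M) (ψ : PP R (n + l))
    (x : M ⊕ Fin ψ.k → M') (i : Fin ψ.m) :
    ((GEXT_row a ψ (Sum.inr i)).sum fun i r => r • x i) =
      ∑ j : Fin n, ψ.C i (Fin.castAdd l j) • x (Sum.inl (a j)) +
        ∑ l', ψ.D i l' • x (Sum.inr l') := by
  rw [← Finsupp.linearCombination_apply]
  show Finsupp.linearCombination R x
    (∑ j : Fin n, Finsupp.single (Sum.inl (a j)) (ψ.C i (Fin.castAdd l j)) +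
      ∑ l', Finsupp.single (Sum.inr l') (ψ.D i l')) = _
  rw [map_add, map_sum, map_sum]
  simp only [Finsupp.linearCombination_single]

theorem GEXT_lin {R : Type} [Ring R] {M M' : Type} [AddCommGroup M] [Module R M]
    [AddCommGroup M'] [Module R M'] (x : M → M')
    (h : ∀ w : M →₀ R, (w.sum fun m r => r • m) = 0 → (w.sum fun m r => r • x m) = 0) :
    ∃ f : M →ₗ[R] M', ∀ m, f m = x m := by
  have h' : ∀ w : M →₀ R, Finsupp.linearCombination R (id : M → M) w = 0 →
      Finsupp.linearCombination R x w = 0 := by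
    intro w hw
    rw [Finsupp.linearCombination_apply] at hw ⊢
    exact h w hw
  refine ⟨{ toFun := x, map_add' := fun m m' => ?_, map_smul' := fun r m => ?_ }, fun m => rfl⟩
  · have h1 := h' (Finsupp.single m 1 + Finsupp.single m' 1 - Finsupp.single (m + m') 1) (by
      simp [Finsupp.linearCombination_single])
    simp only [map_sub, map_add, Finsupp.linearCombination_single, one_smul] at h1
    exact (sub_eq_zero.1 h1).symm
  · have h1 := h' (Finsupp.single m r - Finsupp.single (r • m) 1) (by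
      simp [Finsupp.linearCombination_single])
    simp only [map_sub, Finsupp.linearCombination_single, one_smul] at h1
    exact (sub_eq_zero.1 h1).symm

theorem pr_GEXT (hFS : S_FS) : S_GEXT := by
  classical
  intro R _ M M' _ _ _ _ hAC n l a ψ c h
  obtain ⟨x, hx⟩ := hAC (M ⊕ Fin ψ.k)
    ({w : M →₀ R // (w.sum fun m r => r • m) = 0} ⊕ Fin ψ.m) (GEXT_row a ψ) (GEXT_rhs ψ c) (by
      intro s
      obtain ⟨φ, hφ, hφ'⟩ := hFS R M n a (s.toLeft.image Subtype.val) (by
        intro w hw
        rw [Finset.mem_image] at hw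
        obtain ⟨w', -, rfl⟩ := hw
        exact w'.2)
      obtain ⟨a', ha', y, hy⟩ := h φ hφ
      obtain ⟨x, hxa, hxS⟩ := hφ' M' a' ha'
      refine ⟨Sum.elim x y, fun e he => ?_⟩
      cases e with
      | inl w =>
        rw [GEXT_ev_inl]
        exact hxS w.1 (Finset.mem_image_of_mem _ (Finset.mem_toLeft.2 he))
      | inr i =>
        rw [GEXT_ev_inr]
        have h1 := hy i
        rw [Fin.sum_univ_add] at h1
        simp only [Fin.append_left, Fin.append_right] at h1
        simp only [Sum.elim_inl, Sum.elim_inr, hxa]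
        show _ = - ∑ j : Fin l, ψ.C i (Fin.natAdd n j) • c j
        rw [eq_neg_iff_add_eq_zero, ← h1]
        abel)
  obtain ⟨f, hf⟩ := GEXT_lin (R := R) (fun m => x (Sum.inl m)) (fun w hw => by
    have h1 := hx (Sum.inl ⟨w, hw⟩)
    rw [GEXT_ev_inl] at h1
    exact h1)
  refine ⟨f, fun l' => x (Sum.inr l'), fun i => ?_⟩
  have h1 := hx (Sum.inr i)
  rw [GEXT_ev_inr] at h1
  rw [Fin.sum_univ_add]
  simp only [Fin.append_left, Fin.append_right, hf]
  have h2 : GEXT_rhs (M := M) ψ c (Sum.inr i) = - ∑ j : Fin l, ψ.C i (Fin.natAdd n j) • c j := rfl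
  rw [h2, eq_neg_iff_add_eq_zero] at h1
  rw [← h1]
  abel

end Pool.Agent.Work.MP_edf6ee_al.CP
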