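import Pool.Agent.Work.MP_edf6ee_al.CP.Stmts

/-!
# MP_edf6ee_al, item HM (helper31)
-/

set_option autoImplicit false

namespace Pool.Agent.Work.MP_edf6ee_al.CP

/-- the formula `x₀ = x₁` -/
def HM_eq (R : Type) [Ring R] : PP R (1 + 1) where
  m := 1
  k := 0
  C := fun _ j => if j = 0 then 1 else -1
  D := fun _ l => l.elim0

theorem HM_eq_sat (R : Type) [Ring R] (M : Type) [AddCommGroup M] [Module R M] (x y : M) :
    (HM_eq R).Sat M (Fin.append (fun _ : Fin 1 => x) (fun _ : Fin 1 => y)) ↔ x = y := by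
  have key : ∀ z : Fin 0 → M, (∀ i : Fin 1, ∑ j : Fin (1 + 1), (if j = 0 then (1 : R) else -1) •
      (Fin.append (fun _ : Fin 1 => x) (fun _ : Fin 1 => y) j)
      + ∑ l : Fin 0, (l.elim0 : R) • z l = 0) ↔ x = y := by
    intro z
    constructor
    · intro h
      have h1 := h 0
      rw [Fin.sum_univ_two, Finset.univ_eq_empty, Finset.sum_empty, add_zero] at h1
      have h2 : (Fin.append (fun _ : Fin 1 => x) (fun _ : Fin 1 => y) (0 : Fin (1 + 1))) = x := rfl
      have h3 : (Fin.append (fun _ : Fin 1 => x) (fun _ : Fin 1 => y) (1 : Fin (1 + 1))) = y := rfl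
      rw [h2, h3, if_pos rfl, if_neg (by decide), one_smul, neg_one_smul] at h1
      exact sub_eq_zero.1 (by rw [sub_eq_add_neg]; exact h1)
    · rintro rfl i
      rw [Fin.sum_univ_two, Finset.univ_eq_empty, Finset.sum_empty, add_zero]
      have h2 : (Fin.append (fun _ : Fin 1 => x) (fun _ : Fin 1 => x) (0 : Fin (1 + 1))) = x := rfl
      have h3 : (Fin.append (fun _ : Fin 1 => x) (fun _ : Fin 1 => x) (1 : Fin (1 + 1))) = x := rfl
      rw [h2, h3, if_pos rfl, if_neg (by decide), one_smul, neg_one_smul]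
      exact add_neg_cancel x
  constructor
  · rintro ⟨z, hz⟩
    exact (key z).1 hz
  · intro h
    exact ⟨fun l => l.elim0, (key _).2 h⟩

theorem HM_key (hGEXT : S_GEXT) (hBAS : S_BAS) (R : Type) [Ring R] (M : Type) [AddCommGroup M]
    [Module R M] (hAC : AC R M) (a : M) (e : Module.End R M)
    (he : ∀ g : Module.End R M, g a = a → ∃ h : Module.End R M, h * g * e = e)
    (P : Module.End R M) (x : M) (hx : x ≠ 0) (hex : e x = x) (hPx : P x = 0) :
    ∃ A ∈ D1 R M, P a ∈ A ∧ a ∉ A := by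
  by_contra hcon
  push Not at hcon
  have h1 : ∀ φ : PP R 1, φ.Sat M (fun _ => P a) → φ.Sat M (fun _ => a) := by
    intro φ hφ
    obtain ⟨h0, hadd, hneg, -⟩ := hBAS R 1 φ M
    have h2 := hcon
      { carrier := {x | φ.Sat M (fun _ => x)}
        zero_mem' := h0
        add_mem' := fun {u v} hu hv => hadd _ _ hu hv
        neg_mem' := fun {u} hu => hneg _ hu } ⟨φ, fun x => Iff.rfl⟩ hφ
    exact h2
  obtain ⟨f, hf⟩ := hGEXT R M M hAC 1 1 (fun _ => P a) (HM_eq R) (fun _ => a)
    (fun φ hφ => ⟨fun _ => a, h1 φ hφ, (HM_eq_sat R M a a).2 rfl⟩)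
  have hf1 : f (P a) = a := (HM_eq_sat R M (f (P a)) a).1 hf
  obtain ⟨h, hh⟩ := he (f * P) hf1
  have h3 := LinearMap.congr_fun hh x
  apply hx
  have h4 : (h * (f * P) * e) x = h (f (P (e x))) := rfl
  rw [h4, hex, hPx, map_zero, map_zero] at h3
  exact h3.symm

theorem pr_HM (hHULL : S_HULL) (hGEXT : S_GEXT) (hRET : S_RET) (hCL1 : S_CL1)
    (_hNF : S_NF) (hBAS : S_BAS) : S_HM := by
  intro R _ M _ _ hAC a ha hirr
  obtain ⟨hbot, -, -, -, hend⟩ := hCL1 R M
  obtain ⟨e, hee, hea, hmax⟩ := hHULL R M hAC ⊥ hbot a (by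
    rw [AddSubgroup.mem_bot]; exact ha)
  have hea' : e a = a := sub_eq_zero.1 ((AddSubgroup.mem_bot).1 hea)
  have he : ∀ g : Module.End R M, g a = a → ∃ h : Module.End R M, h * g * e = e := by
    intro g hg
    obtain ⟨h, -, h2⟩ := hmax g (by rw [hg, sub_self]; exact AddSubgroup.zero_mem _)
    exact ⟨h, h2⟩
  have hfix : ∀ x : LinearMap.range e, e (x : M) = x := by
    rintro ⟨_, y, rfl⟩
    change e (e y) = e y
    exact LinearMap.congr_fun hee y
  have hπi : ∀ x : LinearMap.range e, e.rangeRestrict ((LinearMap.range e).subtype x) = x := by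
    intro x
    apply Subtype.ext
    change e (x : M) = x
    exact hfix x
  let a' : LinearMap.range e := ⟨a, a, hea'⟩
  have hπa : e.rangeRestrict a = a' := Subtype.ext hea'
  refine ⟨LinearMap.range e, inferInstance, inferInstance, (LinearMap.range e).subtype,
    e.rangeRestrict, a', hπi, rfl, ⟨⟨a', 0, ?_⟩, ?_⟩,
    hRET R M _ (LinearMap.range e).subtype e.rangeRestrict hπi hAC⟩
  · intro h
    exact ha (congrArg Subtype.val h)
  · intro P Q hPQ
    by_contra hcon
    push Not at hcon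
    obtain ⟨hP, hQ⟩ := hcon
    let i := (LinearMap.range e).subtype
    let π := e.rangeRestrict
    let P' : Module.End R M := i ∘ₗ (P.projection Q hPQ) ∘ₗ π
    let Q' : Module.End R M := i ∘ₗ (Q.projection P hPQ.symm) ∘ₗ π
    have hsum : P' a + Q' a = a := by
      change i (P.projection Q hPQ (π a)) + i (Q.projection P hPQ.symm (π a)) = a
      rw [← map_add, Submodule.projection_add_projection_eq_self]
      exact hea'
    obtain ⟨x, hxQ, hx0⟩ := Submodule.exists_mem_ne_zero_of_ne_bot hQ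
    obtain ⟨y, hyP, hy0⟩ := Submodule.exists_mem_ne_zero_of_ne_bot hP
    have hP'x : P' (x : M) = 0 := by
      change i (P.projection Q hPQ (π (i x))) = 0
      rw [hπi, (Submodule.projection_apply_eq_zero_iff hPQ).2 hxQ, map_zero]
    have hQ'y : Q' (y : M) = 0 := by
      change i (Q.projection P hPQ.symm (π (i y))) = 0
      rw [hπi, (Submodule.projection_apply_eq_zero_iff hPQ.symm).2 hyP, map_zero]
    obtain ⟨A, hA, hPA, haA⟩ := HM_key hGEXT hBAS R M hAC a e he P' x
      (fun h => hx0 (Subtype.ext h)) (hfix x) hP'x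
    obtain ⟨B, hB, hQB, haB⟩ := HM_key hGEXT hBAS R M hAC a e he Q' y
      (fun h => hy0 (Subtype.ext h)) (hfix y) hQ'y
    obtain ⟨C, hC, haC, hnot⟩ := hirr A hA B hB haA haB
    apply hnot
    have h1 : P' a ∈ C ⊓ A := ⟨hend C hC P' a haC, hPA⟩
    have h2 : Q' a ∈ C ⊓ B := ⟨hend C hC Q' a haC, hQB⟩
    have h3 := AddSubgroup.add_mem_sup h1 h2
    rwa [hsum] at h3

end Pool.Agent.Work.MP_edf6ee_al.CP
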