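import Pool.Agent.Work.MP_edf6ee_al.CP.Stmts

set_option autoImplicit false

namespace Pool.Agent.Work.MP_edf6ee_al.CP

theorem pr_HP (hHULL : S_HULL) (hCL1 : S_CL1) : S_HP := by
  intro R _ M _ _ hI hAC ψ hψ b hb
  obtain ⟨e, hee, heb, hg⟩ := hHULL R M hAC ψ hψ b hb
  have hcompl : IsCompl (LinearMap.range e) (LinearMap.ker e) := by
    constructor
    · rw [Submodule.disjoint_def]
      rintro x ⟨y, rfl⟩ hx
      have h1 : e (e y) = 0 := hx
      have h2 : (e * e) y = e y := by rw [hee]
      have h3 : e (e y) = e y := h2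
      rw [← h3, h1]
    · rw [codisjoint_iff_le_sup]
      intro x _
      rw [Submodule.mem_sup]
      refine ⟨e x, ⟨x, rfl⟩, x - e x, ?_, by abel⟩
      rw [LinearMap.mem_ker, map_sub]
      have h2 : (e * e) x = e x := by rw [hee]
      have h3 : e (e x) = e x := h2
      rw [h3, sub_self]
  have he1 : e = 1 := by
    rcases hI.2 _ _ hcompl with h | h
    · exfalso
      rw [LinearMap.range_eq_bot] at h
      rw [h] at heb
      apply hb
      have h4 : -b ∈ ψ := by simpa using heb
      simpa using ψ.neg_mem h4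
    · rw [LinearMap.ker_eq_bot] at h
      ext x
      apply h
      have h2 : (e * e) x = e x := by rw [hee]
      exact h2
  have key : ∀ g : Module.End R M, g b - b ∈ ψ → ∃ h : Module.End R M, h b - b ∈ ψ ∧ h * g = 1 := by
    intro g hgb
    obtain ⟨h, hh, hhg⟩ := hg g hgb
    refine ⟨h, hh, ?_⟩
    rw [he1, mul_one] at hhg
    exact hhg
  intro g hgb
  obtain ⟨h, hhb, hh⟩ := key g hgb
  obtain ⟨h', _, hh'⟩ := key h hhb
  have hgh : g * h = 1 := by
    have : h' = g := by
      calc h' = h' * (h * g) := by rw [hh, mul_one]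
        _ = (h' * h) * g := by rw [mul_assoc]
        _ = g := by rw [hh', one_mul]
    rw [← this, hh']
  exact ⟨⟨g, h, hgh, hh⟩, rfl⟩

end Pool.Agent.Work.MP_edf6ee_al.CP
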