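import Pool.Agent.Work.MP_edf6ee_al.CP.Stmts

/-!
# MP_edf6ee_al, item HULL (helper31)
-/

set_option autoImplicit false

namespace Pool.Agent.Work.MP_edf6ee_al.CP

/-- the largest element of a finite subset of a chain -/
theorem HULL_fin {R M : Type} [Ring R] [AddCommGroup M] [Module R M]
    (C : Set (Module.End R M)) (hC : ∀ a ∈ C, ∀ b ∈ C, a ≠ b → b * a = a ∨ a * b = b)
    (c0 : Module.End R M) (hc0 : c0 ∈ C) (T : Finset (Module.End R M)) (hT : ∀ c ∈ T, c ∈ C) :
    ∃ m ∈ C, (c0 = m ∨ m * c0 = c0) ∧ ∀ c ∈ T, c = m ∨ m * c = c := by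
  classical
  induction T using Finset.induction_on with
  | empty => exact ⟨c0, hc0, Or.inl rfl, fun c hc => absurd hc (Finset.notMem_empty c)⟩
  | insert a T ha ih =>
    obtain ⟨m, hm, hm0, hmT⟩ := ih fun c hc => hT c (Finset.mem_insert_of_mem hc)
    have haC : a ∈ C := hT a (Finset.mem_insert_self a T)
    by_cases hma : a = m
    · refine ⟨m, hm, hm0, fun c hc => ?_⟩
      rcases Finset.mem_insert.1 hc with rfl | hc
      · exact Or.inl hma
      · exact hmT c hc
    · rcases hC a haC m hm hma with h | h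
      · refine ⟨m, hm, hm0, fun c hc => ?_⟩
        rcases Finset.mem_insert.1 hc with rfl | hc
        · exact Or.inr h
        · exact hmT c hc
      · have key : ∀ c, (c = m ∨ m * c = c) → a * c = c := by
          rintro c (rfl | hc)
          · exact h
          · calc a * c = a * (m * c) := by rw [hc]
              _ = (a * m) * c := by rw [mul_assoc]
              _ = c := by rw [h, hc]
        refine ⟨a, haC, Or.inr (key _ hm0), fun c hc => ?_⟩
        rcases Finset.mem_insert.1 hc with rfl | hc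
        · exact Or.inl rfl
        · exact Or.inr (key c (hmT c hc))

theorem pr_HULL (hACE : S_ACE) (hHZ : S_HZ) (hCL1 : S_CL1) : S_HULL := by
  classical
  intro R _ M _ _ hAC ψ hψ b _
  obtain ⟨-, -, -, -, hend⟩ := hCL1 R M
  -- the semigroup
  set S : Set (Module.End R M) := {f | f b - b ∈ ψ} with hS
  have hmulS : ∀ f ∈ S, ∀ g ∈ S, f * g ∈ S := by
    intro f hf g hg
    have h1 : (f * g) b - b = f (g b - b) + (f b - b) := by
      rw [map_sub, Module.End.mul_apply]
      abel
    change (f * g) b - b ∈ ψ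
    rw [h1]
    exact ψ.add_mem (hend ψ hψ f _ hg) hf
  set L : Set (Module.End R M) := {f | f ∈ S ∧ ∀ g ∈ S, ∃ h ∈ S, h * g * f = f} with hL
  obtain ⟨f0, hf0S, hf0⟩ := hHZ R M hAC ψ hψ b
  have hf0L : f0 ∈ L := ⟨hf0S, fun g hg => by
    obtain ⟨h, h1, h2⟩ := hf0 g hg
    exact ⟨h, h1, h2⟩⟩
  -- (1)
  have hL1 : ∀ f ∈ L, ∀ u ∈ S, u * f ∈ L := by
    intro f hf u hu
    refine ⟨hmulS u hu f hf.1, fun g hg => ?_⟩
    obtain ⟨h, hh, h1⟩ := hf.2 (g * u) (hmulS g hg u hu)
    refine ⟨u * h, hmulS u hu h hh, ?_⟩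
    calc u * h * g * (u * f) = u * (h * (g * u) * f) := by simp only [mul_assoc]
      _ = u * f := by rw [h1]
  -- (2)
  have hL2 : ∀ f ∈ L, ∃ k ∈ L, k * f = f := by
    intro f hf
    obtain ⟨h, hh, h1⟩ := hf.2 f hf.1
    exact ⟨h * f, hL1 f hf h hh, h1⟩
  -- (3) and (4)
  have hne : Nonempty L := ⟨⟨f0, hf0L⟩⟩
  obtain ⟨⟨f, hf⟩, hmax⟩ := exists_maximal_of_nonempty_chains_bounded
    (α := L) (r := fun x y => (y : Module.End R M) * x = x) (by
      intro C hC hCne
      obtain ⟨⟨f1, hf1⟩, hf1C⟩ := hCne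
      set C' : Set (Module.End R M) := Subtype.val '' C with hC'
      have hC'L : ∀ c ∈ C', c ∈ L := by
        rintro _ ⟨c, _, rfl⟩
        exact c.2
      have hf1C' : f1 ∈ C' := ⟨⟨f1, hf1⟩, hf1C, rfl⟩
      have hch : ∀ x ∈ C', ∀ y ∈ C', x ≠ y → y * x = x ∨ x * y = y := by
        rintro _ ⟨x, hx, rfl⟩ _ ⟨y, hy, rfl⟩ hxy
        have hxy' : x ≠ y := fun h => hxy (by rw [h])
        exact hC hx hy hxy'
      obtain ⟨u, hu1, hu2⟩ := hACE R M hAC Unit ψ hψ b
        {γ | ∃ c ∈ C', ∃ m : M, γ = ((), f1 (c m), (), 0, c m)} (by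
          intro s t hs
          choose! cc hcc using fun (γ : Unit × M × Unit × M × M) (hγ : γ ∈ s) => hs γ hγ
          obtain ⟨m, hm, hm1, hmT⟩ := HULL_fin C' hch f1 hf1C' (s.image cc) (by
            intro c hc
            obtain ⟨γ, hγ, rfl⟩ := Finset.mem_image.1 hc
            exact (hcc γ hγ).1)
          obtain ⟨h, hh, h1⟩ := (hC'L m hm).2 f1 hf1.1
          refine ⟨fun _ => h, ?_, fun j _ => hh⟩
          intro γ hγ
          obtain ⟨_, x, hx⟩ := hcc γ hγ
          have h2 : h * f1 * cc γ = cc γ := by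
            rcases hmT (cc γ) (Finset.mem_image_of_mem cc hγ) with h3 | h3
            · rw [h3, h1]
            · calc h * f1 * cc γ = h * f1 * (m * cc γ) := by rw [h3]
                _ = (h * f1 * m) * cc γ := by simp only [mul_assoc]
                _ = cc γ := by rw [h1, h3]
          have h4 := LinearMap.congr_fun h2 x
          rw [hx]
          change h (f1 (cc γ x)) = h 0 + cc γ x
          rw [map_zero, zero_add]
          exact h4)
      have huS : u () ∈ S := hu2 ()
      have hub : ∀ c ∈ C', u () * f1 * c = c := by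
        intro c hc
        refine LinearMap.ext fun m => ?_
        have h1 := hu1 ((), f1 (c m), (), 0, c m) ⟨c, hc, m, rfl⟩
        change u () (f1 (c m)) = u () 0 + c m at h1
        rw [map_zero, zero_add] at h1
        exact h1
      refine ⟨⟨u () * f1, hL1 f1 hf1 _ huS⟩, fun a ha => ?_⟩
      exact hub a ⟨a, ha, rfl⟩)
    (by
      intro x y z hxy hyz
      change (z : Module.End R M) * x = x
      calc (z : Module.End R M) * x = z * (y * x) := by rw [hxy]
        _ = (z * y) * x := by rw [mul_assoc]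
        _ = x := by rw [hyz, hxy])
  obtain ⟨k, hk, hkf⟩ := hL2 f hf
  have hfk : f * k = k := hmax ⟨k, hk⟩ hkf
  have hkk : k * k = k := by
    calc k * k = k * (f * k) := by rw [hfk]
      _ = (k * f) * k := by rw [mul_assoc]
      _ = k := by rw [hkf, hfk]
  exact ⟨k, hkk, hk.1, fun g hg => by
    obtain ⟨h, h1, h2⟩ := hk.2 g hg
    exact ⟨h, h1, h2⟩⟩

end Pool.Agent.Work.MP_edf6ee_al.CP
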