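import Pool.Agent.Work.MP_edf6ee_al.CP.Stmts

/-!
# HZ: a kernel-maximal endomorphism (Zorn)
-/

set_option autoImplicit false

namespace Pool.Agent.Work.MP_edf6ee_al.CP

theorem HZ_top {α : Type} (r : α → α → Prop) (hrefl : ∀ a, r a a)
    (htrans : ∀ a b c, r a b → r b c → r a c) (F : Finset α) (hF : F.Nonempty)
    (htot : ∀ a ∈ F, ∀ b ∈ F, r a b ∨ r b a) : ∃ m ∈ F, ∀ a ∈ F, r a m := by
  classical
  induction hF using Finset.Nonempty.cons_induction with
  | singleton a => exact ⟨a, by simp, by simpa using hrefl a⟩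
  | cons a s ha hs ih =>
    obtain ⟨m, hm, hmax⟩ := ih fun x hx y hy =>
      htot x (Finset.mem_cons_of_mem hx) y (Finset.mem_cons_of_mem hy)
    rcases htot a (Finset.mem_cons_self a s) m (Finset.mem_cons_of_mem hm) with h | h
    · refine ⟨m, Finset.mem_cons_of_mem hm, fun x hx => ?_⟩
      rcases Finset.mem_cons.mp hx with rfl | hx
      · exact h
      · exact hmax x hx
    · refine ⟨a, Finset.mem_cons_self a s, fun x hx => ?_⟩
      rcases Finset.mem_cons.mp hx with rfl | hx
      · exact hrefl _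
      · exact htrans _ _ _ (hmax x hx) h

theorem pr_HZ (hACE : S_ACE) (hCL1 : S_CL1) : S_HZ := by
  intro R _ M _ _ hAC ψ hψ b
  classical
  have hst := (hCL1 R M).2.2.2.2 ψ hψ
  -- the set of admissible endomorphisms
  let α : Type := {f : Module.End R M // f b - b ∈ ψ}
  have hmul : ∀ g f : Module.End R M, g b - b ∈ ψ → f b - b ∈ ψ → (g * f) b - b ∈ ψ := by
    intro g f hg hf
    have : (g * f) b - b = g (f b - b) + (g b - b) := by
      rw [Module.End.mul_apply, map_sub]
      abel
    rw [this]
    exact ψ.add_mem (hst g _ hf) hg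
  have hone : (1 : Module.End R M) b - b ∈ ψ := by
    simp
  let r : α → α → Prop := fun f f' => ∃ g : α, f'.1 = g.1 * f.1
  have hrefl : ∀ a, r a a := fun a => ⟨⟨1, hone⟩, by simp⟩
  have htrans : ∀ a b c, r a b → r b c → r a c := by
    rintro x y z ⟨g, hg⟩ ⟨h, hh⟩
    exact ⟨⟨h.1 * g.1, hmul _ _ h.2 g.2⟩, by rw [hh, hg, mul_assoc]⟩
  haveI : Nonempty α := ⟨⟨1, hone⟩⟩
  obtain ⟨f, hf⟩ : ∃ m : α, ∀ a, r m a → r a m := by
    refine exists_maximal_of_nonempty_chains_bounded (r := r) ?_ (fun {a b c} => htrans a b c)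
    intro C hC hCne
    let Γ : Set (Option α × M × Option α × M × M) :=
      {γ | ∃ c ∈ C, ∃ m : M, γ = (some c, c.1 m, none, m, 0)}
    obtain ⟨u, hu1, hu2⟩ := hACE R M hAC (Option α) ψ hψ b Γ (by
      intro s t hs
      let F : Finset α := Finset.eraseNone (s.image fun γ => γ.1)
      have hFC : ∀ c ∈ F, c ∈ C := by
        intro c hc
        rw [Finset.mem_eraseNone, Finset.mem_image] at hc
        obtain ⟨γ, hγ, hγc⟩ := hc
        obtain ⟨c', hc', m, rfl⟩ := hs γ hγ
        have : c' = c := by simpa using hγc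
        rw [← this]
        exact hc'
      have hFtot : ∀ a ∈ F, ∀ b ∈ F, r a b ∨ r b a := by
        intro x hx y hy
        by_cases hxy : x = y
        · left
          rw [hxy]
          exact hrefl y
        · exact hC (hFC x hx) (hFC y hy) hxy
      by_cases hFne : F.Nonempty
      · obtain ⟨cs, hcs, hmax⟩ := HZ_top r hrefl htrans F hFne hFtot
        choose! g hg using hmax
        refine ⟨fun j => match j with
          | none => cs.1
          | some c => if c ∈ F then (g c).1 else 1, ?_, ?_⟩
        · intro γ hγ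
          obtain ⟨c, hc, m, rfl⟩ := hs γ hγ
          have hcF : c ∈ F := by
            rw [Finset.mem_eraseNone, Finset.mem_image]
            exact ⟨_, hγ, rfl⟩
          simp only [hcF, if_true, add_zero]
          rw [hg c hcF]
          rfl
        · intro j _
          match j with
          | none => exact cs.2
          | some c =>
            by_cases hcF : c ∈ F
            · simpa only [hcF, if_true] using (g c).2
            · simpa only [hcF, if_false] using hone
      · refine ⟨fun _ => 1, ?_, fun j _ => hone⟩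
        intro γ hγ
        exfalso
        apply hFne
        obtain ⟨c, hc, m, rfl⟩ := hs γ hγ
        refine ⟨c, ?_⟩
        rw [Finset.mem_eraseNone, Finset.mem_image]
        exact ⟨_, hγ, rfl⟩)
    refine ⟨⟨u none, hu2 none⟩, fun a ha => ⟨⟨u (some a), hu2 (some a)⟩, ?_⟩⟩
    refine LinearMap.ext fun m => ?_
    have := hu1 (some a, a.1 m, none, m, 0) ⟨a, ha, m, rfl⟩
    simp only [add_zero] at this
    exact this.symm
  refine ⟨f.1, f.2, fun g hg => ?_⟩
  obtain ⟨h, hh⟩ := hf ⟨g * f.1, hmul _ _ hg f.2⟩ ⟨⟨g, hg⟩, rfl⟩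
  exact ⟨h.1, h.2, by rw [mul_assoc]; exact hh.symm⟩

end Pool.Agent.Work.MP_edf6ee_al.CP
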