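import Pool.Agent.Work.MP_edf6ee_al.CP.Stmts

set_option autoImplicit false

namespace Pool.Agent.Work.MP_edf6ee_al.CP

open scoped BigOperators

/-- the formula `x = 0` -/
def IRR_Z (R : Type) [Ring R] : PP R 1 := ⟨1, 0, fun _ _ => 1, fun _ _ => 0⟩

theorem IRR_Z_sat (R : Type) [Ring R] (M : Type) [AddCommGroup M] [Module R M] (x : Fin 1 → M) :
    (IRR_Z R).Sat M x ↔ x 0 = 0 := by
  simp [IRR_Z, PP.Sat]

theorem IRR_form (hNF : S_NF) (R : Type) [Ring R] (α β : PP R 1) :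
    ∃ ψ : PP R 3, ∀ (M : Type) [AddCommGroup M] [Module R M] (x : Fin 3 → M),
      ψ.Sat M x ↔ α.Sat M (fun _ => x 0) ∧ β.Sat M (fun _ => x 1) ∧ x 0 + x 1 = x 2 := by
  obtain ⟨ψ, hψ⟩ := hNF R 3 0 3 (fun _ => 1) ![α, β, IRR_Z R]
    ![fun _ => ![1, 0, 0], fun _ => ![0, 1, 0], fun _ => ![1, 1, -1]] (fun _ _ _ => 0)
  refine ⟨ψ, fun M _ _ x => ?_⟩
  rw [hψ]
  constructor
  · rintro ⟨y, hy⟩
    have h0 := hy 0
    have h1 := hy 1
    have h2 := hy 2
    refine ⟨?_, ?_, ?_⟩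
    · simpa [Fin.sum_univ_succ] using h0
    · simpa [Fin.sum_univ_succ] using h1
    · have h3 : (IRR_Z R).Sat M (fun _ => x 0 + (x 1 - x 2)) := by
        simpa [Fin.sum_univ_succ, sub_eq_add_neg] using h2
      rw [IRR_Z_sat] at h3
      exact sub_eq_zero.1 (by rw [← h3]; abel)
  · rintro ⟨h0, h1, h2⟩
    refine ⟨fun _ => 0, fun e => ?_⟩
    fin_cases e
    · simpa [Fin.sum_univ_succ] using h0
    · simpa [Fin.sum_univ_succ] using h1
    · have h3 : (IRR_Z R).Sat M (fun _ => x 0 + (x 1 - x 2)) := by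
        rw [IRR_Z_sat, ← h2]; abel
      simpa [Fin.sum_univ_succ, sub_eq_add_neg] using h3

theorem IRR_fst (hNF : S_NF) (R : Type) [Ring R] (φ : PP R 2) :
    ∃ ψ : PP R 1, ∀ (M : Type) [AddCommGroup M] [Module R M] (x : M),
      ψ.Sat M (fun _ => x) ↔ φ.Sat M ![x, 0] := by
  obtain ⟨ψ, hψ⟩ := hNF R 1 0 1 (fun _ => 2) ![φ]
    (fun _ => ![![1], ![0]]) (fun _ _ _ => 0)
  refine ⟨ψ, fun M _ _ x => ?_⟩
  rw [hψ]
  have key : (fun j : Fin 2 => ∑ i : Fin 1, (![![1], ![0]] : Fin 2 → Fin 1 → R) j i • x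
      + ∑ l : Fin 0, (0 : R) • (Fin.elim0 l : M)) = ![x, 0] := by
    ext j
    fin_cases j <;> simp
  constructor
  · rintro ⟨y, hy⟩
    have h0 := hy 0
    have e : (fun j : Fin 2 => ∑ i : Fin 1, (![![1], ![0]] : Fin 2 → Fin 1 → R) j i • x
      + ∑ l : Fin 0, (0 : R) • (y l)) = ![x, 0] := by
      ext j
      fin_cases j <;> simp
    rw [← e]
    exact h0
  · intro h
    refine ⟨fun _ => 0, fun e => ?_⟩
    fin_cases e
    have e : (fun j : Fin 2 => ∑ i : Fin 1, (![![1], ![0]] : Fin 2 → Fin 1 → R) j i • x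
      + ∑ l : Fin 0, (0 : R) • (0 : M)) = ![x, 0] := by
      ext j
      fin_cases j <;> simp
    rw [← e] at h
    exact h

theorem IRR_snd (hNF : S_NF) (R : Type) [Ring R] (φ : PP R 2) :
    ∃ ψ : PP R 1, ∀ (M : Type) [AddCommGroup M] [Module R M] (x : M),
      ψ.Sat M (fun _ => x) ↔ φ.Sat M ![0, x] := by
  obtain ⟨ψ, hψ⟩ := hNF R 1 0 1 (fun _ => 2) ![φ]
    (fun _ => ![![0], ![1]]) (fun _ _ _ => 0)
  refine ⟨ψ, fun M _ _ x => ?_⟩
  rw [hψ]
  constructor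
  · rintro ⟨y, hy⟩
    have h0 := hy 0
    have e : (fun j : Fin 2 => ∑ i : Fin 1, (![![0], ![1]] : Fin 2 → Fin 1 → R) j i • x
      + ∑ l : Fin 0, (0 : R) • (y l)) = ![0, x] := by
      ext j
      fin_cases j <;> simp
    rw [← e]
    exact h0
  · intro h
    refine ⟨fun _ => 0, fun e => ?_⟩
    fin_cases e
    have e : (fun j : Fin 2 => ∑ i : Fin 1, (![![0], ![1]] : Fin 2 → Fin 1 → R) j i • x
      + ∑ l : Fin 0, (0 : R) • (0 : M)) = ![0, x] := by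
      ext j
      fin_cases j <;> simp
    rw [← e] at h
    exact h

theorem pr_IRR (hGEXT : S_GEXT) (hCL1 : S_CL1) (hNF : S_NF) (hBAS : S_BAS) (hSUB : S_SUB)
    (hFRM : S_FRM) : S_IRR := by
  intro R _ M _ _ hAC hHP a A hA B hB haA haB
  obtain ⟨hbot, _, hinf, _, hend⟩ := hCL1 R M
  by_contra hcon
  push Not at hcon
  obtain ⟨α, hα⟩ := hA
  obtain ⟨β, hβ⟩ := hB
  have ha0 : a ≠ 0 := by
    rintro rfl
    exact haA A.zero_mem
  obtain ⟨ψ, hψ⟩ := IRR_form hNF R α β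
  obtain ⟨f, hf⟩ := hGEXT R (M × M) M hAC 2 1 ![(a, 0), (0, a)] ψ ![a] (by
    intro φ hφ
    have hp1 : φ.Sat M ![a, 0] := by
      have := (hBAS R 2 φ (M × M)).2.2.2 M (LinearMap.fst R M M) _ hφ
      have e : (fun i => (LinearMap.fst R M M) ((![(a, 0), (0, a)] : Fin 2 → M × M) i))
          = ![a, 0] := by
        ext i; fin_cases i <;> simp
      rwa [e] at this
    have hp2 : φ.Sat M ![0, a] := by
      have := (hBAS R 2 φ (M × M)).2.2.2 M (LinearMap.snd R M M) _ hφ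
      have e : (fun i => (LinearMap.snd R M M) ((![(a, 0), (0, a)] : Fin 2 → M × M) i))
          = ![0, a] := by
        ext i; fin_cases i <;> simp
      rwa [e] at this
    obtain ⟨φ1, hφ1⟩ := IRR_fst hNF R φ
    obtain ⟨φ2, hφ2⟩ := IRR_snd hNF R φ
    obtain ⟨C1, hC1, hC1'⟩ := (hSUB R M).1 φ1
    obtain ⟨C2, hC2, hC2'⟩ := (hSUB R M).1 φ2
    have haC : a ∈ C1 ⊓ C2 :=
      ⟨(hC1' a).2 ((hφ1 M a).2 hp1), (hC2' a).2 ((hφ2 M a).2 hp2)⟩
    have := hcon (C1 ⊓ C2) (hinf _ hC1 _ hC2) haC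
    rw [AddSubgroup.mem_sup] at this
    obtain ⟨a1, ha1, a2, ha2, hsum⟩ := this
    refine ⟨![a1, a2], ?_, ?_⟩
    · have h1 : φ.Sat M ![a1, 0] := (hφ1 M a1).1 ((hC1' a1).1 ha1.1.1)
      have h2 : φ.Sat M ![0, a2] := (hφ2 M a2).1 ((hC2' a2).1 ha2.1.2)
      have h3 := (hBAS R 2 φ M).2.1 _ _ h1 h2
      have e : (fun i => (![a1, 0] : Fin 2 → M) i + (![0, a2] : Fin 2 → M) i) = ![a1, a2] := by
        ext i; fin_cases i <;> simp
      rwa [e] at h3
    · rw [hψ]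
      exact ⟨(hα a1).1 ha1.2, (hβ a2).1 ha2.2, hsum⟩)
  rw [hψ] at hf
  obtain ⟨h1, h2, h3⟩ := hf
  have h1' : f (a, 0) ∈ A := (hα _).2 h1
  have h2' : f (0, a) ∈ B := (hβ _).2 h2
  have h3' : f (a, 0) + f (0, a) = a := h3
  set f1 : Module.End R M := f.comp (LinearMap.inl R M M) with hf1
  set f2 : Module.End R M := f.comp (LinearMap.inr R M M) with hf2
  have e1 : f1 a = f (a, 0) := rfl
  have e2 : f2 a = f (0, a) := rfl
  have hu : IsUnit (f1 + f2) := hHP ⊥ hbot a (by simpa using ha0) _ (by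
    simp [e1, e2, h3'])
  obtain ⟨u, hu⟩ := hu
  have hua : (↑u : Module.End R M) a = a := by
    rw [hu]; simp [e1, e2, h3']
  have huinv : (↑u⁻¹ : Module.End R M) a = a := by
    have : ((↑u⁻¹ : Module.End R M) * (↑u : Module.End R M)) a = a := by
      rw [Units.inv_mul]; rfl
    have h4 : (↑u⁻¹ : Module.End R M) ((↑u : Module.End R M) a) = a := this
    rwa [hua] at h4
  set g1 : Module.End R M := (↑u⁻¹ : Module.End R M) * f1 with hg1
  set g2 : Module.End R M := (↑u⁻¹ : Module.End R M) * f2 with hg2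
  have hg12 : g1 + g2 = 1 := by
    rw [hg1, hg2, ← mul_add, ← hu, Units.inv_mul]
  have hg1a : g1 a ∈ A := by
    have : g1 a = (↑u⁻¹ : Module.End R M) (f1 a) := rfl
    rw [this, e1]
    exact hend A ⟨α, hα⟩ _ _ h1'
  have hg2a : g2 a - a ∈ A := by
    have h5 : (g1 + g2) a = a := by rw [hg12]; rfl
    have h6 : g1 a + g2 a = a := h5
    have h7 : g2 a - a = - g1 a := by
      rw [sub_eq_iff_eq_add, ← sub_eq_neg_add, eq_sub_iff_add_eq, add_comm]; exact h6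
    rw [h7]
    exact A.neg_mem hg1a
  have hg2u := hHP A ⟨α, hα⟩ a haA g2 hg2a
  obtain ⟨v, hv⟩ := hg2u
  have hg2B : g2 a ∈ B := by
    have : g2 a = (↑u⁻¹ : Module.End R M) (f2 a) := rfl
    rw [this, e2]
    exact hend B ⟨β, hβ⟩ _ _ h2'
  have hva : (↑v⁻¹ : Module.End R M) (g2 a) = a := by
    rw [← hv]
    have : ((↑v⁻¹ : Module.End R M) * (↑v : Module.End R M)) a = a := by
      rw [Units.inv_mul]; rfl
    exact this
  apply haB
  rw [← hva]
  exact hend B ⟨β, hβ⟩ _ _ hg2B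

end Pool.Agent.Work.MP_edf6ee_al.CP
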