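import Pool.Agent.Work.MP_edf6ee_al.CP.Stmts

set_option autoImplicit false

namespace Pool.Agent.Work.MP_edf6ee_al.CP

open scoped BigOperators

/-- the formula `x = 0` -/
def LINK_Z (R : Type) [Ring R] : PP R 1 := ⟨1, 0, fun _ _ => 1, fun _ _ => 0⟩

theorem LINK_Z_sat (R : Type) [Ring R] (M : Type) [AddCommGroup M] [Module R M] (x : Fin 1 → M) :
    (LINK_Z R).Sat M x ↔ x 0 = 0 := by
  simp [LINK_Z, PP.Sat]

theorem LINK_form (hNF : S_NF) (R : Type) [Ring R] (φη : PP R 1) :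
    ∃ ψ : PP R 3, ∀ (M : Type) [AddCommGroup M] [Module R M] (x : Fin 3 → M),
      ψ.Sat M x ↔ φη.Sat M (fun _ => x 1) ∧ x 0 = x 2 := by
  obtain ⟨ψ, hψ⟩ := hNF R 3 0 2 (fun _ => 1) ![φη, LINK_Z R]
    ![fun _ => ![0, 1, 0], fun _ => ![1, 0, -1]] (fun _ _ _ => 0)
  refine ⟨ψ, fun M _ _ x => ?_⟩
  rw [hψ]
  constructor
  · rintro ⟨y, hy⟩
    have h0 := hy 0
    have h1 := hy 1
    constructor
    · simpa [Fin.sum_univ_succ] using h0
    · have h2 : (LINK_Z R).Sat M (fun _ => x 0 - x 2) := by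
        simpa [Fin.sum_univ_succ, sub_eq_add_neg] using h1
      rw [LINK_Z_sat] at h2
      exact sub_eq_zero.1 h2
  · rintro ⟨h1, h2⟩
    refine ⟨fun _ => 0, fun e => ?_⟩
    fin_cases e
    · simpa [Fin.sum_univ_succ] using h1
    · have h3 : (LINK_Z R).Sat M (fun _ => x 0 - x 2) := by
        rw [LINK_Z_sat]; exact sub_eq_zero.2 h2
      simpa [Fin.sum_univ_succ, sub_eq_add_neg] using h3

theorem pr_LINK (hGEXT : S_GEXT) (hCL1 : S_CL1) (hNF : S_NF) (hSUB : S_SUB) : S_LINK := by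
  intro R _ M _ _ hAC hHP a ha η hη b hb
  obtain ⟨hbot, _, _, _, hend⟩ := hCL1 R M
  by_contra hcon
  push Not at hcon
  obtain ⟨φη, hφη⟩ := hη
  obtain ⟨ψ, hψ⟩ := LINK_form hNF R φη
  obtain ⟨f, hf⟩ := hGEXT R M M hAC 2 1 ![a, b] ψ ![a] (by
    intro φ hφ
    obtain ⟨B, hB, hBφ⟩ := (hSUB R M).2 φ
    obtain ⟨y, hy, hyB⟩ := hcon B hB ((hBφ a b).2 hφ)
    refine ⟨![a, y], (hBφ a y).1 hyB, ?_⟩
    rw [hψ]
    exact ⟨(hφη y).1 hy, rfl⟩)
  rw [hψ] at hf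
  obtain ⟨h1, h2⟩ := hf
  have h1' : f b ∈ η := (hφη _).2 h1
  have h2' : f a = a := h2
  have hu : IsUnit f := hHP ⊥ hbot a (by simpa using ha) f (by simp [h2'])
  obtain ⟨u, hu⟩ := hu
  have h3 : (↑u⁻¹ : Module.End R M) (f b) = b := by
    rw [← hu]
    have : ((↑u⁻¹ : Module.End R M) * (↑u : Module.End R M)) b = b := by
      rw [Units.inv_mul]; rfl
    exact this
  apply hb
  rw [← h3]
  exact hend η ⟨φη, hφη⟩ _ _ h1'

end Pool.Agent.Work.MP_edf6ee_al.CP
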