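import Pool.Agent.Work.MP_edf6ee_al.CP.Stmts

set_option autoImplicit false

namespace Pool.Agent.Work.MP_edf6ee_al.CP

theorem pr_MAX (hCL1 : S_CL1) : S_MAX := by
  intro R _ N _ _ p₀ Ω hp₀ hΩ hΩne hΩdir hΩp
  obtain ⟨_, htop, hinf, hsup, _⟩ := hCL1 R N
  set S : Set (Set (AddSubgroup N)) := {p | TS R N p ∧ p₀ ⊆ p ∧ ∀ ω ∈ Ω, ω ∉ p} with hS
  have hp0S : p₀ ∈ S := ⟨hp₀, subset_rfl, hΩp⟩
  obtain ⟨p, hp0p, hpmax⟩ := zorn_subset_nonempty S (by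
    intro c hcS hchain hcne
    refine ⟨⋃₀ c, ?_, fun s hs => Set.subset_sUnion_of_mem hs⟩
    obtain ⟨q, hq⟩ := hcne
    refine ⟨⟨?_, ?_, ?_, ?_⟩, ?_, ?_⟩
    · intro A hA
      obtain ⟨r, hr, hAr⟩ := hA
      exact (hcS hr).1.sub hAr
    · exact ⟨q, hq, (hcS hq).1.top⟩
    · rintro A ⟨r, hr, hAr⟩ B hB hAB
      exact ⟨r, hr, (hcS hr).1.up A hAr B hB hAB⟩
    · rintro A ⟨r, hr, hAr⟩ B ⟨s, hs, hBs⟩
      rcases hchain.total hr hs with h | h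
      · exact ⟨s, hs, (hcS hs).1.inf A (h hAr) B hBs⟩
      · exact ⟨r, hr, (hcS hr).1.inf A hAr B (h hBs)⟩
    · intro A hA
      exact ⟨q, hq, (hcS hq).2.1 hA⟩
    · rintro ω hω ⟨r, hr, hωr⟩
      exact (hcS hr).2.2 ω hω hωr) p₀ hp0S
  have hpS : p ∈ S := hpmax.prop
  have hTS := hpS.1
  have hlast : ∀ η ∈ D1 R N, η ∉ p → ∃ φ ∈ p, ∃ ω ∈ Ω, φ ⊓ η ≤ ω := by
    intro η hη hηp
    by_contra hcon
    push Not at hcon
    set p' : Set (AddSubgroup N) := {B | B ∈ D1 R N ∧ ∃ φ ∈ p, φ ⊓ η ≤ B} with hp'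
    have hpp' : p ⊆ p' := fun B hB => ⟨hTS.sub hB, B, hB, inf_le_left⟩
    have hp'S : p' ∈ S := by
      refine ⟨⟨?_, ?_, ?_, ?_⟩, ?_, ?_⟩
      · intro A hA
        exact hA.1
      · exact hpp' hTS.top
      · rintro A ⟨_, φ, hφ, hφA⟩ B hB hAB
        exact ⟨hB, φ, hφ, hφA.trans hAB⟩
      · rintro A ⟨hA, φ, hφ, hφA⟩ B ⟨hB, φ', hφ', hφ'B⟩
        refine ⟨hinf A hA B hB, φ ⊓ φ', hTS.inf φ hφ φ' hφ', le_inf ?_ ?_⟩
        · exact (inf_le_inf_right η inf_le_left).trans hφA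
        · exact (inf_le_inf_right η inf_le_right).trans hφ'B
      · exact hp0p.trans hpp'
      · rintro ω hω ⟨_, φ, hφ, hle⟩
        exact hcon φ hφ ω hω hle
    have hηp' : η ∈ p' := ⟨hη, ⊤, hTS.top, inf_le_right⟩
    exact hηp (hpmax.le_of_ge hp'S hpp' hηp')
  refine ⟨p, hTS, ?_, hpS.2.1, hpS.2.2, hlast⟩
  intro A hA B hB hAp hBp
  obtain ⟨φA, hφA, α, hα, hle1⟩ := hlast A hA hAp
  obtain ⟨φB, hφB, β, hβ, hle2⟩ := hlast B hB hBp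
  obtain ⟨γ, hγ, hγle⟩ := hΩdir α hα β hβ
  refine ⟨φA ⊓ φB, hTS.inf _ hφA _ hφB, fun hmem => hpS.2.2 γ hγ ?_⟩
  refine hTS.up _ hmem γ (hΩ hγ) (sup_le ?_ ?_)
  · exact ((inf_le_inf_right A inf_le_left).trans hle1).trans (le_sup_left.trans hγle)
  · exact ((inf_le_inf_right B inf_le_right).trans hle2).trans (le_sup_right.trans hγle)

end Pool.Agent.Work.MP_edf6ee_al.CP
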