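import Pool.Agent.Work.MP_edf6ee_al.CP.Stmts

/-!
# Item MR: maximal types in an interval are realised
-/

set_option autoImplicit false

namespace Pool.Agent.Work.MP_edf6ee_al.CP

theorem pr_MR (hMAX : S_MAX) (hCL1 : S_CL1) : S_MR := by
  intro R _ N _ _ hG ψ hψ φ hφ hnle
  obtain ⟨-, htop, hinf, -, -⟩ := hCL1 R N
  obtain ⟨p, hp, hirr, hp0, hΩ, hmax⟩ := hMAX R N {B | B ∈ D1 R N ∧ φ ≤ B} {ψ}
    ⟨fun B hB => hB.1, ⟨htop, le_top⟩, fun A hA B hB hAB => ⟨hB, hA.2.trans hAB⟩,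
      fun A hA B hB => ⟨hinf A hA.1 B hB.1, le_inf hA.2 hB.2⟩⟩
    (by intro B hB; rw [Set.mem_singleton_iff.mp hB]; exact hψ)
    ⟨ψ, rfl⟩
    (by
      intro α hα β hβ
      rw [Set.mem_singleton_iff.mp hα, Set.mem_singleton_iff.mp hβ]
      exact ⟨ψ, rfl, by rw [sup_idem]⟩)
    (by
      intro ω hω h
      rw [Set.mem_singleton_iff.mp hω] at h
      exact hnle h.2)
  have hψp : ψ ∉ p := hΩ ψ rfl
  have hbot : ⊥ ∉ p := fun h => hψp (hp.up ⊥ h ψ hψ bot_le)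
  obtain ⟨a, ha⟩ := hG.real p hp hirr hbot
  refine ⟨a, (ha φ hφ).mp (hp0 ⟨hφ, le_rfl⟩), fun h => hψp ((ha ψ hψ).mpr h), fun η hη h => ?_⟩
  obtain ⟨C, hC, ω, hω, hle⟩ := hmax η hη fun h' => h ((ha η hη).mp h')
  rw [Set.mem_singleton_iff.mp hω] at hle
  exact ⟨C, hp.sub hC, (ha C (hp.sub hC)).mp hC, hle⟩

end Pool.Agent.Work.MP_edf6ee_al.CP
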