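import Pool.Agent.Work.MP_edf6ee_al.CP.Stmts

set_option autoImplicit false

namespace Pool.Agent.Work.MP_edf6ee_al.CP

theorem pr_NU (hWF : S_WF) (hMR : S_MR) (hCL1 : S_CL1) (hCL2 : S_CL2) : S_NU := by
  intro R _ N _ _ hG hNM φ hφ hφ0
  by_contra hcon
  have huni : ∀ α ∈ D1 R N, ∀ β ∈ D1 R N, α ≤ φ → β ≤ φ → α ⊓ β = ⊥ → α ≠ ⊥ → β ≠ ⊥ → False :=
    fun α hα β hβ h1 h2 h3 h4 h5 => hcon ⟨α, hα, β, hβ, h4, h5, h1, h2, h3⟩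
  obtain ⟨hbot, htop, hinf, hsup, hst⟩ := hCL1 R N
  obtain ⟨ψs, hψs, φs, hφs, hlt, hWFp⟩ := hWF R N hG
  obtain ⟨a, haφ, haψ, Pa⟩ := hMR R N hG ψs hψs φs hφs (not_le_of_gt hlt)
  obtain ⟨b, hbφ, hb0, Pb⟩ := hMR R N hG ⊥ hbot φ hφ (fun h => hφ0 (le_bot_iff.1 h))
  obtain ⟨B0, hB0, h1, h2⟩ := hG.link b (fun h => hb0 (AddSubgroup.mem_bot.2 h)) ψs hψs a haψ
  obtain ⟨B1, hB1, hcut1⟩ := (hCL2 R N B0 hB0).cut φ hφ φs hφs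
  obtain ⟨κ0, hκ0, hcoker⟩ := (hCL2 R N B1 hB1).coker
  have haκ : a ∉ κ0 ⊔ ψs := by
    intro h
    obtain ⟨x1, hx1, x2, hx2, hx⟩ := AddSubgroup.mem_sup.1 h
    have h3 : ((0 : N), x1) ∈ B0 := ((hcut1 _ _).1 ((hcoker _).1 hx1)).1
    have h4 := B0.sub_mem h1 h3
    refine h2 x2 hx2 ?_
    have h5 : (b, a) - ((0 : N), x1) = (b, x2) := by
      rw [← hx]
      simp
    rwa [h5] at h4
  obtain ⟨φ', hφ', haφ', hφ'κ⟩ := Pa (κ0 ⊔ ψs) (hsup _ hκ0 _ hψs) haκ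
  obtain ⟨B, hB, hcut⟩ := (hCL2 R N B1 hB1).cut ⊤ htop φ' hφ'
  have hstar : ∀ x, ((0 : N), x) ∈ B → x ∈ ψs := by
    intro x hx
    have h3 := (hcut _ _).1 hx
    refine hφ'κ ⟨h3.2.2, ?_⟩
    exact (le_sup_left : κ0 ≤ κ0 ⊔ ψs) ((hcoker _).2 h3.1)
  have hBφ : ∀ y x, (y, x) ∈ B → y ∈ φ ∧ x ∈ φs := fun y x h =>
    ((hcut1 _ _).1 ((hcut _ _).1 h).1).2
  have hBB0 : ∀ y x, (y, x) ∈ B → (y, x) ∈ B0 := fun y x h =>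
    ((hcut1 _ _).1 ((hcut _ _).1 h).1).1
  have hba : (b, a) ∈ B := (hcut _ _).2
    ⟨(hcut1 _ _).2 ⟨h1, hbφ, haφ⟩, AddSubgroup.mem_top _, haφ'⟩
  obtain ⟨ε, hε, hεm⟩ := (hCL2 R N B hB).pre ψs hψs
  have hεbot : ε = ⊥ := by
    have hbε : b ∉ ε := by
      intro h
      obtain ⟨y, hy, hyB⟩ := (hεm _).1 h
      exact h2 y hy (hBB0 _ _ hyB)
    obtain ⟨C, hC, hbC, hCε⟩ := Pb ε hε hbε
    by_contra hne
    refine huni (C ⊓ φ) (hinf _ hC _ hφ) ε hε inf_le_right ?_ ?_ ?_ hne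
    · intro y hy
      obtain ⟨x, _, hx⟩ := (hεm _).1 hy
      exact (hBφ _ _ hx).1
    · rw [eq_bot_iff]
      intro y hy
      exact hCε ⟨hy.1.1, hy.2⟩
    · intro h
      have : b ∈ C ⊓ φ := ⟨hbC, hbφ⟩
      rw [h] at this
      exact hb0 this
  obtain ⟨ρB, hρB, hrng⟩ := (hCL2 R N B hB).rng
  have hφ1 : ρB ⊔ ψs ∈ D1 R N := hsup _ hρB _ hψs
  have hφ1le : ρB ⊔ ψs ≤ φs := by
    refine sup_le ?_ hlt.le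
    intro x hx
    obtain ⟨y, hy⟩ := (hrng _).1 hx
    exact (hBφ _ _ hy).2
  have hltφ1 : ψs < ρB ⊔ ψs := by
    refine lt_of_le_of_ne le_sup_right ?_
    intro h
    apply haψ
    rw [h]
    exact (le_sup_left : ρB ≤ ρB ⊔ ψs) ((hrng _).2 ⟨b, hba⟩)
  have hmin := hNM ψs hψs (ρB ⊔ ψs) hφ1
  have hex : ∃ ψ' ∈ D1 R N, ψs < ψ' ∧ ψ' < ρB ⊔ ψs := by
    by_contra hne
    apply hmin
    refine ⟨hltφ1, fun ξ hξ h3 h4 => ?_⟩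
    by_contra h5
    rw [not_or] at h5
    exact hne ⟨ξ, hξ, lt_of_le_of_ne h3 (Ne.symm h5.1), lt_of_le_of_ne h4 h5.2⟩
  obtain ⟨ψ', hψ', hl1, hl2⟩ := hex
  obtain ⟨ξ, hξ, hξ1, hξ2, hξ3, hξ4⟩ := hWFp ψ' hψ' (ρB ⊔ ψs) hφ1 hl1.le hl2 hφ1le
  obtain ⟨A1, hA1, hA1m⟩ := (hCL2 R N B hB).pre ξ hξ
  obtain ⟨A2, hA2, hA2m⟩ := (hCL2 R N B hB).pre ψ' hψ'
  -- a general nonvanishing statement
  have hnv : ∀ χ A : AddSubgroup N, ψs ≤ χ → χ ≤ ρB ⊔ ψs → ¬ χ ≤ ψs →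
      (∀ y, y ∈ A ↔ ∃ x ∈ χ, (y, x) ∈ B) → A ≠ ⊥ := by
    intro χ A hc1 hc2 hc3 hAm hA
    apply hc3
    intro x hx
    obtain ⟨x1, hx1, s, hs, hxs⟩ := AddSubgroup.mem_sup.1 (hc2 hx)
    obtain ⟨y, hy⟩ := (hrng _).1 hx1
    have hx1χ : x1 ∈ χ := by
      have : x1 = x - s := by rw [← hxs]; abel
      rw [this]
      exact χ.sub_mem hx (hc1 hs)
    have hyA : y ∈ A := (hAm _).2 ⟨x1, hx1χ, hy⟩
    rw [hA, AddSubgroup.mem_bot] at hyA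
    subst hyA
    rw [← hxs]
    exact ψs.add_mem (hstar _ hy) hs
  refine huni A1 hA1 A2 hA2 ?_ ?_ ?_ (hnv ξ A1 hξ1 hξ2 hξ4 hA1m)
    (hnv ψ' A2 hl1.le hl2.le (not_le_of_gt hl1) hA2m)
  · intro y hy
    obtain ⟨x, _, hx⟩ := (hA1m _).1 hy
    exact (hBφ _ _ hx).1
  · intro y hy
    obtain ⟨x, _, hx⟩ := (hA2m _).1 hy
    exact (hBφ _ _ hx).1
  · rw [eq_bot_iff]
    intro y hy
    obtain ⟨x, hxξ, hx⟩ := (hA1m _).1 hy.1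
    obtain ⟨x', hxψ, hx'⟩ := (hA2m _).1 hy.2
    have h3 : ((0 : N), x - x') ∈ B := by
      have h4 := B.sub_mem hx hx'
      simpa using h4
    have h4 : x - x' ∈ ψs := hstar _ h3
    have h5 : x ∈ ψ' := by
      have : x = (x - x') + x' := by abel
      rw [this]
      exact ψ'.add_mem (hl1.le h4) hxψ
    have h6 : x ∈ ψs := hξ3 ⟨hxξ, h5⟩
    have h7 : y ∈ ε := (hεm _).2 ⟨x, h6, hx⟩
    rwa [hεbot] at h7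

end Pool.Agent.Work.MP_edf6ee_al.CP
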