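import Pool.Agent.Work.MP_edf6ee_al.CP.Stmts

/-!
# MP_edf6ee_al, closed points, item PAC: algebraically compact implies pure-injective
-/

set_option autoImplicit false

namespace Pool.Agent.Work.MP_edf6ee_al.CP

open scoped BigOperators

theorem PAC_sum {R : Type} [Ring R] {M I : Type} [AddCommGroup M] [Module R M] (x : I → M)
    (w : I →₀ R) : (w.sum fun i r => r • x i) = Finsupp.linearCombination R x w := rfl

theorem pr_PAC : S_PAC := by
  classical
  intro R _ M _ _ hAC B _ _ f hf hpure
  -- the system
  let E : Type := {w : B →₀ R // Finsupp.linearCombination R (id : B → B) w = 0} ⊕ M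
  let row : E → (B →₀ R) := Sum.elim (fun w => w.1) (fun m => Finsupp.single (f m) 1)
  let rhs : E → M := Sum.elim (fun _ => 0) (fun m => m)
  have hrow : ∀ e : E, Finsupp.linearCombination R (id : B → B) (row e) = f (rhs e) := by
    rintro (w | m)
    · show Finsupp.linearCombination R (id : B → B) w.1 = f 0
      rw [w.2, map_zero]
    · show Finsupp.linearCombination R (id : B → B) (Finsupp.single (f m) 1) = f m
      rw [Finsupp.linearCombination_single, one_smul, id]
  obtain ⟨x, hx⟩ := hAC B E row rhs (by
    intro s
    -- the finite set of unknowns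
    let u : Finset B := s.biUnion fun e => (row e).support
    let e1 := u.equivFin
    let e2 := s.equivFin
    obtain ⟨z, hz⟩ := hpure s.card u.card
      (fun i l => row (e2.symm i) (e1.symm l)) (fun i => rhs (e2.symm i))
      ⟨fun l => (e1.symm l : B), by
        intro i
        rw [← hrow]
        rw [Finsupp.linearCombination_apply, Finsupp.sum_of_support_subset (s := u)]
        · rw [← Finset.sum_coe_sort u fun b => row (e2.symm i) b • id b]
          exact Equiv.sum_comp e1.symm (fun b : u => row (e2.symm i) b • (b : B))
        · exact Finset.subset_biUnion_of_mem (fun e => (row e).support) (e2.symm i).2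
        · intro b _
          rw [zero_smul]⟩
    refine ⟨fun b => if hb : b ∈ u then z (e1 ⟨b, hb⟩) else 0, fun e he => ?_⟩
    rw [Finsupp.sum_of_support_subset (s := u)]
    · rw [← Finset.sum_coe_sort u fun b => row e b •
        (if hb : b ∈ u then z (e1 ⟨b, hb⟩) else 0)]
      have h1 := hz (e2 ⟨e, he⟩)
      simp only [Equiv.symm_apply_apply] at h1
      rw [← h1, ← Equiv.sum_comp e1.symm]
      refine Finset.sum_congr rfl fun l _ => ?_
      rw [dif_pos (e1.symm l).2]
      simp
    · exact Finset.subset_biUnion_of_mem (fun e => (row e).support) he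
    · intro b _
      rw [zero_smul])
  -- the linear map
  have hker : ∀ w : B →₀ R, Finsupp.linearCombination R (id : B → B) w = 0 →
      Finsupp.linearCombination R x w = 0 := fun w hw => hx (Sum.inl ⟨w, hw⟩)
  refine ⟨{ toFun := x, map_add' := ?_, map_smul' := ?_ }, ?_⟩
  · intro b b'
    have h1 := hker (Finsupp.single (b + b') 1 - Finsupp.single b 1 - Finsupp.single b' 1) (by
      simp only [map_sub, Finsupp.linearCombination_single, one_smul, id]
      abel)
    simp only [map_sub, Finsupp.linearCombination_single, one_smul] at h1
    rw [sub_sub, sub_eq_zero] at h1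
    exact h1
  · intro r b
    have h1 := hker (Finsupp.single (r • b) 1 - Finsupp.single b r) (by
      simp only [map_sub, Finsupp.linearCombination_single, one_smul, id]
      abel)
    simp only [map_sub, Finsupp.linearCombination_single, one_smul] at h1
    rw [sub_eq_zero] at h1
    exact h1
  · ext m
    have h1 := hx (Sum.inr m)
    have h2 : Finsupp.linearCombination R x (Finsupp.single (f m) 1) = m := h1
    rw [Finsupp.linearCombination_single, one_smul] at h2
    exact h2

end Pool.Agent.Work.MP_edf6ee_al.CP
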