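import Pool.Agent.Work.MP_edf6ee_al.CP.Stmts

set_option autoImplicit false

namespace Pool.Agent.Work.MP_edf6ee_al.CP

open scoped BigOperators

/-- the formula `x = 0` -/
def REAL_Z (R : Type) [Ring R] : PP R 1 := ⟨1, 0, fun _ _ => 1, fun _ _ => 0⟩

theorem REAL_Z_sat (R : Type) [Ring R] (M : Type) [AddCommGroup M] [Module R M] (x : Fin 1 → M) :
    (REAL_Z R).Sat M x ↔ x 0 = 0 := by
  simp [REAL_Z, PP.Sat]

theorem pr_REAL (hRP : S_RP) (hDDAC : S_DDAC) (hDD : S_DD) (hHM : S_HM) (hPAC : S_PAC)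
    (hBAS : S_BAS) (hFRM : S_FRM) (hSUB : S_SUB) (hCL1 : S_CL1) : S_REAL := by
  intro R _ N _ _ hClosed p hTS hIrr hbotp
  set P : Set (PP R 1) := {φ | ∃ A ∈ p, ∀ x, x ∈ A ↔ φ.Sat N (fun _ => x)} with hP
  have hPA : ∀ (φ : PP R 1) (A : AddSubgroup N), (∀ x, x ∈ A ↔ φ.Sat N (fun _ => x)) →
      (φ ∈ P ↔ A ∈ p) := by
    intro φ A hA
    constructor
    · rintro ⟨A', hA', hA'φ⟩
      have : A' = A := by
        ext x
        rw [hA'φ, hA]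
      rwa [← this]
    · intro h
      exact ⟨A, h, hA⟩
  obtain ⟨M, iM1, iM2, a, haP, hdef⟩ := hRP R N P
    (by
      obtain ⟨φ, hφ⟩ := hTS.sub hTS.top
      exact ⟨φ, ⊤, hTS.top, hφ⟩)
    (by
      rintro φ ⟨A, hA, hAφ⟩ ψ hψ
      obtain ⟨B, hB, hBψ⟩ := (hSUB R N).1 ψ
      by_contra hcon
      push Not at hcon
      apply hψ
      refine ⟨B, hTS.up A hA B hB ?_, hBψ⟩
      intro x hx
      exact (hBψ x).2 (hcon x ((hAφ x).1 hx)))
    (by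
      rintro φ₁ ⟨A₁, hA₁, hAφ₁⟩ φ₂ ⟨A₂, hA₂, hAφ₂⟩
      obtain ⟨φ, hφ⟩ := hTS.sub (hTS.inf A₁ hA₁ A₂ hA₂)
      refine ⟨φ, ⟨A₁ ⊓ A₂, hTS.inf A₁ hA₁ A₂ hA₂, hφ⟩, fun x hx => ?_⟩
      have h1 := (hφ x).2 hx
      exact ⟨(hAφ₁ x).1 h1.1, (hAφ₂ x).1 h1.2⟩)
  -- the double dual
  have hb : ∀ φ : PP R 1, φ.Sat (DD M) (fun _ => toDD R M a) ↔ φ ∈ P := by
    intro φ
    rw [haP]
    constructor
    · intro h
      exact (hDD R M).2 1 φ (fun _ => a) h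
    · intro h
      exact (hBAS R 1 φ M).2.2.2 (DD M) (toDD R M) _ h
  set b : DD M := toDD R M a with hbdef
  have hbne : b ≠ 0 := by
    intro hb0
    have h1 : (REAL_Z R).Sat (DD M) (fun _ => b) := by
      rw [REAL_Z_sat]; exact hb0
    rw [hb] at h1
    have h2 := (hPA (REAL_Z R) ⊥ (by
      intro x
      rw [REAL_Z_sat]; simp)).1 h1
    exact hbotp h2
  obtain ⟨H, iH1, iH2, i, π, a', hπi, hia', hHI, hHAC⟩ := hHM R (DD M) (hDDAC R M) b hbne (by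
    intro A hA B hB hbA hbB
    obtain ⟨α, hα⟩ := hA
    obtain ⟨β, hβ⟩ := hB
    obtain ⟨AN, hAN, hANα⟩ := (hSUB R N).1 α
    obtain ⟨BN, hBN, hBNβ⟩ := (hSUB R N).1 β
    have hα' : AN ∉ p := by
      intro h
      apply hbA
      rw [hα, hb]
      exact ⟨AN, h, hANα⟩
    have hβ' : BN ∉ p := by
      intro h
      apply hbB
      rw [hβ, hb]
      exact ⟨BN, h, hBNβ⟩
    obtain ⟨C, hCp, hC⟩ := hIrr AN hAN BN hBN hα' hβ'
    obtain ⟨γ, hγ⟩ := hTS.sub hCp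
    obtain ⟨σ1, hσ1⟩ := (hFRM R γ α).1
    obtain ⟨σ2, hσ2⟩ := (hFRM R γ β).1
    obtain ⟨σ, hσ⟩ := (hFRM R σ1 σ2).2
    obtain ⟨C2, hC2, hC2γ⟩ := (hSUB R (DD M)).1 γ
    have hσP : σ ∉ P := by
      intro h
      apply hC
      rw [← hPA σ]
      · exact h
      · intro x
        rw [AddSubgroup.mem_sup, hσ]
        constructor
        · rintro ⟨y, hy, z, hz, hyz⟩
          refine ⟨y, z, hyz.symm, ?_, ?_⟩
          · rw [hσ1]; exact ⟨(hγ y).1 hy.1, (hANα y).1 hy.2⟩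
          · rw [hσ2]; exact ⟨(hγ z).1 hz.1, (hBNβ z).1 hz.2⟩
        · rintro ⟨y, z, hyz, hy, hz⟩
          rw [hσ1] at hy
          rw [hσ2] at hz
          exact ⟨y, ⟨(hγ y).2 hy.1, (hANα y).2 hy.2⟩, z, ⟨(hγ z).2 hz.1, (hBNβ z).2 hz.2⟩, hyz.symm⟩
    refine ⟨C2, hC2, ?_, ?_⟩
    · rw [hC2γ, hb]
      exact ⟨C, hCp, hγ⟩
    · intro hmem
      apply hσP
      rw [← hb, hσ]
      rw [AddSubgroup.mem_sup] at hmem
      obtain ⟨y, hy, z, hz, hyz⟩ := hmem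
      refine ⟨y, z, hyz.symm, ?_, ?_⟩
      · rw [hσ1]; exact ⟨(hC2γ y).1 hy.1, (hα y).1 hy.2⟩
      · rw [hσ2]; exact ⟨(hC2γ z).1 hz.1, (hβ z).1 hz.2⟩)
  have hHP : PInj R H := hPAC R H hHAC
  have hiso : Nonempty (H ≃ₗ[R] N) := by
    by_contra hcon
    rw [not_nonempty_iff] at hcon
    obtain ⟨φ, ψ, ⟨x, hx1, hx2⟩, hN⟩ := hClosed H hHI hHP hcon
    have hN' : ∀ x : Fin 1 → N, φ.Sat N x → ψ.Sat N x := by
      intro x hx
      have e : x = fun _ => x 0 := by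
        ext j; fin_cases j; rfl
      rw [e] at hx ⊢
      exact hN _ hx
    have hM' := hdef 1 φ ψ hN'
    have hM2' := (hDD R M).1 1 φ ψ hM'
    apply hx2
    have h1 : φ.Sat (DD M) (fun _ => i x) := (hBAS R 1 φ H).2.2.2 (DD M) i _ hx1
    have h2 := hM2' _ h1
    have h3 := (hBAS R 1 ψ (DD M)).2.2.2 H π _ h2
    simpa [hπi] using h3
  obtain ⟨e⟩ := hiso
  refine ⟨e a', fun A hA => ?_⟩
  obtain ⟨α, hα⟩ := hA
  rw [← hPA α A hα, ← hb, hα]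
  constructor
  · intro h
    have h1 := (hBAS R 1 α (DD M)).2.2.2 H π _ h
    have h2 : α.Sat H (fun _ => a') := by
      have : (fun _ : Fin 1 => π b) = fun _ => a' := by
        ext j
        rw [← hia', hπi]
      rwa [this] at h1
    exact (hBAS R 1 α H).2.2.2 N e.toLinearMap _ h2
  · intro h
    have h1 := (hBAS R 1 α N).2.2.2 H e.symm.toLinearMap _ h
    have h2 : α.Sat H (fun _ => a') := by
      have : (fun _ : Fin 1 => e.symm.toLinearMap (e a')) = fun _ => a' := by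
        ext j
        simp
      rwa [this] at h1
    have h3 := (hBAS R 1 α H).2.2.2 (DD M) i _ h2
    rw [hia'] at h3
    exact h3

end Pool.Agent.Work.MP_edf6ee_al.CP
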