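import Pool.Agent.Work.MP_edf6ee_al.CP.Stmts

/-! Item RES1: the maximal ideal of the centre attached to an indecomposable module. -/

set_option autoImplicit false

namespace Pool.Agent.Work.MP_edf6ee_al.CP

/-- annihilator of `N` in `K` -/
def RES1_J (K : Type) [CommRing K] (R : Type) [Ring R] [Algebra K R]
    (N : Type) [AddCommGroup N] [Module R N] : Ideal K where
  carrier := {k | ∀ x : N, algebraMap K R k • x = 0}
  add_mem' := by
    intro a b ha hb x
    rw [map_add, add_smul, ha x, hb x, add_zero]
  zero_mem' := by
    intro x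
    rw [map_zero, zero_smul]
  smul_mem' := by
    intro c a ha x
    rw [smul_eq_mul, map_mul, mul_smul, ha x, smul_zero]

theorem RES1_key (K : Type) [CommRing K] [IsArtinianRing K] (R : Type) [Ring R] [Algebra K R]
    (N : Type) [AddCommGroup N] [Module R N] (hN : Indec R N) (k : K) :
    (∃ n : ℕ, k ^ n ∈ RES1_J K R N) ∨ (∀ x : N, algebraMap K R k • x = 0 → x = 0) := by
  obtain ⟨n0, y, hy⟩ := IsArtinian.exists_pow_succ_smul_dvd k (1 : K)
  simp only [smul_eq_mul, mul_one, Nat.succ_eq_add_one] at hy
  -- `k ^ n = k ^ (n + 1) * y` with `n = n0 + 1`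
  set n := n0 + 1 with hn
  have hy1 : k ^ n = k ^ (n + 1) * y := by
    have : k ^ n = k * k ^ n0 := by rw [hn, pow_succ]; ring
    rw [this, ← hy]
    rw [hn]
    ring
  have hy2 : ∀ j : ℕ, k ^ n = k ^ n * (k ^ j * y ^ j) := by
    intro j
    induction j with
    | zero => simp
    | succ j ih =>
      calc k ^ n = k ^ (n + 1) * y := hy1
        _ = (k ^ n) * (k * y) := by ring
        _ = (k ^ n * (k ^ j * y ^ j)) * (k * y) := by rw [← ih]
        _ = k ^ n * (k ^ (j + 1) * y ^ (j + 1)) := by ring
  set e : K := k ^ n * y ^ n with he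
  have hke : k ^ n * e = k ^ n := (hy2 n).symm
  have hee : e * e = e := by
    calc e * e = (k ^ n * e) * y ^ n := by rw [he]; ring
      _ = e := by rw [hke]
  let p : Submodule R N :=
    { carrier := {x | algebraMap K R e • x = x}
      add_mem' := by
        intro a b ha hb
        simp only [Set.mem_ofPred_eq] at ha hb ⊢
        rw [smul_add, ha, hb]
      zero_mem' := by simp
      smul_mem' := by
        intro c x hx
        simp only [Set.mem_ofPred_eq] at hx ⊢
        rw [← mul_smul, Algebra.commutes, mul_smul, hx] }
  let q : Submodule R N :=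
    { carrier := {x | algebraMap K R e • x = 0}
      add_mem' := by
        intro a b ha hb
        simp only [Set.mem_ofPred_eq] at ha hb ⊢
        rw [smul_add, ha, hb, add_zero]
      zero_mem' := by simp
      smul_mem' := by
        intro c x hx
        simp only [Set.mem_ofPred_eq] at hx ⊢
        rw [← mul_smul, Algebra.commutes, mul_smul, hx, smul_zero] }
  have hp : ∀ x : N, x ∈ p ↔ algebraMap K R e • x = x := fun x => Iff.rfl
  have hq : ∀ x : N, x ∈ q ↔ algebraMap K R e • x = 0 := fun x => Iff.rfl
  have hpe : ∀ x : N, algebraMap K R e • x ∈ p := by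
    intro x
    rw [hp, ← mul_smul, ← map_mul, hee]
  have hc : IsCompl p q := by
    constructor
    · rw [Submodule.disjoint_def]
      intro x hx hx'
      rw [hp] at hx
      rw [hq] at hx'
      rw [← hx, hx']
    · rw [codisjoint_iff, eq_top_iff]
      intro x _
      rw [Submodule.mem_sup]
      refine ⟨algebraMap K R e • x, hpe x, x - algebraMap K R e • x, ?_, by abel⟩
      rw [hq, smul_sub, ← mul_smul, ← map_mul, hee, sub_self]
  rcases hN.2 p q hc with h | h
  · left
    refine ⟨n, fun x => ?_⟩
    have h0 : algebraMap K R e • x = 0 := by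
      have := hpe x
      rw [h, Submodule.mem_bot] at this
      exact this
    rw [← hke, map_mul, mul_smul, h0, smul_zero]
  · right
    intro x hx
    have hxq : x ∈ q := by
      rw [hq]
      have : e = (k ^ n0 * y ^ n) * k := by rw [he, hn]; ring
      rw [this, map_mul, mul_smul, hx, smul_zero]
    rw [h, Submodule.mem_bot] at hxq
    exact hxq

theorem pr_RES1 : S_RES1 := by
  intro K _ _ R _ _ _ N _ _ hN
  set J := RES1_J K R N with hJ
  have hkey := RES1_key K R N hN
  have hmJ : ∀ k : K, k ∈ J ↔ ∀ x : N, algebraMap K R k • x = 0 := fun k => Iff.rfl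
  have hinj : ∀ k : K, k ∉ J.radical → ∀ x : N, algebraMap K R k • x = 0 → x = 0 := by
    intro k hk
    rcases hkey k with ⟨n, hn⟩ | h
    · exact absurd (Ideal.mem_radical_iff.mpr ⟨n, hn⟩) hk
    · exact h
  have hnt : Nontrivial N := hN.1
  have hone : (1 : K) ∉ J := by
    intro h
    obtain ⟨x, hx⟩ := exists_ne (0 : N)
    apply hx
    have := h x
    rwa [map_one, one_smul] at this
  have hprime : J.radical.IsPrime := by
    constructor
    · intro h
      apply hone
      rw [Ideal.radical_eq_top] at h
      rw [h]
      trivial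
    · intro k l hkl
      by_contra hcon
      push Not at hcon
      obtain ⟨n, hn⟩ := Ideal.mem_radical_iff.mp hkl
      have hk := hinj k hcon.1
      have hl := hinj l hcon.2
      have hpow : ∀ (j : ℕ) (x : N), algebraMap K R ((k * l) ^ j) • x = 0 → x = 0 := by
        intro j
        induction j with
        | zero => intro x hx; rwa [pow_zero, map_one, one_smul] at hx
        | succ j ih =>
          intro x hx
          rw [pow_succ, map_mul, mul_smul] at hx
          have h1 := ih _ hx
          rw [map_mul, mul_smul] at h1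
          exact hl x (hk _ h1)
      obtain ⟨x, hx⟩ := exists_ne (0 : N)
      exact hx (hpow n x (hn x))
  have hmax : J.radical.IsMaximal := by
    have := hprime
    exact IsArtinianRing.isMaximal_of_isPrime J.radical
  obtain ⟨t, ht⟩ := Ideal.exists_radical_pow_le_of_fg J (IsNoetherian.noetherian J.radical)
  exact ⟨J.radical, hmax, hinj, t, fun k hk x => ht hk x⟩

end Pool.Agent.Work.MP_edf6ee_al.CP
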