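import Pool.Agent.Work.MP_edf6ee_al.CP.Stmts

set_option autoImplicit false

namespace Pool.Agent.Work.MP_edf6ee_al.CP

open Cardinal

/-- the kernel of the action -/
def RES2_I (K : Type) [CommRing K] (R : Type) [Ring R] [Algebra K R]
    (N : Type) [AddCommGroup N] [Module R N] : Submodule K R where
  carrier := {r | ∀ x : N, r • x = 0}
  add_mem' := by
    intro a b ha hb x
    rw [add_smul, ha x, hb x, add_zero]
  zero_mem' := fun x => zero_smul R x
  smul_mem' := by
    intro k r h x
    rw [Algebra.smul_def, mul_smul, h x, smul_zero]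

theorem RES2_card (K : Type) [CommRing K] (m : Ideal K) (t : ℕ) (hm : m.IsMaximal)
    (Q : Type) [AddCommGroup Q] [Module K Q] (hQ : IsFiniteLength K Q)
    (hk : ∀ k ∈ m ^ t, ∀ x : Q, k • x = 0) :
    Cardinal.mk Q ≤ max ℵ₀ (Cardinal.mk (K ⧸ m)) := by
  induction hQ with
  | of_subsingleton =>
    refine le_trans ?_ (le_max_left _ _)
    exact (Cardinal.le_one_iff_subsingleton.mpr inferInstance).trans Cardinal.one_lt_aleph0.le
  | @of_simple_quotient M _ _ N' hs hN' ih =>
    have ih' := ih (fun k hkm x => by
      apply Subtype.ext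
      exact hk k hkm x.1)
    obtain ⟨m', hm', ⟨e⟩⟩ := isSimpleModule_iff_quot_maximal.mp hs
    have hle : m ^ t ≤ m' := by
      intro k hkm
      have h1 : k • (Ideal.Quotient.mk m' 1) = 0 := by
        obtain ⟨y, hy⟩ := e.surjective (Ideal.Quotient.mk m' 1)
        obtain ⟨z, rfl⟩ := Submodule.Quotient.mk_surjective _ y
        rw [← hy, ← e.map_smul, ← Submodule.Quotient.mk_smul, hk k hkm z]
        simp
      have h2 : Ideal.Quotient.mk m' k = 0 := by
        have : k • (Ideal.Quotient.mk m' 1) = Ideal.Quotient.mk m' k := by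
          rw [← Ideal.Quotient.mk_eq_mk, ← Submodule.Quotient.mk_smul, smul_eq_mul, mul_one]
          rfl
        rw [← this, h1]
      exact Ideal.Quotient.eq_zero_iff_mem.mp h2
    have hmm : m ≤ m' := hm'.isPrime.le_of_pow_le hle
    have hme : m = m' := hm.eq_of_le hm'.ne_top hmm
    have h3 : Cardinal.mk (M ⧸ N') = Cardinal.mk (K ⧸ m) := by
      rw [hme]
      exact Cardinal.mk_congr e.toEquiv
    let out : (M ⧸ N') → M := Function.surjInv (Submodule.Quotient.mk_surjective N')
    have hout : ∀ y, (Submodule.Quotient.mk (out y) : M ⧸ N') = y :=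
      Function.surjInv_eq (Submodule.Quotient.mk_surjective N')
    let f : M → (M ⧸ N') × N' := fun x =>
      (Submodule.Quotient.mk x, ⟨x - out (Submodule.Quotient.mk x), by
        rw [← Submodule.Quotient.eq, hout]⟩)
    have hf : Function.Injective f := by
      intro x y hxy
      have h1 : (Submodule.Quotient.mk x : M ⧸ N') = Submodule.Quotient.mk y :=
        congrArg Prod.fst hxy
      have h2 : x - out (Submodule.Quotient.mk x) = y - out (Submodule.Quotient.mk y) :=
        congrArg (fun z => (Prod.snd z).1) hxy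
      rw [h1] at h2
      exact sub_left_injective h2
    have h4 := Cardinal.mk_le_of_injective hf
    rw [Cardinal.mk_prod, Cardinal.lift_id, Cardinal.lift_id] at h4
    refine h4.trans (Cardinal.mul_le_of_le (le_max_left _ _) ?_ ih')
    rw [h3]
    exact le_max_right _ _

theorem pr_RES2 : S_RES2 := by
  intro K _ _ R _ _ _ N _ _ m t hm hk
  set I := RES2_I K R N with hI
  have hfl : IsFiniteLength K (R ⧸ I) := by
    rw [isFiniteLength_iff_isNoetherian_isArtinian]
    exact ⟨inferInstance, inferInstance⟩
  have hkill : ∀ k ∈ m ^ t, ∀ x : R ⧸ I, k • x = 0 := by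
    intro k hkm x
    obtain ⟨r, rfl⟩ := Submodule.Quotient.mk_surjective _ x
    rw [← Submodule.Quotient.mk_smul, Submodule.Quotient.mk_eq_zero]
    intro y
    rw [Algebra.smul_def, mul_smul]
    exact hk k hkm _
  have hc := RES2_card K m t hm (R ⧸ I) hfl hkill
  refine le_trans ?_ hc
  let g : (Set.range fun (r : R) (x : N) => r • x) → R ⧸ I := fun f =>
    Submodule.Quotient.mk f.2.choose
  have hg : Function.Injective g := by
    intro f f' h
    apply Subtype.ext
    have h1 := f.2.choose_spec
    have h2 := f'.2.choose_spec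
    have h3 := (Submodule.Quotient.eq _).mp h
    rw [← h1, ← h2]
    funext x
    have h4 := h3 x
    rw [sub_smul] at h4
    exact sub_eq_zero.mp h4
  exact Cardinal.mk_le_of_injective hg

end Pool.Agent.Work.MP_edf6ee_al.CP
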