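import Pool.Agent.Work.MP_edf6ee_al.CP.Stmts

/-!
# Item RET: retracts of algebraically compact modules are algebraically compact
-/

set_option autoImplicit false

namespace Pool.Agent.Work.MP_edf6ee_al.CP

theorem RET_map {R A B I : Type} [Ring R] [AddCommGroup A] [Module R A] [AddCommGroup B]
    [Module R B] (f : A →ₗ[R] B) (v : I →₀ R) (x : I → A) :
    f (v.sum fun i r => r • x i) = v.sum fun i r => r • f (x i) := by
  unfold Finsupp.sum
  rw [map_sum]
  exact Finset.sum_congr rfl fun i _ => map_smul f _ _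

theorem pr_RET : S_RET := by
  intro R _ M H _ _ _ _ i π hπ hM I E row rhs hfin
  obtain ⟨x, hx⟩ := hM I E row (fun e => i (rhs e)) (by
    intro s
    obtain ⟨x, hx⟩ := hfin s
    refine ⟨fun j => i (x j), fun e he => ?_⟩
    rw [← RET_map, hx e he])
  refine ⟨fun j => π (x j), fun e => ?_⟩
  rw [← RET_map, hx e, hπ]

end Pool.Agent.Work.MP_edf6ee_al.CP
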