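import Pool.Agent.Work.MP_edf6ee_al.CP.Stmts

/-!
# MP_edf6ee_al, closed points, item RP: reduced products realise consistent types
-/

set_option autoImplicit false

namespace Pool.Agent.Work.MP_edf6ee_al.CP

open scoped BigOperators

section

variable {R : Type} [Ring R] {N : Type} [AddCommGroup N] [Module R N] {ι : Type}

/-- the functions which vanish eventually -/
def RP_K (R : Type) [Ring R] (N : Type) [AddCommGroup N] [Module R N] (F : Filter ι) :
    Submodule R (ι → N) where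
  carrier := {f | ∀ᶠ i in F, f i = 0}
  add_mem' := by
    intro f g hf hg
    filter_upwards [hf, hg] with i h1 h2
    rw [Pi.add_apply, h1, h2, add_zero]
  zero_mem' := Filter.Eventually.of_forall fun _ => rfl
  smul_mem' := by
    intro r f hf
    filter_upwards [hf] with i h1
    rw [Pi.smul_apply, h1, smul_zero]

theorem RP_mem {F : Filter ι} {f : ι → N} : f ∈ RP_K R N F ↔ ∀ᶠ i in F, f i = 0 := Iff.rfl

/-- Lemma 1 -/
theorem RP_sat (F : Filter ι) {n : ℕ} (θ : PP R n) (f : Fin n → ι → N) :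
    θ.Sat ((ι → N) ⧸ RP_K R N F) (fun j => Submodule.Quotient.mk (f j)) ↔
      ∀ᶠ i in F, θ.Sat N (fun j => f j i) := by
  classical
  constructor
  · rintro ⟨y, hy⟩
    have hg : ∀ l, ∃ g : ι → N, (Submodule.Quotient.mk g : (ι → N) ⧸ RP_K R N F) = y l :=
      fun l => Submodule.Quotient.mk_surjective _ (y l)
    choose g hg using hg
    have h1 : ∀ i, (∑ j, θ.C i j • f j + ∑ l, θ.D i l • g l) ∈ RP_K R N F := by
      intro i
      rw [← Submodule.Quotient.mk_eq_zero]
      rw [← hy i, ← Submodule.mkQ_apply, map_add, map_sum, map_sum]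
      simp only [map_smul, Submodule.mkQ_apply, hg]
    have h2 : ∀ᶠ z in F, ∀ i, (∑ j, θ.C i j • f j + ∑ l, θ.D i l • g l) z = 0 :=
      Filter.eventually_all.mpr fun i => RP_mem.mp (h1 i)
    filter_upwards [h2] with z hz
    refine ⟨fun l => g l z, fun i => ?_⟩
    have h3 := hz i
    rw [Pi.add_apply, Finset.sum_apply, Finset.sum_apply] at h3
    simpa only [Pi.smul_apply] using h3
  · intro h
    let g : Fin θ.k → ι → N := fun l z =>
      if hz : θ.Sat N (fun j => f j z) then hz.choose l else 0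
    refine ⟨fun l => Submodule.Quotient.mk (g l), fun i => ?_⟩
    have h1 : (∑ j, θ.C i j • f j + ∑ l, θ.D i l • g l) ∈ RP_K R N F := by
      rw [RP_mem]
      filter_upwards [h] with z hz
      rw [Pi.add_apply, Finset.sum_apply, Finset.sum_apply]
      simp only [Pi.smul_apply]
      have h2 : ∀ l, g l z = hz.choose l := fun l => dif_pos hz
      simp only [h2]
      exact hz.choose_spec i
    rw [← Submodule.Quotient.mk_eq_zero] at h1
    rw [← h1, ← Submodule.mkQ_apply, map_add, map_sum, map_sum]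
    simp only [map_smul, Submodule.mkQ_apply]

/-- Lemma 2 -/
theorem RP_prod {A : Type} {Q : Type} [AddCommGroup Q] [Module R Q] {n : ℕ} (θ : PP R n)
    (x : Fin n → A → Q) : θ.Sat (A → Q) x ↔ ∀ a, θ.Sat Q (fun j => x j a) := by
  constructor
  · rintro ⟨y, hy⟩ a
    refine ⟨fun l => y l a, fun i => ?_⟩
    have h3 := congrFun (hy i) a
    rw [Pi.add_apply, Finset.sum_apply, Finset.sum_apply] at h3
    simpa only [Pi.smul_apply, Pi.zero_apply] using h3
  · intro h
    choose y hy using h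
    refine ⟨fun l a => y a l, fun i => ?_⟩
    funext a
    rw [Pi.add_apply, Finset.sum_apply, Finset.sum_apply]
    simpa only [Pi.smul_apply, Pi.zero_apply] using hy a i

end

theorem pr_RP (_ : S_BAS) : S_RP := by
  classical
  intro R _ N _ _ p hne hcons hdir
  -- the filter
  let F : Filter p :=
    { sets := {s | ∃ φ₀ : p, ∀ φ : p, (∀ z : N, φ.1.Sat N (fun _ => z) →
        φ₀.1.Sat N (fun _ => z)) → φ ∈ s}
      univ_sets := ⟨⟨hne.choose, hne.choose_spec⟩, fun _ _ => Set.mem_univ _⟩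
      sets_of_superset := by
        rintro s t ⟨φ₀, h⟩ hst
        exact ⟨φ₀, fun φ hφ => hst (h φ hφ)⟩
      inter_sets := by
        rintro s t ⟨φ₀, h⟩ ⟨φ₁, h'⟩
        obtain ⟨φ, hφ, hφ'⟩ := hdir φ₀ φ₀.2 φ₁ φ₁.2
        exact ⟨⟨φ, hφ⟩, fun θ hθ => ⟨h θ fun z hz => (hφ' z (hθ z hz)).1,
          h' θ fun z hz => (hφ' z (hθ z hz)).2⟩⟩ }
  have hF : ∀ P : p → Prop, (∀ᶠ φ in F, P φ) ↔ ∃ φ₀ : p, ∀ φ : p,
      (∀ z : N, φ.1.Sat N (fun _ => z) → φ₀.1.Sat N (fun _ => z)) → P φ := fun _ => Iff.rfl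
  -- the elements
  have hx : ∀ ψ : {ψ : PP R 1 // ψ ∉ p}, ∀ φ : p, ∃ x : N, φ.1.Sat N (fun _ => x) ∧
      ¬ ψ.1.Sat N (fun _ => x) := fun ψ φ => hcons φ φ.2 ψ ψ.2
  choose x hx1 hx2 using hx
  refine ⟨{ψ : PP R 1 // ψ ∉ p} → ((p → N) ⧸ RP_K R N F), inferInstance, inferInstance,
    fun ψ => Submodule.Quotient.mk (x ψ), ?_, ?_⟩
  · intro φ
    rw [RP_prod]
    have key : ∀ ψ : {ψ : PP R 1 // ψ ∉ p},
        φ.Sat ((p → N) ⧸ RP_K R N F) (fun _ => Submodule.Quotient.mk (x ψ)) ↔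
          ∀ᶠ φ' in F, φ.Sat N (fun _ => x ψ φ') := fun ψ => RP_sat F φ (fun _ => x ψ)
    constructor
    · intro hφ ψ
      rw [key, hF]
      exact ⟨⟨φ, hφ⟩, fun φ' h => h _ (hx1 ψ φ')⟩
    · intro h
      by_contra hφ
      have h1 := h ⟨φ, hφ⟩
      rw [key, hF] at h1
      obtain ⟨φ₀, h2⟩ := h1
      exact hx2 ⟨φ, hφ⟩ φ₀ (h2 φ₀ fun _ hz => hz)
  · intro n φ ψ himp y hy
    rw [RP_prod] at hy ⊢
    intro a
    have hf : ∀ j, ∃ f : p → N, (Submodule.Quotient.mk f : (p → N) ⧸ RP_K R N F) = y j a :=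
      fun j => Submodule.Quotient.mk_surjective _ (y j a)
    choose f hf using hf
    have h1 : φ.Sat ((p → N) ⧸ RP_K R N F) (fun j => Submodule.Quotient.mk (f j)) := by
      simp only [hf]
      exact hy a
    have h2 : ψ.Sat ((p → N) ⧸ RP_K R N F) (fun j => Submodule.Quotient.mk (f j)) := by
      rw [RP_sat] at h1 ⊢
      filter_upwards [h1] with i hi
      exact himp _ hi
    simp only [hf] at h2
    exact h2

end Pool.Agent.Work.MP_edf6ee_al.CP
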