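import Pool.Agent.Work.MP_edf6ee_al.CP.Stmts

/-!
# MP_edf6ee_al, closed points: item SL (helper27)
-/

set_option autoImplicit false

namespace Pool.Agent.Work.MP_edf6ee_al.CP

theorem pr_SL (hCL1 : S_CL1) (hCL2 : S_CL2) : S_SL := by
  intro R _ N _ _ hG η hη ξ hξ hmin a ha
  obtain ⟨hlt, hmin⟩ := hmin
  obtain ⟨b, hb, hbη⟩ := SetLike.exists_of_lt hlt
  obtain ⟨B0, hB0, hab, hay⟩ := hG.link a ha η hη b hbη
  obtain ⟨_, htop, _, hsup, _⟩ := hCL1 R N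
  obtain ⟨B, hB, hBm⟩ := (hCL2 R N B0 hB0).cut ⊤ htop ξ hξ
  have hc := hCL2 R N B hB
  obtain ⟨ψ, hψ, hψm⟩ := hc.pre η hη
  obtain ⟨φ, hφ, hφm⟩ := hc.dom
  have haφ : a ∈ φ := (hφm a).2 ⟨b, (hBm a b).2 ⟨hab, AddSubgroup.mem_top a, hb⟩⟩
  have haψ : a ∉ ψ := fun h => by
    obtain ⟨y, hy, hy'⟩ := (hψm a).1 h
    exact hay y hy ((hBm a y).1 hy').1
  have hle : ψ ≤ φ := fun x hx => by
    obtain ⟨y, _, hy'⟩ := (hψm x).1 hx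
    exact (hφm x).2 ⟨y, hy'⟩
  refine ⟨ψ, hψ, φ, hφ, haψ, haφ, lt_of_le_of_ne hle (fun h => haψ (h ▸ haφ)), ?_⟩
  intro θ hθ hψθ hθφ
  obtain ⟨τ0, hτ0, hτm⟩ := hc.img θ hθ
  have hτ : τ0 ⊔ η ∈ D1 R N := hsup τ0 hτ0 η hη
  have h1 : τ0 ⊔ η ≤ ξ := by
    refine sup_le (fun y hy => ?_) hlt.le
    obtain ⟨x, _, hxy⟩ := (hτm y).1 hy
    exact ((hBm x y).1 hxy).2.2
  rcases hmin (τ0 ⊔ η) hτ le_sup_right h1 with h | h
  · left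
    refine le_antisymm (fun x hx => ?_) hψθ
    obtain ⟨y, hxy⟩ := (hφm x).1 (hθφ hx)
    refine (hψm x).2 ⟨y, ?_, hxy⟩
    rw [← h]
    exact AddSubgroup.mem_sup_left ((hτm y).2 ⟨x, hx, hxy⟩)
  · right
    refine le_antisymm hθφ (fun x hx => ?_)
    obtain ⟨y, hxy⟩ := (hφm x).1 hx
    have hy : y ∈ τ0 ⊔ η := by
      rw [h]
      exact ((hBm x y).1 hxy).2.2
    obtain ⟨y1, hy1, y2, hy2, hy12⟩ := AddSubgroup.mem_sup.1 hy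
    obtain ⟨x1, hx1, hxy1⟩ := (hτm y1).1 hy1
    have h2 : (x - x1, y2) ∈ B := by
      have h3 := B.sub_mem hxy hxy1
      have h4 : ((x, y) : N × N) - (x1, y1) = (x - x1, y2) := by
        rw [Prod.mk_sub_mk, ← hy12, add_sub_cancel_left]
      rw [h4] at h3
      exact h3
    have h5 : x - x1 ∈ θ := hψθ ((hψm _).2 ⟨y2, hy2, h2⟩)
    have h6 := θ.add_mem h5 hx1
    rwa [sub_add_cancel] at h6

end Pool.Agent.Work.MP_edf6ee_al.CP
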