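import Pool.Agent.Work.MP_edf6ee_al.CP.Stmts

/-!
# MP_edf6ee_al, closed points, item SOC: all types of elements are neg-isolated
-/

set_option autoImplicit false

namespace Pool.Agent.Work.MP_edf6ee_al.CP

theorem pr_SOC (hMR : S_MR) (hCL1 : S_CL1) (hCL2 : S_CL2) : S_SOC := by
  intro R _ N _ _ hG a ha
  obtain ⟨hbot, htop, hinf, -, -⟩ := hCL1 R N
  have : Nontrivial N := hG.nt
  have htb : ¬ (⊤ : AddSubgroup N) ≤ ⊥ := by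
    intro h
    obtain ⟨x, hx⟩ := exists_ne (0 : N)
    exact hx (AddSubgroup.mem_bot.mp (h (AddSubgroup.mem_top x)))
  obtain ⟨b, -, hb0, hb⟩ := hMR R N hG ⊥ hbot ⊤ htop htb
  obtain ⟨B₀, hB₀, hab, h0⟩ := hG.link a ha ⊥ hbot b hb0
  have ha0 : (a, (0 : N)) ∉ B₀ := h0 0 (AddSubgroup.zero_mem _)
  obtain ⟨A₁, hA₁, hA₁'⟩ := (hCL2 R N B₀ hB₀).coker
  have hbA : b ∉ A₁ := by
    rw [hA₁']
    intro h
    apply ha0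
    have := AddSubgroup.sub_mem _ hab h
    simpa using this
  obtain ⟨χ, hχ, hbχ, hχA⟩ := hb A₁ hA₁ hbA
  obtain ⟨B, hB, hB'⟩ := (hCL2 R N B₀ hB₀).cut ⊤ htop χ hχ
  have habB : (a, b) ∈ B := (hB' a b).mpr ⟨hab, AddSubgroup.mem_top a, hbχ⟩
  have hB0 : ∀ y, ((0 : N), y) ∈ B → y = 0 := by
    intro y hy
    obtain ⟨h1, -, h2⟩ := (hB' 0 y).mp hy
    exact AddSubgroup.mem_bot.mp (hχA ⟨h2, (hA₁' y).mpr h1⟩)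
  obtain ⟨η, hη, hη'⟩ := (hCL2 R N B hB).ker
  refine ⟨η, hη, ?_, ?_⟩
  · rw [hη']
    intro h
    exact ha0 ((hB' a 0).mp h).1
  intro ζ hζ haζ
  have haη : a ∉ η := by
    rw [hη']
    intro h
    exact ha0 ((hB' a 0).mp h).1
  obtain ⟨φ₀, hφ₀, haφ, hsum⟩ := hG.irr a ζ hζ η hη haζ haη
  obtain ⟨τ, hτ, hτ'⟩ := (hCL2 R N B hB).img (φ₀ ⊓ ζ) (hinf _ hφ₀ _ hζ)
  have hbτ : b ∉ τ := by
    rw [hτ']
    rintro ⟨x, hx, hxb⟩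
    apply hsum
    have h1 : (a - x, (0 : N)) ∈ B := by
      have := AddSubgroup.sub_mem _ habB hxb
      simpa using this
    have h2 : a = x + (a - x) := by abel
    rw [h2]
    refine AddSubgroup.add_mem_sup hx ⟨?_, ?_⟩
    · exact AddSubgroup.sub_mem _ haφ hx.1
    · exact (hη' _).mpr h1
  obtain ⟨χ', hχ', hbχ', hχτ⟩ := hb τ hτ hbτ
  obtain ⟨φ₁, hφ₁, hφ₁'⟩ := (hCL2 R N B hB).pre χ' hχ'
  refine ⟨φ₁ ⊓ φ₀, hinf _ hφ₁ _ hφ₀, ⟨(hφ₁' a).mpr ⟨b, hbχ', habB⟩, haφ⟩, ?_⟩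
  rintro x ⟨⟨hx1, hx2⟩, hx3⟩
  obtain ⟨y, hy, hxy⟩ := (hφ₁' x).mp hx1
  have hyτ : y ∈ τ := (hτ' y).mpr ⟨x, ⟨hx2, hx3⟩, hxy⟩
  have hy0 : y = 0 := AddSubgroup.mem_bot.mp (hχτ ⟨hy, hyτ⟩)
  exact (hη' x).mpr (hy0 ▸ hxy)

end Pool.Agent.Work.MP_edf6ee_al.CP
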