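import Pool.Agent.Work.MP_edf6ee_al.CP.Stmts

/-!
# TREE: a tree of maximal elements
-/

set_option autoImplicit false

namespace Pool.Agent.Work.MP_edf6ee_al.CP

theorem pr_TREE (hBR : S_BR) (hMAX : S_MAX) (hCL1 : S_CL1) : S_TREE := by
  intro R _ N _ _ hG hNM Λ ρ hρ1 hρ2
  classical
  obtain ⟨hbot, htop, hinf, hsup, hend⟩ := hCL1 R N
  have : Nontrivial N := hG.nt
  have hst : ∀ φ : {φ : AddSubgroup N // φ ∈ D1 R N ∧ φ ≠ ⊥},
      ∃ V : Λ → {φ : AddSubgroup N // φ ∈ D1 R N ∧ φ ≠ ⊥},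
        (∀ l, (V l).1 ≤ φ.1) ∧ ∀ l m, l ≠ m → (V l).1 ⊓ (V m).1 = ⊥ := by
    intro φ
    obtain ⟨V, h1, h2⟩ := hBR R N hG hNM Λ ρ hρ1 hρ2 φ.1 φ.2.1 φ.2.2
    exact ⟨fun l => ⟨V l, (h1 l).1, (h1 l).2.1⟩, fun l => (h1 l).2.2, h2⟩
  choose st hst1 hst2 using hst
  let Φ : (ℕ → Λ) → ℕ → {φ : AddSubgroup N // φ ∈ D1 R N ∧ φ ≠ ⊥} := fun f n =>
    Nat.rec ⟨⊤, htop, top_ne_bot⟩ (fun n φ => st φ (f n)) n
  have hΦs : ∀ f n, Φ f (n + 1) = st (Φ f n) (f n) := fun f n => rfl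
  have hanti : ∀ f n m, n ≤ m → (Φ f m).1 ≤ (Φ f n).1 := by
    intro f n m hnm
    induction hnm with
    | refl => exact le_refl _
    | step h ih => exact le_trans (hst1 _ _) ih
  have hagree : ∀ f g : ℕ → Λ, ∀ n, (∀ m, m < n → f m = g m) → Φ f n = Φ g n := by
    intro f g n
    induction n with
    | zero => intro _; rfl
    | succ n ih =>
      intro h
      rw [hΦs, hΦs, ih (fun m hm => h m (by omega)), h n (by omega)]
  -- the elements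
  have hb : ∀ f : ℕ → Λ, ∃ b : N, (∀ n, b ∈ (Φ f n).1) ∧ MaxEl R N b := by
    intro f
    have hT : TS R N {B | B ∈ D1 R N ∧ ∃ n, (Φ f n).1 ≤ B} := by
      refine ⟨fun B hB => hB.1, ⟨htop, 0, le_top⟩, ?_, ?_⟩
      · rintro A ⟨hA, n, hn⟩ B hB hAB
        exact ⟨hB, n, hn.trans hAB⟩
      · rintro A ⟨hA, n, hn⟩ B ⟨hB, m, hm⟩
        refine ⟨hinf A hA B hB, max n m, le_inf ?_ ?_⟩
        · exact (hanti f n _ (le_max_left _ _)).trans hn
        · exact (hanti f m _ (le_max_right _ _)).trans hm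
    obtain ⟨p, hp1, hp2, hp3, hp4, hp5⟩ := hMAX R N {B | B ∈ D1 R N ∧ ∃ n, (Φ f n).1 ≤ B} {⊥} hT
      (by intro B hB; rw [Set.mem_singleton_iff] at hB; rw [hB]; exact hbot)
      ⟨⊥, rfl⟩
      (by
        intro α hα β hβ
        rw [Set.mem_singleton_iff] at hα hβ
        exact ⟨⊥, rfl, by rw [hα, hβ]; simp⟩)
      (by
        rintro ω hω ⟨_, n, hn⟩
        rw [Set.mem_singleton_iff] at hω
        rw [hω] at hn
        exact (Φ f n).2.2 (le_bot_iff.1 hn))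
    have hpb : (⊥ : AddSubgroup N) ∉ p := hp4 ⊥ rfl
    obtain ⟨b, hb⟩ := hG.real p hp1 hp2 hpb
    refine ⟨b, fun n => ?_, ?_, ?_⟩
    · exact (hb _ (Φ f n).2.1).1 (hp3 ⟨(Φ f n).2.1, n, le_refl _⟩)
    · intro h0
      apply hpb
      rw [hb ⊥ hbot, h0]
      exact AddSubgroup.zero_mem _
    · intro A hA hbA
      obtain ⟨φ, hφ, ω, hω, h⟩ := hp5 A hA (fun h => hbA ((hb A hA).1 h))
      rw [Set.mem_singleton_iff] at hω
      rw [hω] at h
      exact ⟨φ, hp1.sub hφ, (hb φ (hp1.sub hφ)).1 hφ, le_bot_iff.1 h⟩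
  choose b hb1 hb2 using hb
  refine ⟨b, ?_, hb2⟩
  intro f g hfg
  by_contra hne
  have hex : ∃ n, f n ≠ g n := by
    by_contra h
    push Not at h
    exact hne (funext h)
  have h1 : f (Nat.find hex) ≠ g (Nat.find hex) := Nat.find_spec hex
  have h2 : ∀ m, m < Nat.find hex → f m = g m := fun m hm => not_not.1 (Nat.find_min hex hm)
  have h3 := hagree f g _ h2
  have h4 := hb1 f (Nat.find hex + 1)
  have h5 := hb1 g (Nat.find hex + 1)
  rw [hΦs] at h4 h5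
  rw [← hfg, ← h3] at h5
  have h6 : b f ∈ (st (Φ f (Nat.find hex)) (f (Nat.find hex))).1 ⊓
      (st (Φ f (Nat.find hex)) (g (Nat.find hex))).1 := ⟨h4, h5⟩
  rw [hst2 _ _ _ h1] at h6
  exact (hb2 f).1 h6

end Pool.Agent.Work.MP_edf6ee_al.CP
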