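import Pool.Agent.Work.MP_edf6ee_al.CP.Stmts

/-!
# MP_edf6ee_al, item W (helper31)
-/

set_option autoImplicit false

namespace Pool.Agent.Work.MP_edf6ee_al.CP

theorem pr_W (hMAX : S_MAX) (hSOC : S_SOC) (hCL1 : S_CL1) : S_W := by
  intro R _ N _ _ hG φ ψ hφ hψ hdec hinc hlt hess
  obtain ⟨hbot, htop, hinf, hsup, -⟩ := hCL1 R N
  have hanti : Antitone φ := antitone_nat_of_succ_le hdec
  have hmono : Monotone ψ := monotone_nat_of_le_succ hinc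
  -- the filter
  have hTS : TS R N {B | B ∈ D1 R N ∧ ∃ n, φ n ≤ B} :=
    { sub := fun B hB => hB.1
      top := ⟨htop, 0, le_top⟩
      up := fun A hA B hB hAB => ⟨hB, hA.2.imp fun n hn => hn.trans hAB⟩
      inf := by
        rintro A ⟨hA, n, hn⟩ B ⟨hB, m, hm⟩
        exact ⟨hinf A hA B hB, max n m,
          le_inf ((hanti (le_max_left n m)).trans hn) ((hanti (le_max_right n m)).trans hm)⟩ }
  have hnot : ∀ m n, ¬ φ n ≤ ψ m := by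
    intro m n h
    have h1 : φ (max n m) ≤ ψ (max n m) :=
      (hanti (le_max_left n m)).trans (h.trans (hmono (le_max_right n m)))
    exact absurd h1 (not_le_of_gt (hlt _))
  obtain ⟨p, hp, hpi, hp0, hpΩ, hpmax⟩ := hMAX R N {B | B ∈ D1 R N ∧ ∃ n, φ n ≤ B} (Set.range ψ)
    hTS (by rintro _ ⟨n, rfl⟩; exact hψ n) ⟨ψ 0, 0, rfl⟩
    (by
      rintro _ ⟨n, rfl⟩ _ ⟨m, rfl⟩
      exact ⟨ψ (max n m), ⟨_, rfl⟩, sup_le (hmono (le_max_left n m)) (hmono (le_max_right n m))⟩)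
    (by
      rintro _ ⟨m, rfl⟩ ⟨_, n, hn⟩
      exact hnot m n hn)
  have hψp : ∀ n, ψ n ∉ p := fun n => hpΩ _ ⟨n, rfl⟩
  have hφp : ∀ n, φ n ∈ p := fun n => hp0 ⟨hφ n, n, le_rfl⟩
  have hbotp : ⊥ ∉ p := fun h => hψp 0 (hp.up _ h _ (hψ 0) bot_le)
  obtain ⟨a, ha⟩ := hG.real p hp hpi hbotp
  have ha0 : a ≠ 0 := by
    rintro rfl
    exact hbotp ((ha ⊥ hbot).2 (AddSubgroup.zero_mem _))
  obtain ⟨η, hη, haη, hsoc⟩ := hSOC R N hG a ha0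
  have hηp : η ∉ p := fun h => haη ((ha η hη).1 h)
  obtain ⟨C, hC, _, ⟨n, rfl⟩, hCn⟩ := hpmax η hη hηp
  have ha1 : a ∉ ψ (n + 1) := fun h => hψp (n + 1) ((ha _ (hψ _)).2 h)
  obtain ⟨C', hC', haC', hC'n⟩ := hsoc (ψ (n + 1)) (hψ _) ha1
  have hC'p : C' ∈ p := (ha C' hC').2 haC'
  have hD : C ⊓ C' ⊓ φ (n + 1) ∈ p := hp.inf _ (hp.inf _ hC _ hC'p) _ (hφp _)
  set D := C ⊓ C' ⊓ φ (n + 1) with hDdef
  have hD1 : D ⊓ ψ (n + 1) ≤ ψ n := by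
    refine le_trans ?_ hCn
    refine le_inf ?_ ?_
    · exact inf_le_left.trans (inf_le_left.trans inf_le_left)
    · refine le_trans ?_ hC'n
      exact le_inf (inf_le_left.trans (inf_le_left.trans inf_le_right)) inf_le_right
  have hDψ : D ⊔ ψ n ∈ D1 R N := hsup _ (hp.sub hD) _ (hψ n)
  have h1 : D ⊔ ψ n ≤ φ (n + 1) :=
    sup_le inf_le_right ((hinc n).trans (hlt (n + 1)).le)
  have h2 : (D ⊔ ψ n) ⊓ ψ (n + 1) ≤ ψ n := by
    rw [sup_comm, sup_inf_assoc_of_le D (hinc n)]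
    exact sup_le le_rfl hD1
  have h3 := hess n (D ⊔ ψ n) hDψ le_sup_right h1 h2
  exact hψp n (hp.up _ hD _ (hψ n) (le_sup_left.trans h3))

end Pool.Agent.Work.MP_edf6ee_al.CP
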