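import Pool.Agent.Work.MP_edf6ee_al.CP.Stmts

/-!
# Item WF: an interval without essential lower parts
-/

set_option autoImplicit false

namespace Pool.Agent.Work.MP_edf6ee_al.CP

theorem pr_WF (hW : S_W) (hCL1 : S_CL1) : S_WF := by
  intro R _ N _ _ hG
  obtain ⟨hbot, htop, -, -, -⟩ := hCL1 R N
  by_contra hcon
  push Not at hcon
  have step : ∀ q : {q : AddSubgroup N × AddSubgroup N // q.1 ∈ D1 R N ∧ q.2 ∈ D1 R N ∧ q.1 < q.2},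
      ∃ q' : {q : AddSubgroup N × AddSubgroup N // q.1 ∈ D1 R N ∧ q.2 ∈ D1 R N ∧ q.1 < q.2},
        q.1.1 ≤ q'.1.1 ∧ q'.1.2 ≤ q.1.2 ∧ ∀ ξ ∈ D1 R N, q.1.1 ≤ ξ → ξ ≤ q'.1.2 →
          ξ ⊓ q'.1.1 ≤ q.1.1 → ξ ≤ q.1.1 := by
    rintro ⟨⟨ψ, φ⟩, h1, h2, h3⟩
    obtain ⟨ψ', hψ', φ', hφ', h4, h5, h6, h7⟩ := hcon ψ h1 φ h2 h3
    exact ⟨⟨(ψ', φ'), hψ', hφ', h5⟩, h4, h6, h7⟩
  choose f hf1 hf2 hf3 using step
  haveI := hG.nt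
  have hlt : (⊥ : AddSubgroup N) < ⊤ := bot_lt_top
  let s : ℕ → {q : AddSubgroup N × AddSubgroup N // q.1 ∈ D1 R N ∧ q.2 ∈ D1 R N ∧ q.1 < q.2} :=
    fun n => Nat.rec ⟨(⊥, ⊤), hbot, htop, hlt⟩ (fun _ q => f q) n
  have hs : ∀ n, s (n + 1) = f (s n) := fun n => rfl
  refine hW R N hG (fun n => (s n).1.2) (fun n => (s n).1.1) (fun n => (s n).2.2.1)
    (fun n => (s n).2.1) (fun n => ?_) (fun n => ?_) (fun n => (s n).2.2.2) (fun n => ?_)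
  · show (s (n + 1)).1.2 ≤ (s n).1.2
    rw [hs]; exact hf2 _
  · show (s n).1.1 ≤ (s (n + 1)).1.1
    rw [hs]; exact hf1 _
  · show ∀ ξ ∈ D1 R N, (s n).1.1 ≤ ξ → ξ ≤ (s (n + 1)).1.2 → ξ ⊓ (s (n + 1)).1.1 ≤ (s n).1.1 →
      ξ ≤ (s n).1.1
    rw [hs]; exact hf3 _

end Pool.Agent.Work.MP_edf6ee_al.CP
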