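import Pool.Agent.Work.MP_edf6ee_al.CP.Stmts

set_option autoImplicit false

namespace Pool.Agent.Work.MP_edf6ee_al.CP

theorem pr_CNT (_hMR : S_MR) (hCL1 : S_CL1) (hCL2 : S_CL2) : S_CNT := by
  intro R _ N _ _ hG ι c hc hmax
  have := hG.nt
  obtain ⟨b, hb⟩ := exists_ne (0 : N)
  have hbot : (⊥ : AddSubgroup N) ∈ D1 R N := (hCL1 R N).1
  have htop : (⊤ : AddSubgroup N) ∈ D1 R N := (hCL1 R N).2.1
  have key : ∀ i, ∃ B ∈ D2 R N, (c i, b) ∈ B ∧ ∀ x, (x, b) ∈ B → x = c i := by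
    intro i
    obtain ⟨B0, hB0, h1, h2⟩ := hG.link (c i) (hmax i).1 ⊥ hbot b
      (fun h => hb (AddSubgroup.mem_bot.1 h))
    obtain ⟨K, hK, hKer⟩ := (hCL2 R N B0 hB0).ker
    obtain ⟨C, hC, hcC, hCK⟩ := (hmax i).2 K hK
      (fun h => h2 0 (AddSubgroup.zero_mem _) ((hKer _).1 h))
    obtain ⟨B', hB', hcut⟩ := (hCL2 R N B0 hB0).cut C hC ⊤ htop
    refine ⟨B', hB', (hcut _ _).2 ⟨h1, hcC, AddSubgroup.mem_top _⟩, fun x hx => ?_⟩
    have h3 := (hcut _ _).1 hx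
    have h4 : (x - c i, (0 : N)) ∈ B0 := by
      have h5 := B0.sub_mem h3.1 h1
      simpa using h5
    have h6 : x - c i ∈ C ⊓ K := ⟨C.sub_mem h3.2.1 hcC, (hKer _).2 h4⟩
    rw [hCK, AddSubgroup.mem_bot] at h6
    exact sub_eq_zero.1 h6
  choose B hB hcB huni using key
  refine Cardinal.mk_le_of_injective (f := fun i => (⟨B i, hB i⟩ : D2 R N)) ?_
  intro i j hij
  have hBB : B i = B j := congrArg Subtype.val hij
  apply hc
  apply huni j (c i)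
  rw [← hBB]
  exact hcB i

end Pool.Agent.Work.MP_edf6ee_al.CP
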