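import Pool.Agent.Work.MP_edf6ee_al.CP.Stmts

set_option autoImplicit false

namespace Pool.Agent.Work.MP_edf6ee_al.CP

theorem FU_mem (hCL1 : S_CL1) (R : Type) [Ring R] (N : Type) [AddCommGroup N] [Module R N]
    {φ : AddSubgroup N} (h : FinL R N φ) : φ ∈ D1 R N := by
  cases h with
  | bot => exact (hCL1 R N).1
  | step ψ φ' _ h2 _ _ => exact h2

theorem pr_FU (hCL1 : S_CL1) : S_FU := by
  intro R _ N _ _ φ hφ ψ hψ
  have hφD : φ ∈ D1 R N := FU_mem hCL1 R N hφ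
  obtain ⟨-, -, hinf, hsup, -⟩ := hCL1 R N
  induction hψ with
  | bot =>
    rw [sup_bot_eq]
    exact hφ
  | step ψ0 ψ1 h0 h1 hF hor ih =>
    refine FinL.step (φ ⊔ ψ0) (φ ⊔ ψ1) (hsup _ hφD _ h0) (hsup _ hφD _ h1) ih ?_
    rcases hor with h | ⟨hlt, hmin⟩
    · left
      rw [h]
    · by_cases he : φ ⊔ ψ0 = φ ⊔ ψ1
      · left
        exact he
      · right
        refine ⟨lt_of_le_of_ne (sup_le_sup_left hlt.le _) he, fun ξ hξ h2 h3 => ?_⟩
        have h4 : ψ0 ≤ ξ := le_sup_right.trans h2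
        have h5 : φ ≤ ξ := le_sup_left.trans h2
        rcases hmin (ξ ⊓ ψ1) (hinf _ hξ _ h1) (le_inf h4 hlt.le) inf_le_right with h6 | h6
        · left
          have h7 : φ ⊔ (ψ1 ⊓ ξ) = (φ ⊔ ψ1) ⊓ ξ := (sup_inf_assoc_of_le ψ1 h5).symm
          rw [inf_comm ψ1 ξ, h6, inf_eq_right.2 h3] at h7
          exact h7.symm
        · right
          exact le_antisymm h3 (sup_le h5 (inf_eq_right.1 h6))

end Pool.Agent.Work.MP_edf6ee_al.CP
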