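import Pool.Agent.Work.MP_edf6ee_al.CP.Stmts

set_option autoImplicit false

namespace Pool.Agent.Work.MP_edf6ee_al.CP

open scoped BigOperators

theorem NF_lin {R : Type} [Ring R] {M : Type} [AddCommGroup M] [Module R M] {d n k : ℕ}
    (C : Fin d → R) (A : Fin d → Fin n → R) (B : Fin d → Fin k → R) (x : Fin n → M)
    (y : Fin k → M) :
    ∑ j, C j • (∑ i, A j i • x i + ∑ l, B j l • y l)
      = ∑ i, (∑ j, C j * A j i) • x i + ∑ l, (∑ j, C j * B j l) • y l := by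
  simp only [smul_add, Finset.smul_sum, Finset.sum_add_distrib, Finset.sum_smul, mul_smul]
  congr 1
  · exact Finset.sum_comm
  · exact Finset.sum_comm

/-- block diagonal coefficients -/
def NF_D {R : Type} [Ring R] {m : ℕ} {d : Fin m → ℕ} (φ : ∀ e : Fin m, PP R (d e))
    (p : Σ e : Fin m, Fin (φ e).m) (q : Σ e : Fin m, Fin (φ e).k) : R :=
  if h : q.1 = p.1 then (φ p.1).D p.2 (h ▸ q.2) else 0

/-- all coefficients of the witnesses -/
def NF_E {R : Type} [Ring R] {k m : ℕ} {d : Fin m → ℕ} (φ : ∀ e : Fin m, PP R (d e))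
    (B : ∀ e : Fin m, Fin (d e) → Fin k → R)
    (p : Σ e : Fin m, Fin (φ e).m) (q : Fin k ⊕ (Σ e : Fin m, Fin (φ e).k)) : R :=
  Sum.elim (fun l => ∑ j, (φ p.1).C p.2 j * B p.1 j l) (fun q => NF_D φ p q) q

theorem NF_key {R : Type} [Ring R] {M : Type} [AddCommGroup M] [Module R M] {n k m : ℕ}
    {d : Fin m → ℕ} (φ : ∀ e : Fin m, PP R (d e)) (A : ∀ e : Fin m, Fin (d e) → Fin n → R)
    (B : ∀ e : Fin m, Fin (d e) → Fin k → R) (x : Fin n → M)
    (y : Fin k → M) (w : (Σ e : Fin m, Fin (φ e).k) → M) (p : Σ e : Fin m, Fin (φ e).m) :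
      ∑ j, (∑ j', (φ p.1).C p.2 j' * A p.1 j' j) • x j +
        ∑ q, NF_E φ B p q • (Sum.elim y w q : M)
      = ∑ j, (φ p.1).C p.2 j • (∑ i, A p.1 j i • x i + ∑ l, B p.1 j l • y l)
        + ∑ l, (φ p.1).D p.2 l • w ⟨p.1, l⟩ := by
  rw [NF_lin, Fintype.sum_sum_type]
  unfold NF_E
  simp only [Sum.elim_inl, Sum.elim_inr]
  rw [← add_assoc]
  congr 1
  rw [Fintype.sum_sigma]
  rw [Finset.sum_eq_single p.1]
  · refine Finset.sum_congr rfl fun l _ => ?_
    simp [NF_D]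
  · intro e _ he
    refine Finset.sum_eq_zero fun l _ => ?_
    simp [NF_D, he]
  · intro h
    exact absurd (Finset.mem_univ _) h

theorem pr_NF (hFT : S_FT) : S_NF := by
  classical
  intro R _ n k m d φ A B
  obtain ⟨ψ, hψ⟩ := hFT R n (Σ e : Fin m, Fin (φ e).m) (Fin k ⊕ (Σ e : Fin m, Fin (φ e).k))
    (fun p i => ∑ j, (φ p.1).C p.2 j * A p.1 j i) (NF_E φ B)
  refine ⟨ψ, ?_⟩
  intro M _ _ x
  rw [hψ M x]
  constructor
  · rintro ⟨yw, hyw⟩
    refine ⟨fun l => yw (Sum.inl l), fun e => ⟨fun l => yw (Sum.inr ⟨e, l⟩), fun i => ?_⟩⟩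
    have h := hyw ⟨e, i⟩
    have h2 := NF_key φ A B x (fun l => yw (Sum.inl l)) (fun q => yw (Sum.inr q)) ⟨e, i⟩
    have h3 : (Sum.elim (fun l => yw (Sum.inl l)) (fun q => yw (Sum.inr q))) = yw := by
      funext q
      cases q <;> rfl
    rw [h3] at h2
    rw [← h2]
    exact h
  · rintro ⟨y, hy⟩
    choose w hw using hy
    refine ⟨Sum.elim y (fun q => w q.1 q.2), fun p => ?_⟩
    have h2 := NF_key φ A B x y (fun q => w q.1 q.2) p
    rw [h2]
    exact hw p.1 p.2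

end Pool.Agent.Work.MP_edf6ee_al.CP
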