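import Pool.Agent.Work.MP_edf6ee_al.CP.Stmts

/-!
# Item SUB: solution sets are subgroups
-/

set_option autoImplicit false

namespace Pool.Agent.Work.MP_edf6ee_al.CP

theorem SUB_add {M : Type} [AddCommGroup M] (x y x' y' : M) :
    (![x + x', y + y'] : Fin 2 → M) = fun i => (![x, y] : Fin 2 → M) i + (![x', y'] : Fin 2 → M) i := by
  funext i
  fin_cases i <;> rfl

theorem SUB_neg {M : Type} [AddCommGroup M] (x y : M) :
    (![-x, -y] : Fin 2 → M) = fun i => -(![x, y] : Fin 2 → M) i := by
  funext i
  fin_cases i <;> rfl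

theorem SUB_zero {M : Type} [AddCommGroup M] :
    (![0, 0] : Fin 2 → M) = fun _ => 0 := by
  funext i
  fin_cases i <;> rfl

theorem pr_SUB (hBAS : S_BAS) : S_SUB := by
  intro R _ M _ _
  constructor
  · intro φ
    obtain ⟨h0, ha, hn, -⟩ := hBAS R 1 φ M
    let A : AddSubgroup M :=
      { carrier := {x | φ.Sat M (fun _ => x)}
        zero_mem' := h0
        add_mem' := fun {x y} hx hy => ha (fun _ => x) (fun _ => y) hx hy
        neg_mem' := fun {x} hx => hn (fun _ => x) hx }
    exact ⟨A, ⟨φ, fun x => Iff.rfl⟩, fun x => Iff.rfl⟩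
  · intro φ
    obtain ⟨h0, ha, hn, -⟩ := hBAS R 2 φ M
    let B : AddSubgroup (M × M) :=
      { carrier := {z | φ.Sat M ![z.1, z.2]}
        zero_mem' := by
          show φ.Sat M ![0, 0]
          rw [SUB_zero]
          exact h0
        add_mem' := by
          intro z z' hz hz'
          show φ.Sat M ![z.1 + z'.1, z.2 + z'.2]
          rw [SUB_add]
          exact ha _ _ hz hz'
        neg_mem' := by
          intro z hz
          show φ.Sat M ![-z.1, -z.2]
          rw [SUB_neg]
          exact hn _ hz }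
    exact ⟨B, ⟨φ, fun x y => Iff.rfl⟩, fun x y => Iff.rfl⟩

end Pool.Agent.Work.MP_edf6ee_al.CP
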