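import Pool.Agent.Work.MP_edf6ee_al.CP.Stmts

/-!
# MP_edf6ee_al, closed points: assembly
-/

set_option autoImplicit false

namespace Pool.Agent.Work.MP_edf6ee_al.CP

open scoped BigOperators Cardinal

theorem good_of (hACP : S_ACP) (hHP : S_HP) (hIRR : S_IRR) (hLINK : S_LINK) (hREAL : S_REAL)
    (R : Type) [Ring R] (N : Type) [AddCommGroup N] [Module R N]
    (hI : Indec R N) (hP : PInj R N) (hC : ClosedPt R N) : Good R N := by
  have hac := hACP R N hP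
  have hhp := hHP R N hI hac
  exact ⟨hI.1, hac, hhp, hIRR R N hac hhp, hLINK R N hac hhp, hREAL R N hC⟩

theorem main_of (hACP : S_ACP) (hHP : S_HP) (hIRR : S_IRR) (hLINK : S_LINK) (hREAL : S_REAL)
    (hF0 : S_F0) (hFL : S_FL) (hTREE : S_TREE) (hCNT : S_CNT) (hCARD : S_CARD)
    (hRES1 : S_RES1) (hRES2 : S_RES2) (hARITH : S_ARITH)
    (K : Type) [CommRing K] [IsArtinianRing K]
    (hK : ∀ m : Ideal K, m.IsMaximal → #(K ⧸ m) < #(K ⧸ m) ^ ℵ₀)
    (R : Type) [Ring R] [Algebra K R] [Module.Finite K R]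
    (N : Type) [AddCommGroup N] [Module R N]
    (hI : Indec R N) (hP : PInj R N) (hC : ClosedPt R N) :
    IsFiniteLength (Module.End R N) N := by
  have hG := good_of hACP hHP hIRR hLINK hREAL R N hI hP hC
  by_cases hmin : NoMin R N
  · exfalso
    obtain ⟨m, hm, hinj, t, ht⟩ := hRES1 K R N hI
    obtain ⟨s, hs⟩ := (Ideal.Quotient.mk_surjective (I := m)).hasRightInverse
    obtain ⟨b, hb, hmax⟩ := hTREE R N hG hmin (K ⧸ m) (fun l => algebraMap K R (s l))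
      (fun l r => Algebra.commutes _ _)
      (fun l l' hll x hx => by
        have hx' : algebraMap K R (s l - s l') • x = 0 := by
          rw [map_sub]; exact hx
        refine hinj _ ?_ x hx'
        intro hmem
        apply hll
        have := (Ideal.Quotient.eq (I := m)).2 hmem
        rwa [hs l, hs l'] at this)
    have h1 := hCNT R N hG ((ℕ → K ⧸ m)) b hb hmax
    have h2 := hCARD R N
    have h3 := hRES2 K R N m t hm ht
    have hnt : Nontrivial (K ⧸ m) := by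
      have := hm.ne_top
      exact Ideal.Quotient.nontrivial_iff.2 this
    exact hARITH (K ⧸ m) hnt (hK m hm) _ h3 (h1.trans h2)
  · unfold NoMin at hmin
    push Not at hmin
    obtain ⟨ψ, hψ, φ, hφ, hmp⟩ := hmin
    exact hFL R N hG.ac (hF0 R N hG ψ hψ φ hφ hmp)

/-- conversion of the closedness hypothesis of the frozen statement -/
theorem closedPt_of (R : Type) [Ring R] (N : Type) [AddCommGroup N] [Module R N]
    (h : ∀ (M : Type) [AddCommGroup M] [Module R M],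
      (Nontrivial M ∧ ∀ p q : Submodule R M, IsCompl p q → p = ⊥ ∨ q = ⊥) →
      (∀ (B : Type) [AddCommGroup B] [Module R B] (f : M →ₗ[R] B), Function.Injective f →
        (∀ (m n : ℕ) (H : Matrix (Fin m) (Fin n) R) (a : Fin m → M),
          (∃ y : Fin n → B, ∀ i, ∑ j, H i j • y j = f (a i)) →
          ∃ x : Fin n → M, ∀ i, ∑ j, H i j • x j = a i) →
        ∃ g : B →ₗ[R] M, g.comp f = LinearMap.id) →
      IsEmpty (M ≃ₗ[R] N) →
      ∃ (m₁ k₁ : ℕ) (c₁ : Fin m₁ → R) (D₁ : Matrix (Fin m₁) (Fin k₁) R)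
        (m₂ k₂ : ℕ) (c₂ : Fin m₂ → R) (D₂ : Matrix (Fin m₂) (Fin k₂) R),
        (∃ x : M, (∃ y : Fin k₁ → M, ∀ i, c₁ i • x + ∑ j, D₁ i j • y j = 0) ∧
           ¬ ∃ y : Fin k₂ → M, ∀ i, c₂ i • x + ∑ j, D₂ i j • y j = 0) ∧
        ∀ x : N, (∃ y : Fin k₁ → N, ∀ i, c₁ i • x + ∑ j, D₁ i j • y j = 0) →
           ∃ y : Fin k₂ → N, ∀ i, c₂ i • x + ∑ j, D₂ i j • y j = 0) :
    ClosedPt R N := by
  intro L _ _ hI hP hE
  obtain ⟨m₁, k₁, c₁, D₁, m₂, k₂, c₂, D₂, ⟨x, hx1, hx2⟩, hN⟩ := h L hI hP hE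
  refine ⟨⟨m₁, k₁, fun i _ => c₁ i, fun i j => D₁ i j⟩, ⟨m₂, k₂, fun i _ => c₂ i, fun i j => D₂ i j⟩,
    ⟨x, ?_, ?_⟩, ?_⟩
  · simpa [PP.Sat] using hx1
  · simpa [PP.Sat] using hx2
  · intro x hx
    have := hN x (by simpa [PP.Sat] using hx)
    simpa [PP.Sat] using this

/-- the final theorem in the shape of the frozen statement -/
theorem final_of (hACP : S_ACP) (hHP : S_HP) (hIRR : S_IRR) (hLINK : S_LINK) (hREAL : S_REAL)
    (hF0 : S_F0) (hFL : S_FL) (hTREE : S_TREE) (hCNT : S_CNT) (hCARD : S_CARD)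
    (hRES1 : S_RES1) (hRES2 : S_RES2) (hARITH : S_ARITH) :
  ∀ (K : Type) [CommRing K] [IsArtinianRing K],
    (∀ m : Ideal K, m.IsMaximal → #(K ⧸ m) < #(K ⧸ m) ^ ℵ₀) →
    ∀ (R : Type) [Ring R] [Algebra K R] [Module.Finite K R]
    (N : Type) [AddCommGroup N] [Module R N],
    (Nontrivial N ∧ ∀ p q : Submodule R N, IsCompl p q → p = ⊥ ∨ q = ⊥) →
    (∀ (B : Type) [AddCommGroup B] [Module R B] (f : N →ₗ[R] B), Function.Injective f →
      (∀ (m n : ℕ) (H : Matrix (Fin m) (Fin n) R) (a : Fin m → N),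
        (∃ y : Fin n → B, ∀ i, ∑ j, H i j • y j = f (a i)) →
        ∃ x : Fin n → N, ∀ i, ∑ j, H i j • x j = a i) →
      ∃ g : B →ₗ[R] N, g.comp f = LinearMap.id) →
    (∀ (M : Type) [AddCommGroup M] [Module R M],
      (Nontrivial M ∧ ∀ p q : Submodule R M, IsCompl p q → p = ⊥ ∨ q = ⊥) →
      (∀ (B : Type) [AddCommGroup B] [Module R B] (f : M →ₗ[R] B), Function.Injective f →
        (∀ (m n : ℕ) (H : Matrix (Fin m) (Fin n) R) (a : Fin m → M),
          (∃ y : Fin n → B, ∀ i, ∑ j, H i j • y j = f (a i)) →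
          ∃ x : Fin n → M, ∀ i, ∑ j, H i j • x j = a i) →
        ∃ g : B →ₗ[R] M, g.comp f = LinearMap.id) →
      IsEmpty (M ≃ₗ[R] N) →
      ∃ (m₁ k₁ : ℕ) (c₁ : Fin m₁ → R) (D₁ : Matrix (Fin m₁) (Fin k₁) R)
        (m₂ k₂ : ℕ) (c₂ : Fin m₂ → R) (D₂ : Matrix (Fin m₂) (Fin k₂) R),
        (∃ x : M, (∃ y : Fin k₁ → M, ∀ i, c₁ i • x + ∑ j, D₁ i j • y j = 0) ∧
           ¬ ∃ y : Fin k₂ → M, ∀ i, c₂ i • x + ∑ j, D₂ i j • y j = 0) ∧
        ∀ x : N, (∃ y : Fin k₁ → N, ∀ i, c₁ i • x + ∑ j, D₁ i j • y j = 0) →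
           ∃ y : Fin k₂ → N, ∀ i, c₂ i • x + ∑ j, D₂ i j • y j = 0) →
    IsFiniteLength (Module.End R N) N := by
  intro K _ _ hK R _ _ _ N _ _ hI hP hC
  exact main_of hACP hHP hIRR hLINK hREAL hF0 hFL hTREE hCNT hCARD hRES1 hRES2 hARITH
    K hK R N hI hP (closedPt_of R N hC)

end Pool.Agent.Work.MP_edf6ee_al.CP
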