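import Mathlib

/-!
# MP_edf6ee_al, closed points of the Ziegler spectrum: definitions

`PP R n` = pp formulas in `n` free variables over a ring `R` (left modules, everything in `Type`),
`D1 R N`, `D2 R N` = pp-definable subgroups of `N`, `N × N`.
-/

set_option autoImplicit false

namespace Pool.Agent.Work.MP_edf6ee_al.CP

open scoped BigOperators

/-- A pp formula `∃ y, ∀ i, ∑ j, C i j • x j + ∑ l, D i l • y l = 0`. -/
structure PP (R : Type) (n : ℕ) : Type where
  m : ℕ
  k : ℕ
  C : Fin m → Fin n → R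
  D : Fin m → Fin k → R

/-- truth of a pp formula in a module -/
def PP.Sat {R : Type} [Ring R] {n : ℕ} (φ : PP R n) (M : Type) [AddCommGroup M] [Module R M]
    (x : Fin n → M) : Prop :=
  ∃ y : Fin φ.k → M, ∀ i, ∑ j, φ.C i j • x j + ∑ l, φ.D i l • y l = 0

section modules

variable (R : Type) [Ring R] (M : Type) [AddCommGroup M] [Module R M]

/-- pp-definable subgroups -/
def D1 : Set (AddSubgroup M) :=
  {A | ∃ φ : PP R 1, ∀ x : M, x ∈ A ↔ φ.Sat M (fun _ => x)}

/-- pp-definable binary relations (additive) -/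
def D2 : Set (AddSubgroup (M × M)) :=
  {B | ∃ φ : PP R 2, ∀ x y : M, (x, y) ∈ B ↔ φ.Sat M ![x, y]}

/-- indecomposable (as in the frozen statement) -/
def Indec : Prop :=
  Nontrivial M ∧ ∀ p q : Submodule R M, IsCompl p q → p = ⊥ ∨ q = ⊥

/-- pure-injective (as in the frozen statement) -/
def PInj : Prop :=
  ∀ (B : Type) [AddCommGroup B] [Module R B] (f : M →ₗ[R] B), Function.Injective f →
    (∀ (m n : ℕ) (H : Matrix (Fin m) (Fin n) R) (a : Fin m → M),
      (∃ y : Fin n → B, ∀ i, ∑ j, H i j • y j = f (a i)) →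
      ∃ x : Fin n → M, ∀ i, ∑ j, H i j • x j = a i) →
    ∃ g : B →ₗ[R] M, g.comp f = LinearMap.id

/-- algebraically compact: every finitely solvable system of linear equations is solvable
(unknowns indexed by `I`, equations indexed by `E`) -/
def AC : Prop :=
  ∀ (I E : Type) (row : E → (I →₀ R)) (rhs : E → M),
    (∀ s : Finset E, ∃ x : I → M, ∀ e ∈ s, ((row e).sum fun i r => r • x i) = rhs e) →
    ∃ x : I → M, ∀ e, ((row e).sum fun i r => r • x i) = rhs e

/-- endomorphisms that are the identity on a nonzero generalised element are automorphisms -/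
def HPr : Prop :=
  ∀ ψ ∈ D1 R M, ∀ b : M, b ∉ ψ → ∀ h : Module.End R M, h b - b ∈ ψ → IsUnit h

/-- pp types of elements are irreducible -/
def IrrEl : Prop :=
  ∀ a : M, ∀ A ∈ D1 R M, ∀ B ∈ D1 R M, a ∉ A → a ∉ B →
    ∃ C ∈ D1 R M, a ∈ C ∧ a ∉ (C ⊓ A) ⊔ (C ⊓ B)

/-- linking of a nonzero element `a` with a generalised element `b mod η` -/
def LinkEl : Prop :=
  ∀ a : M, a ≠ 0 → ∀ η ∈ D1 R M, ∀ b : M, b ∉ η →
    ∃ B ∈ D2 R M, (a, b) ∈ B ∧ ∀ y ∈ η, (a, y) ∉ B

/-- closed point of the Ziegler spectrum (as in the frozen statement, with `PP R 1`) -/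
def ClosedPt : Prop :=
  ∀ (L : Type) [AddCommGroup L] [Module R L], Indec R L → PInj R L → IsEmpty (L ≃ₗ[R] M) →
    ∃ φ ψ : PP R 1, (∃ x : L, φ.Sat L (fun _ => x) ∧ ¬ ψ.Sat L (fun _ => x)) ∧
      ∀ x : M, φ.Sat M (fun _ => x) → ψ.Sat M (fun _ => x)

/-- `L` is in the definable closure of `M`: every pp implication true in `M` is true in `L` -/
def DefC (L : Type) [AddCommGroup L] [Module R L] : Prop :=
  ∀ (n : ℕ) (φ ψ : PP R n), (∀ x, φ.Sat M x → ψ.Sat M x) → ∀ x, φ.Sat L x → ψ.Sat L x

/-- a type: a filter of pp-definable subgroups of `M` -/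
structure TS (p : Set (AddSubgroup M)) : Prop where
  sub : p ⊆ D1 R M
  top : ⊤ ∈ p
  up : ∀ A ∈ p, ∀ B ∈ D1 R M, A ≤ B → B ∈ p
  inf : ∀ A ∈ p, ∀ B ∈ p, A ⊓ B ∈ p

/-- irreducible type -/
def Irr (p : Set (AddSubgroup M)) : Prop :=
  ∀ A ∈ D1 R M, ∀ B ∈ D1 R M, A ∉ p → B ∉ p → ∃ C ∈ p, (C ⊓ A) ⊔ (C ⊓ B) ∉ p

/-- every irreducible type not containing `⊥` is realised in `M` -/
def RealTS : Prop :=
  ∀ p : Set (AddSubgroup M), TS R M p → Irr R M p → ⊥ ∉ p →
    ∃ a : M, ∀ A ∈ D1 R M, (A ∈ p ↔ a ∈ A)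

/-- the properties of a closed point which are used in the lattice part -/
structure Good : Prop where
  nt : Nontrivial M
  ac : AC R M
  hp : HPr R M
  irr : IrrEl R M
  link : LinkEl R M
  real : RealTS R M

/-- elements whose pp type is a maximal proper filter -/
def MaxEl (b : M) : Prop :=
  b ≠ 0 ∧ ∀ A ∈ D1 R M, b ∉ A → ∃ B ∈ D1 R M, b ∈ B ∧ B ⊓ A = ⊥

/-- minimal pair -/
def MinPair (ψ φ : AddSubgroup M) : Prop :=
  ψ < φ ∧ ∀ ξ ∈ D1 R M, ψ ≤ ξ → ξ ≤ φ → ξ = ψ ∨ ξ = φ

/-- no minimal pair of pp-definable subgroups -/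
def NoMin : Prop :=
  ∀ ψ ∈ D1 R M, ∀ φ ∈ D1 R M, ¬ MinPair R M ψ φ

/-- `[⊥, φ]` has finite length in the lattice of pp-definable subgroups -/
inductive FinL : AddSubgroup M → Prop
  | bot : FinL ⊥
  | step (ψ φ : AddSubgroup M) : ψ ∈ D1 R M → φ ∈ D1 R M → FinL ψ →
      (ψ = φ ∨ MinPair R M ψ φ) → FinL φ

end modules

section dual

/-- the circle -/
abbrev Circ : Type := AddCircle (1 : ℝ)

/-- the double character group of `M` -/
def DD (M : Type) [AddCommGroup M] : Type := (M →+ Circ) →+ Circ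

noncomputable instance (M : Type) [AddCommGroup M] : AddCommGroup (DD M) :=
  inferInstanceAs (AddCommGroup ((M →+ Circ) →+ Circ))

variable (R : Type) [Ring R] (M : Type) [AddCommGroup M] [Module R M]

/-- precomposition with multiplication by `r` -/
noncomputable def preMul (r : R) : (M →+ Circ) →+ (M →+ Circ) where
  toFun χ := χ.comp (DistribSMul.toAddMonoidHom M r)
  map_zero' := by ext; rfl
  map_add' _ _ := by ext; rfl

noncomputable instance : Module R (DD M) where
  smul r z := (show (M →+ Circ) →+ Circ from z).comp (preMul R M r)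
  one_smul z := by
    refine DFunLike.ext (F := (M →+ Circ) →+ Circ) _ _ fun χ => ?_
    show (show (M →+ Circ) →+ Circ from z) (preMul R M 1 χ) = (show (M →+ Circ) →+ Circ from z) χ
    congr 1
    ext x
    show χ ((1 : R) • x) = χ x
    rw [one_smul]
  mul_smul r s z := by
    refine DFunLike.ext (F := (M →+ Circ) →+ Circ) _ _ fun χ => ?_
    show (show (M →+ Circ) →+ Circ from z) (preMul R M (r * s) χ)
      = (show (M →+ Circ) →+ Circ from z) (preMul R M s (preMul R M r χ))
    congr 1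
    ext x
    show χ ((r * s) • x) = χ (r • s • x)
    rw [mul_smul]
  smul_zero r := rfl
  smul_add r z w := rfl
  add_smul r s z := by
    refine DFunLike.ext (F := (M →+ Circ) →+ Circ) _ _ fun χ => ?_
    show (show (M →+ Circ) →+ Circ from z) (preMul R M (r + s) χ)
      = (show (M →+ Circ) →+ Circ from z) (preMul R M r χ)
        + (show (M →+ Circ) →+ Circ from z) (preMul R M s χ)
    rw [← map_add]
    congr 1
    ext x
    show χ ((r + s) • x) = χ (r • x) + χ (s • x)
    rw [add_smul, map_add]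
  zero_smul z := by
    refine DFunLike.ext (F := (M →+ Circ) →+ Circ) _ _ fun χ => ?_
    show (show (M →+ Circ) →+ Circ from z) (preMul R M 0 χ) = 0
    have : preMul R M 0 χ = 0 := by
      ext x
      show χ ((0 : R) • x) = 0
      rw [zero_smul, map_zero]
    rw [this, map_zero]

/-- evaluation map into the double character module -/
noncomputable def toDD : M →ₗ[R] DD M where
  toFun x := (show (M →+ Circ) →+ Circ from
    { toFun := fun χ => χ x, map_zero' := rfl, map_add' := fun _ _ => rfl })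
  map_add' x y := by
    refine DFunLike.ext (F := (M →+ Circ) →+ Circ) _ _ fun χ => ?_
    exact map_add χ x y
  map_smul' r x := rfl

/-- value of an element of the double character group at a character -/
def DD.ev {M : Type} [AddCommGroup M] (z : DD M) : (M →+ Circ) → Circ :=
  fun χ => (show (M →+ Circ) →+ Circ from z) χ

end dual

end Pool.Agent.Work.MP_edf6ee_al.CP
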