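import Pool.Agent.Work.MP_edf6ee_al.CP.Defs

/-!
# MP_edf6ee_al, closed points: statements of the items
-/

set_option autoImplicit false

namespace Pool.Agent.Work.MP_edf6ee_al.CP

open scoped BigOperators

/-! ## Block A: pp formulas -/

/-- FT: pp formulas may be written with arbitrary finite index types. -/
def S_FT : Prop :=
  ∀ (R : Type) [Ring R] (n : ℕ) (ι κ : Type) [Fintype ι] [Fintype κ]
    (C : ι → Fin n → R) (D : ι → κ → R),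
    ∃ φ : PP R n, ∀ (M : Type) [AddCommGroup M] [Module R M] (x : Fin n → M),
      φ.Sat M x ↔ ∃ y : κ → M, ∀ i, ∑ j, C i j • x j + ∑ l, D i l • y l = 0

/-- NF: closure of pp formulas under existential quantifiers, finite conjunctions and linear
substitutions. -/
def S_NF : Prop :=
  ∀ (R : Type) [Ring R] (n k m : ℕ) (d : Fin m → ℕ) (φ : ∀ e : Fin m, PP R (d e))
    (A : ∀ e : Fin m, Fin (d e) → Fin n → R) (B : ∀ e : Fin m, Fin (d e) → Fin k → R),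
    ∃ ψ : PP R n, ∀ (M : Type) [AddCommGroup M] [Module R M] (x : Fin n → M),
      ψ.Sat M x ↔ ∃ y : Fin k → M, ∀ e : Fin m,
        (φ e).Sat M (fun j => ∑ i, A e j i • x i + ∑ l, B e j l • y l)

/-- BAS: basic facts. -/
def S_BAS : Prop :=
  ∀ (R : Type) [Ring R] (n : ℕ) (φ : PP R n) (M : Type) [AddCommGroup M] [Module R M],
    φ.Sat M (fun _ => 0) ∧ (∀ x y, φ.Sat M x → φ.Sat M y → φ.Sat M (fun i => x i + y i)) ∧
    (∀ x, φ.Sat M x → φ.Sat M (fun i => - x i)) ∧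
    ∀ (M' : Type) [AddCommGroup M'] [Module R M'] (f : M →ₗ[R] M') (x : Fin n → M),
      φ.Sat M x → φ.Sat M' (fun i => f (x i))

/-- FRM: formulas for conjunction and sum, uniformly in all modules. -/
def S_FRM : Prop :=
  ∀ (R : Type) [Ring R] (φ ψ : PP R 1),
    (∃ σ : PP R 1, ∀ (M : Type) [AddCommGroup M] [Module R M] (x : M),
      σ.Sat M (fun _ => x) ↔ φ.Sat M (fun _ => x) ∧ ψ.Sat M (fun _ => x)) ∧
    (∃ σ : PP R 1, ∀ (M : Type) [AddCommGroup M] [Module R M] (x : M),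
      σ.Sat M (fun _ => x) ↔
        ∃ x₁ x₂ : M, x = x₁ + x₂ ∧ φ.Sat M (fun _ => x₁) ∧ ψ.Sat M (fun _ => x₂))

/-- SUB: the solution sets are subgroups. -/
def S_SUB : Prop :=
  ∀ (R : Type) [Ring R] (M : Type) [AddCommGroup M] [Module R M],
    (∀ φ : PP R 1, ∃ A ∈ D1 R M, ∀ x, x ∈ A ↔ φ.Sat M (fun _ => x)) ∧
    (∀ φ : PP R 2, ∃ B ∈ D2 R M, ∀ x y, (x, y) ∈ B ↔ φ.Sat M ![x, y])

/-- CL1: closure properties of `D1`. -/
def S_CL1 : Prop :=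
  ∀ (R : Type) [Ring R] (M : Type) [AddCommGroup M] [Module R M],
    ⊥ ∈ D1 R M ∧ ⊤ ∈ D1 R M ∧ (∀ A ∈ D1 R M, ∀ B ∈ D1 R M, A ⊓ B ∈ D1 R M) ∧
    (∀ A ∈ D1 R M, ∀ B ∈ D1 R M, A ⊔ B ∈ D1 R M) ∧
    (∀ A ∈ D1 R M, ∀ f : Module.End R M, ∀ x ∈ A, f x ∈ A)

/-- the closure properties of one pp-definable relation -/
structure Cl2 (R : Type) [Ring R] (M : Type) [AddCommGroup M] [Module R M]
    (B : AddSubgroup (M × M)) : Prop where
  dom : ∃ A ∈ D1 R M, ∀ x, x ∈ A ↔ ∃ y, (x, y) ∈ B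
  rng : ∃ A ∈ D1 R M, ∀ y, y ∈ A ↔ ∃ x, (x, y) ∈ B
  ker : ∃ A ∈ D1 R M, ∀ x, x ∈ A ↔ (x, 0) ∈ B
  coker : ∃ A ∈ D1 R M, ∀ y, y ∈ A ↔ (0, y) ∈ B
  swap : ∃ B' ∈ D2 R M, ∀ x y, (x, y) ∈ B' ↔ (y, x) ∈ B
  cut : ∀ A ∈ D1 R M, ∀ A' ∈ D1 R M, ∃ B' ∈ D2 R M, ∀ x y,
    (x, y) ∈ B' ↔ (x, y) ∈ B ∧ x ∈ A ∧ y ∈ A'
  img : ∀ A ∈ D1 R M, ∃ A' ∈ D1 R M, ∀ y, y ∈ A' ↔ ∃ x ∈ A, (x, y) ∈ B
  pre : ∀ A ∈ D1 R M, ∃ A' ∈ D1 R M, ∀ x, x ∈ A' ↔ ∃ y ∈ A, (x, y) ∈ B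
  graph : ∀ r : R, ∃ A ∈ D1 R M, ∀ z, z ∈ A ↔ ∃ x y, (x, y) ∈ B ∧ z = x + r • y

/-- CL2: closure properties of `D2`. -/
def S_CL2 : Prop :=
  ∀ (R : Type) [Ring R] (M : Type) [AddCommGroup M] [Module R M], ∀ B ∈ D2 R M, Cl2 R M B

/-! ## Block B: algebraic compactness, hulls, realisation of types -/

/-- ACP: pure-injective modules are algebraically compact. -/
def S_ACP : Prop :=
  ∀ (R : Type) [Ring R] (M : Type) [AddCommGroup M] [Module R M], PInj R M → AC R M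

/-- PAC: algebraically compact modules are pure-injective. -/
def S_PAC : Prop :=
  ∀ (R : Type) [Ring R] (M : Type) [AddCommGroup M] [Module R M], AC R M → PInj R M

/-- RET: retracts of algebraically compact modules are algebraically compact. -/
def S_RET : Prop :=
  ∀ (R : Type) [Ring R] (M H : Type) [AddCommGroup M] [Module R M] [AddCommGroup H] [Module R H]
    (i : H →ₗ[R] M) (π : M →ₗ[R] H), (∀ x, π (i x) = x) → AC R M → AC R H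

/-- FS: finitely many linear relations in `M` give a pp formula satisfied by a given tuple. -/
def S_FS : Prop :=
  ∀ (R : Type) [Ring R] (M : Type) [AddCommGroup M] [Module R M] (n : ℕ) (a : Fin n → M)
    (S : Finset (M →₀ R)), (∀ w ∈ S, (w.sum fun m r => r • m) = 0) →
    ∃ φ : PP R n, φ.Sat M a ∧ ∀ (M' : Type) [AddCommGroup M'] [Module R M'] (a' : Fin n → M'),
      φ.Sat M' a' → ∃ x : M → M', (∀ i, x (a i) = a' i) ∧ ∀ w ∈ S, (w.sum fun m r => r • x m) = 0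

/-- GEXT: homomorphisms into algebraically compact modules with prescribed pp conditions. -/
def S_GEXT : Prop :=
  ∀ (R : Type) [Ring R] (M M' : Type) [AddCommGroup M] [Module R M] [AddCommGroup M']
    [Module R M'], AC R M' → ∀ (n l : ℕ) (a : Fin n → M) (ψ : PP R (n + l)) (c : Fin l → M'),
    (∀ φ : PP R n, φ.Sat M a → ∃ a' : Fin n → M', φ.Sat M' a' ∧ ψ.Sat M' (Fin.append a' c)) →
    ∃ f : M →ₗ[R] M', ψ.Sat M' (Fin.append (fun i => f (a i)) c)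

/-- ACE: compactness for families of endomorphisms `u j` with `u j b ≡ b mod ψ` and constraints
`u j x = u j' x' + v`. -/
def S_ACE : Prop :=
  ∀ (R : Type) [Ring R] (M : Type) [AddCommGroup M] [Module R M], AC R M →
    ∀ (J : Type), ∀ ψ ∈ D1 R M, ∀ (b : M) (Γ : Set (J × M × J × M × M)),
    (∀ (s : Finset (J × M × J × M × M)) (t : Finset J), (∀ γ ∈ s, γ ∈ Γ) →
      ∃ u : J → Module.End R M,
        (∀ γ ∈ s, u γ.1 γ.2.1 = u γ.2.2.1 γ.2.2.2.1 + γ.2.2.2.2) ∧ ∀ j ∈ t, u j b - b ∈ ψ) →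
    ∃ u : J → Module.End R M,
      (∀ γ ∈ Γ, u γ.1 γ.2.1 = u γ.2.2.1 γ.2.2.2.1 + γ.2.2.2.2) ∧ ∀ j, u j b - b ∈ ψ

/-- HZ: a kernel-maximal endomorphism. -/
def S_HZ : Prop :=
  ∀ (R : Type) [Ring R] (M : Type) [AddCommGroup M] [Module R M], AC R M →
    ∀ ψ ∈ D1 R M, ∀ b : M, ∃ f : Module.End R M, f b - b ∈ ψ ∧
      ∀ g : Module.End R M, g b - b ∈ ψ → ∃ h : Module.End R M, h b - b ∈ ψ ∧ h * g * f = f

/-- HULL: the idempotent onto the hull of the generalised element `b mod ψ`. -/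
def S_HULL : Prop :=
  ∀ (R : Type) [Ring R] (M : Type) [AddCommGroup M] [Module R M], AC R M →
    ∀ ψ ∈ D1 R M, ∀ b : M, b ∉ ψ → ∃ e : Module.End R M, e * e = e ∧ e b - b ∈ ψ ∧
      ∀ g : Module.End R M, g b - b ∈ ψ → ∃ h : Module.End R M, h b - b ∈ ψ ∧ h * g * e = e

/-- HP -/
def S_HP : Prop :=
  ∀ (R : Type) [Ring R] (M : Type) [AddCommGroup M] [Module R M], Indec R M → AC R M → HPr R M

/-- IRR -/
def S_IRR : Prop :=
  ∀ (R : Type) [Ring R] (M : Type) [AddCommGroup M] [Module R M], AC R M → HPr R M → IrrEl R M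

/-- LINK -/
def S_LINK : Prop :=
  ∀ (R : Type) [Ring R] (M : Type) [AddCommGroup M] [Module R M], AC R M → HPr R M → LinkEl R M

/-- DDAC: the double character module is algebraically compact. -/
def S_DDAC : Prop :=
  ∀ (R : Type) [Ring R] (M : Type) [AddCommGroup M] [Module R M], AC R (DD M)

/-- DDSAT: elementary duality for the double character module. -/
def S_DDSAT : Prop :=
  ∀ (R : Type) [Ring R] (M : Type) [AddCommGroup M] [Module R M] (n : ℕ) (φ : PP R n)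
    (z : Fin n → DD M), φ.Sat (DD M) z ↔
      ∀ χ : Fin n → (M →+ Circ), (∀ x : Fin n → M, φ.Sat M x → ∑ i, χ i (x i) = 0) →
        ∑ i, (z i).ev (χ i) = 0

/-- DD: consequences. -/
def S_DD : Prop :=
  ∀ (R : Type) [Ring R] (M : Type) [AddCommGroup M] [Module R M],
    DefC R M (DD M) ∧ ∀ (n : ℕ) (φ : PP R n) (x : Fin n → M),
      φ.Sat (DD M) (fun i => toDD R M (x i)) → φ.Sat M x

/-- RP: reduced products realise consistent types. -/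
def S_RP : Prop :=
  ∀ (R : Type) [Ring R] (N : Type) [AddCommGroup N] [Module R N] (p : Set (PP R 1)),
    p.Nonempty →
    (∀ φ ∈ p, ∀ ψ : PP R 1, ψ ∉ p → ∃ x : N, φ.Sat N (fun _ => x) ∧ ¬ ψ.Sat N (fun _ => x)) →
    (∀ φ₁ ∈ p, ∀ φ₂ ∈ p, ∃ φ ∈ p, ∀ x : N, φ.Sat N (fun _ => x) →
      φ₁.Sat N (fun _ => x) ∧ φ₂.Sat N (fun _ => x)) →
    ∃ (M : Type) (_ : AddCommGroup M) (_ : Module R M) (a : M),
      (∀ φ : PP R 1, φ ∈ p ↔ φ.Sat M (fun _ => a)) ∧ DefC R N M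

/-- HM: an indecomposable direct summand through an element with irreducible type. -/
def S_HM : Prop :=
  ∀ (R : Type) [Ring R] (M : Type) [AddCommGroup M] [Module R M], AC R M → ∀ a : M, a ≠ 0 →
    (∀ A ∈ D1 R M, ∀ B ∈ D1 R M, a ∉ A → a ∉ B →
      ∃ C ∈ D1 R M, a ∈ C ∧ a ∉ (C ⊓ A) ⊔ (C ⊓ B)) →
    ∃ (H : Type) (_ : AddCommGroup H) (_ : Module R H) (i : H →ₗ[R] M) (π : M →ₗ[R] H) (a' : H),
      (∀ x, π (i x) = x) ∧ i a' = a ∧ Indec R H ∧ AC R H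

/-- REAL: closed points realise all irreducible types of their theory. -/
def S_REAL : Prop :=
  ∀ (R : Type) [Ring R] (N : Type) [AddCommGroup N] [Module R N], ClosedPt R N → RealTS R N

/-! ## Block C: the lattice of pp-definable subgroups of a closed point -/

/-- MAX: Zorn. -/
def S_MAX : Prop :=
  ∀ (R : Type) [Ring R] (N : Type) [AddCommGroup N] [Module R N] (p₀ Ω : Set (AddSubgroup N)),
    TS R N p₀ → Ω ⊆ D1 R N → Ω.Nonempty → (∀ α ∈ Ω, ∀ β ∈ Ω, ∃ γ ∈ Ω, α ⊔ β ≤ γ) →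
    (∀ ω ∈ Ω, ω ∉ p₀) →
    ∃ p : Set (AddSubgroup N), TS R N p ∧ Irr R N p ∧ p₀ ⊆ p ∧ (∀ ω ∈ Ω, ω ∉ p) ∧
      ∀ η ∈ D1 R N, η ∉ p → ∃ φ ∈ p, ∃ ω ∈ Ω, φ ⊓ η ≤ ω

/-- MR: maximal types in an interval are realised. -/
def S_MR : Prop :=
  ∀ (R : Type) [Ring R] (N : Type) [AddCommGroup N] [Module R N], Good R N →
    ∀ ψ ∈ D1 R N, ∀ φ ∈ D1 R N, ¬ φ ≤ ψ →
      ∃ a ∈ φ, a ∉ ψ ∧ ∀ η ∈ D1 R N, a ∉ η → ∃ C ∈ D1 R N, a ∈ C ∧ C ⊓ η ≤ ψ

/-- SOC: all types of elements are neg-isolated. -/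
def S_SOC : Prop :=
  ∀ (R : Type) [Ring R] (N : Type) [AddCommGroup N] [Module R N], Good R N →
    ∀ a : N, a ≠ 0 → ∃ η ∈ D1 R N, a ∉ η ∧
      ∀ ζ ∈ D1 R N, a ∉ ζ → ∃ φ ∈ D1 R N, a ∈ φ ∧ φ ⊓ ζ ≤ η

/-- W: no infinite sequence of nested intervals with essential lower parts. -/
def S_W : Prop :=
  ∀ (R : Type) [Ring R] (N : Type) [AddCommGroup N] [Module R N], Good R N →
    ∀ φ ψ : ℕ → AddSubgroup N, (∀ n, φ n ∈ D1 R N) → (∀ n, ψ n ∈ D1 R N) →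
      (∀ n, φ (n + 1) ≤ φ n) → (∀ n, ψ n ≤ ψ (n + 1)) → (∀ n, ψ n < φ n) →
      (∀ n, ∀ ξ ∈ D1 R N, ψ n ≤ ξ → ξ ≤ φ (n + 1) → ξ ⊓ ψ (n + 1) ≤ ψ n → ξ ≤ ψ n) → False

/-- WF: an interval without essential lower parts (in all its initial pieces). -/
def S_WF : Prop :=
  ∀ (R : Type) [Ring R] (N : Type) [AddCommGroup N] [Module R N], Good R N →
    ∃ ψ ∈ D1 R N, ∃ φ ∈ D1 R N, ψ < φ ∧ ∀ ψ' ∈ D1 R N, ∀ φ' ∈ D1 R N,
      ψ ≤ ψ' → ψ' < φ' → φ' ≤ φ → ∃ ξ ∈ D1 R N, ψ ≤ ξ ∧ ξ ≤ φ' ∧ ξ ⊓ ψ' ≤ ψ ∧ ¬ ξ ≤ ψ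

/-- SL: if there is a minimal pair, then every element has a minimal pair in its type. -/
def S_SL : Prop :=
  ∀ (R : Type) [Ring R] (N : Type) [AddCommGroup N] [Module R N], Good R N →
    ∀ η ∈ D1 R N, ∀ ξ ∈ D1 R N, MinPair R N η ξ → ∀ a : N, a ≠ 0 →
      ∃ ψ ∈ D1 R N, ∃ φ ∈ D1 R N, a ∉ ψ ∧ a ∈ φ ∧ MinPair R N ψ φ

/-- FD -/
def S_FD : Prop :=
  ∀ (R : Type) [Ring R] (N : Type) [AddCommGroup N] [Module R N],
    ∀ φ, FinL R N φ → ∀ ψ ∈ D1 R N, ψ ≤ φ → FinL R N ψ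

/-- FU -/
def S_FU : Prop :=
  ∀ (R : Type) [Ring R] (N : Type) [AddCommGroup N] [Module R N],
    ∀ φ, FinL R N φ → ∀ ψ, FinL R N ψ → FinL R N (φ ⊔ ψ)

/-- F0: a minimal pair forces finite length. -/
def S_F0 : Prop :=
  ∀ (R : Type) [Ring R] (N : Type) [AddCommGroup N] [Module R N], Good R N →
    ∀ η ∈ D1 R N, ∀ ξ ∈ D1 R N, MinPair R N η ξ → FinL R N ⊤

/-- FL: finite length of the lattice gives finite endolength. -/
def S_FL : Prop :=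
  ∀ (R : Type) [Ring R] (N : Type) [AddCommGroup N] [Module R N], AC R N → FinL R N ⊤ →
    IsFiniteLength (Module.End R N) N

/-- NU: no uniform pp-definable subgroup. -/
def S_NU : Prop :=
  ∀ (R : Type) [Ring R] (N : Type) [AddCommGroup N] [Module R N], Good R N → NoMin R N →
    ∀ φ ∈ D1 R N, φ ≠ ⊥ → ∃ α ∈ D1 R N, ∃ β ∈ D1 R N,
      α ≠ ⊥ ∧ β ≠ ⊥ ∧ α ≤ φ ∧ β ≤ φ ∧ α ⊓ β = ⊥

/-- BR: branching along a family of central elements. -/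
def S_BR : Prop :=
  ∀ (R : Type) [Ring R] (N : Type) [AddCommGroup N] [Module R N], Good R N → NoMin R N →
    ∀ (Λ : Type) (ρ : Λ → R), (∀ l s, ρ l * s = s * ρ l) →
      (∀ l m, l ≠ m → ∀ x : N, (ρ l - ρ m) • x = 0 → x = 0) →
      ∀ φ ∈ D1 R N, φ ≠ ⊥ → ∃ V : Λ → AddSubgroup N,
        (∀ l, V l ∈ D1 R N ∧ V l ≠ ⊥ ∧ V l ≤ φ) ∧ ∀ l m, l ≠ m → V l ⊓ V m = ⊥

/-- TREE -/
def S_TREE : Prop :=
  ∀ (R : Type) [Ring R] (N : Type) [AddCommGroup N] [Module R N], Good R N → NoMin R N →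
    ∀ (Λ : Type) (ρ : Λ → R), (∀ l s, ρ l * s = s * ρ l) →
      (∀ l m, l ≠ m → ∀ x : N, (ρ l - ρ m) • x = 0 → x = 0) →
      ∃ b : (ℕ → Λ) → N, Function.Injective b ∧ ∀ f, MaxEl R N (b f)

/-- CNT: maximal elements are coded by pp-definable relations. -/
def S_CNT : Prop :=
  ∀ (R : Type) [Ring R] (N : Type) [AddCommGroup N] [Module R N], Good R N →
    ∀ (ι : Type) (c : ι → N), Function.Injective c → (∀ i, MaxEl R N (c i)) →
      Cardinal.mk ι ≤ Cardinal.mk (D2 R N)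

/-! ## Block D: cardinalities -/

/-- CARD: the number of pp-definable relations. -/
def S_CARD : Prop :=
  ∀ (R : Type) [Ring R] (N : Type) [AddCommGroup N] [Module R N],
    Cardinal.mk (D2 R N) ≤
      max Cardinal.aleph0 (Cardinal.mk (Set.range fun (r : R) (x : N) => r • x))

/-- RES1: the maximal ideal of the centre attached to `N`. -/
def S_RES1 : Prop :=
  ∀ (K : Type) [CommRing K] [IsArtinianRing K] (R : Type) [Ring R] [Algebra K R]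
    [Module.Finite K R] (N : Type) [AddCommGroup N] [Module R N], Indec R N →
    ∃ m : Ideal K, m.IsMaximal ∧ (∀ k : K, k ∉ m → ∀ x : N, algebraMap K R k • x = 0 → x = 0) ∧
      ∃ t : ℕ, ∀ k ∈ m ^ t, ∀ x : N, algebraMap K R k • x = 0

/-- RES2: the number of multiplications. -/
def S_RES2 : Prop :=
  ∀ (K : Type) [CommRing K] [IsArtinianRing K] (R : Type) [Ring R] [Algebra K R]
    [Module.Finite K R] (N : Type) [AddCommGroup N] [Module R N] (m : Ideal K) (t : ℕ),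
    m.IsMaximal → (∀ k ∈ m ^ t, ∀ x : N, algebraMap K R k • x = 0) →
    Cardinal.mk (Set.range fun (r : R) (x : N) => r • x) ≤
      max Cardinal.aleph0 (Cardinal.mk (K ⧸ m))

/-- ARITH -/
def S_ARITH : Prop :=
  ∀ (F : Type), Nontrivial F → Cardinal.mk F < Cardinal.mk F ^ Cardinal.aleph0 →
    ∀ c : Cardinal, c ≤ max Cardinal.aleph0 (Cardinal.mk F) →
      ¬ Cardinal.mk (ℕ → F) ≤ max Cardinal.aleph0 c

end Pool.Agent.Work.MP_edf6ee_al.CP
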